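import Pool.Agent.X26.GP.GenA

/-!
# The number of the integers of a window avoiding given classes
-/

set_option autoImplicit false

namespace Pool.Agent.X26.GP

open Finset
open Pool.Agent.Y843.HS
open Pool.Agent.Y843.AC (OK Av)

open Classical in
/-- lower bound for the number of the integers of a window which avoid the classes modulo the primes up to
a small power of its length -/
theorem rough (r : ℕ) : ∃ κ₀ : ℝ, 0 < κ₀ ∧ κ₀ ≤ 1 ∧ ∀ κ : ℝ, 0 < κ → κ ≤ κ₀ → ∃ X₀ : ℕ, ∀ X A : ℕ, X₀ ≤ X →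
    ∀ Z : ℕ → Finset ℕ, OK r κ X Z →
    1 / 2 * (X * VV Z 0 ⌊(X : ℝ) ^ κ⌋₊) ≤ (((Ioc A (A + X)).filter (fun n => Av κ X Z n)).card : ℝ) := by
  obtain ⟨C, hC1, hC⟩ := FLc_of Pool.Agent.Y151.HS.flc
  obtain ⟨b, hb⟩ : ∃ b : ℕ, b = C * (r + 1) + 2 := ⟨_, rfl⟩
  obtain ⟨s, hs⟩ : ∃ s : ℕ, s = C * (r + 1) + 2 * r + 3 := ⟨_, rfl⟩
  have hCb : (0 : ℝ) < C * b := by
    have : 0 < C * b := Nat.mul_pos hC1 (by omega)
    exact_mod_cast this
  obtain ⟨cM, hcM1, hcM⟩ := EE_log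
  obtain ⟨W, hW⟩ : ∃ W : ℕ, W = ∏ p ∈ Pr 0 s, p := ⟨_, rfl⟩
  have hW1 : 1 ≤ W := by rw [hW]; exact Nat.one_le_iff_ne_zero.2 (prod_ne_zero_iff.2 fun p hp => (Pr_prime hp).ne_zero)
  have hW0 : (0 : ℝ) < W := by exact_mod_cast hW1
  refine ⟨min 1 (1 / (4 * (C * b))), lt_min one_pos (by positivity), min_le_left _ _, ?_⟩
  intro κ hκ hκ0
  have hκ1 : κ ≤ 1 := hκ0.trans (min_le_left _ _)
  have hκ2 : κ ≤ 1 / (4 * (C * b)) := hκ0.trans (min_le_right _ _)
  obtain ⟨X₁, hX₁⟩ := log_ge (max 1 (Real.log (s + 4) / κ))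
  obtain ⟨X₂, hX₂⟩ := log_pow_le (4 * r) ((4 * W * cM ^ (2 * r)) ^ 2)
  refine ⟨max 1 (max X₁ X₂), ?_⟩
  intro X A hX Z hZ
  have hX1 : 1 ≤ X := (le_max_left _ _).trans hX
  have hX2 := hX₁ X ((le_max_left _ _).trans ((le_max_right _ _).trans hX))
  have hX3 := hX₂ X ((le_max_right _ _).trans ((le_max_right _ _).trans hX))
  have hX0 : (0 : ℝ) < X := by exact_mod_cast hX1
  have hX1' : (1 : ℝ) ≤ X := by exact_mod_cast hX1
  have hl1 : 1 ≤ Real.log X := (le_max_left _ _).trans hX2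
  obtain ⟨Y, hY⟩ : ∃ Y : ℕ, Y = ⌊(X : ℝ) ^ κ⌋₊ := ⟨_, rfl⟩
  rw [← hY]
  have hXκ0 : 0 < (X : ℝ) ^ κ := by positivity
  have hYle : (Y : ℝ) ≤ (X : ℝ) ^ κ := by rw [hY]; exact Nat.floor_le hXκ0.le
  have hYlt : (X : ℝ) ^ κ < Y + 1 := by rw [hY]; exact Nat.lt_floor_add_one _
  have hbig : ((s : ℝ) + 4) ≤ (X : ℝ) ^ κ := by
    rw [Real.rpow_def_of_pos hX0, ← Real.log_le_iff_le_exp (by positivity)]
    have := (le_max_right _ _).trans hX2
    rwa [div_le_iff₀ hκ] at this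
  have hsY : s + 3 ≤ Y := by
    have : ((s + 3 : ℕ) : ℝ) ≤ Y := by
      push_cast
      linarith
    exact_mod_cast this
  have hmemY : ∀ p ∈ Pr 0 Y, (Z p).card ≤ r ∧ (Z p).card < p ∧ ∀ c ∈ Z p, c < p := by
    intro p hp
    rw [Pr_mem] at hp
    apply hZ p hp.2
    have h3 : (p : ℝ) ≤ Y := by exact_mod_cast hp.1.2
    exact h3.trans hYle
  -- the level
  obtain ⟨J, _, hJ1, hJ2⟩ := exists_cross (P := fun J => 2 ^ 2 ^ J < Y) (a := 0) (b := Y) (Nat.zero_le _)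
    (by
      show 2 ^ 2 ^ 0 < Y
      norm_num
      omega) (by rw [not_lt]; exact tower_ge Y)
  rw [not_lt] at hJ2
  obtain ⟨Q, hQ⟩ : ∃ Q : ℕ, Q = 2 ^ 2 ^ (J + 1) := ⟨_, rfl⟩
  have hQ2 : Q ≤ Y ^ 2 := by
    rw [hQ, pow_succ 2 J, pow_mul]
    exact Nat.pow_le_pow_left hJ1.le 2
  have hYQ : Y ≤ Q := by rw [hQ]; exact hJ2
  obtain ⟨Om, hOm⟩ : ∃ Om : ℕ → Finset ℕ, Om = fun p => if p ≤ Y then Z p else ∅ := ⟨_, rfl⟩
  have hOmS : Sv r s (2 ^ 2 ^ (J + 1)) Om := by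
    intro p hp
    rw [hOm]
    by_cases h : p ≤ Y
    · simp only [h, if_true]
      have hp' := Pr_mem.1 hp
      have := hmemY p (Pr_mem.2 ⟨⟨by omega, h⟩, hp'.2⟩)
      exact ⟨this.1, this.2.2⟩
    · simp only [h, if_false]
      simp
  have hprod : ∏ p ∈ Pr s (2 ^ 2 ^ (J + 1)), (1 - ((Om p).card : ℝ) / p) = VV Z s Y := by
    unfold VV
    symm
    have hsub : Pr s Y ⊆ Pr s (2 ^ 2 ^ (J + 1)) := by
      intro p hp
      rw [Pr_mem] at hp ⊢
      rw [← hQ]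
      exact ⟨⟨hp.1.1, by omega⟩, hp.2⟩
    rw [← prod_subset hsub]
    · apply prod_congr rfl
      intro p hp
      have := (Pr_mem.1 hp).1.2
      rw [hOm]
      simp only [this, if_true]
    · intro p hp hp2
      have hpY : ¬ p ≤ Y := by
        intro h
        apply hp2
        rw [Pr_mem] at hp ⊢
        exact ⟨⟨hp.1.1, h⟩, hp.2⟩
      rw [hOm]
      simp only [hpY, if_false]
      simp
  -- the classes modulo `W`
  set adm := (range (∏ p ∈ Pr 0 s, p)).filter (fun a => ∀ p ∈ Pr 0 s, a % p ∈ (range p).filter (fun c => c ∉ Z p))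
    with hadm
  have hZs : ∀ p ∈ Pr 0 s, ∀ c ∈ Z p, c < p := by
    intro p hp
    have hp' := Pr_mem.1 hp
    exact (hmemY p (Pr_mem.2 ⟨⟨hp'.1.1, by omega⟩, hp'.2⟩)).2.2
  have hadmc : (adm.card : ℝ) = W * VV Z 0 s := by rw [hW]; exact prod_adm hZs
  have hV1 : 0 < VV Z 0 s := by
    unfold VV
    apply prod_pos
    intro p hp
    have hp' := Pr_mem.1 hp
    have h4 := (hmemY p (Pr_mem.2 ⟨⟨hp'.1.1, by omega⟩, hp'.2⟩)).2.1
    have hp0 : (0 : ℝ) < p := by exact_mod_cast hp'.2.pos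
    have h5 : ((Z p).card : ℝ) / p < 1 := by
      rw [div_lt_one hp0]
      exact_mod_cast h4
    linarith
  have hV2 : 1 / (cM * Real.log X) ^ (2 * r) ≤ VV Z s Y := by
    have hSv : Sv r s Y Z := by
      intro p hp
      have hp' := Pr_mem.1 hp
      have := hmemY p (Pr_mem.2 ⟨⟨by omega, hp'.1.2⟩, hp'.2⟩)
      exact ⟨this.1, this.2.2⟩
    refine le_trans ?_ (VV_ge (by omega) hSv)
    have h1 := hcM s Y (by omega) (by omega)
    have h2 := one_le_EE s Y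
    apply one_div_le_one_div_of_le (by positivity)
    apply pow_le_pow_left₀ (by positivity)
    refine h1.trans ?_
    apply mul_le_mul_of_nonneg_left _ (by linarith)
    apply Real.log_le_log (by exact_mod_cast (show 0 < Y by omega))
    refine hYle.trans ?_
    calc (X : ℝ) ^ κ ≤ (X : ℝ) ^ (1 : ℝ) := Real.rpow_le_rpow_of_exponent_le hX1' hκ1
      _ = X := Real.rpow_one _
  have hV2' : 0 < VV Z s Y := lt_of_lt_of_le (by positivity) hV2
  -- the error term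
  have herr : ((2 : ℝ) ^ 2 ^ (J + 1)) ^ (C * b) ≤ Real.sqrt X := by
    have h1 : ((2 : ℝ) ^ 2 ^ (J + 1)) ≤ ((X : ℝ) ^ κ) ^ 2 := by
      have h2 : (Q : ℝ) ≤ (Y : ℝ) ^ 2 := by exact_mod_cast hQ2
      have h3 : (Q : ℝ) = (2 : ℝ) ^ 2 ^ (J + 1) := by rw [hQ]; push_cast; rfl
      rw [← h3]
      exact h2.trans (pow_le_pow_left₀ (Nat.cast_nonneg _) hYle 2)
    calc ((2 : ℝ) ^ 2 ^ (J + 1)) ^ (C * b) ≤ (((X : ℝ) ^ κ) ^ 2) ^ (C * b) :=
          pow_le_pow_left₀ (by positivity) h1 _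
      _ = (X : ℝ) ^ (κ * 2 * (C * b)) := by
          rw [← Real.rpow_natCast (((X : ℝ) ^ κ) ^ 2), ← Real.rpow_natCast ((X : ℝ) ^ κ), ← Real.rpow_mul hX0.le,
            ← Real.rpow_mul hX0.le]
          push_cast
          rfl
      _ ≤ (X : ℝ) ^ (1 / 2 : ℝ) := by
          apply Real.rpow_le_rpow_of_exponent_le hX1'
          rw [le_div_iff₀ (by positivity)] at hκ2
          linarith
      _ = Real.sqrt X := (Real.sqrt_eq_rpow _).symm
  have hsq : 4 * W ≤ Real.sqrt X * VV Z s Y := by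
    have h1 : 4 * W * cM ^ (2 * r) * Real.log X ^ (2 * r) ≤ Real.sqrt X := by
      apply Real.le_sqrt_of_sq_le
      refine le_trans (le_of_eq ?_) hX3
      rw [mul_pow (4 * (W : ℝ) * cM ^ (2 * r)), ← pow_mul]
      congr 2
      ring
    have h2 : 4 * (W : ℝ) * (cM * Real.log X) ^ (2 * r) ≤ Real.sqrt X := by
      rw [mul_pow, ← mul_assoc]
      exact h1
    have h3 : 0 < (cM * Real.log X) ^ (2 * r) := by positivity
    calc 4 * (W : ℝ) = 4 * W * (cM * Real.log X) ^ (2 * r) * (1 / (cM * Real.log X) ^ (2 * r)) := by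
          field_simp
      _ ≤ Real.sqrt X * VV Z s Y := mul_le_mul h2 hV2 (by positivity) (Real.sqrt_nonneg _)
  -- counting
  set T := (Ioc A (A + X)).filter (fun n => Av κ X Z n) with hT
  have hndvd : ∀ p ∈ Pr s (2 ^ 2 ^ (J + 1)), ¬ p ∣ W := by
    intro p hp hpW
    rw [hW, (Pr_prime hp).prime.dvd_finsetProd_iff] at hpW
    obtain ⟨q, hq, hpq⟩ := hpW
    have h1 := (Nat.prime_dvd_prime_iff_eq (Pr_prime hp) (Pr_prime hq)).1 hpq
    have h2 := (Pr_mem.1 hq).1.2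
    have h3 := (Pr_mem.1 hp).1.1
    omega
  have hle : ∑ a ∈ adm, ((BB Om s (2 ^ 2 ^ (J + 1)) W a A X).card : ℝ) ≤ (T.card : ℝ) := by
    have h1 : ∑ a ∈ adm, (BB Om s (2 ^ 2 ^ (J + 1)) W a A X).card ≤ T.card := by
      rw [← card_biUnion]
      · apply card_le_card
        intro n hn
        rw [mem_biUnion] at hn
        obtain ⟨a, ha, hn⟩ := hn
        unfold BB at hn
        rw [mem_filter] at hn
        obtain ⟨hn1, hn2, hn3⟩ := hn
        rw [hT, mem_filter]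
        refine ⟨hn1, ?_⟩
        intro p hp hpX
        have hpY : p ≤ Y := by
          rw [hY]
          exact Nat.le_floor hpX
        rcases le_or_gt p s with h2 | h2
        · have hp0 : p ∈ Pr 0 s := Pr_mem.2 ⟨⟨hp.pos, h2⟩, hp⟩
          rw [hadm, mem_filter] at ha
          have h3 := ha.2 p hp0
          rw [mem_filter] at h3
          have hdv : p ∣ W := by rw [hW]; exact dvd_prod_of_mem _ hp0
          have h4 : n % p = a % p := by
            rw [← Nat.mod_mod_of_dvd n hdv, hn2, Nat.mod_mod_of_dvd a hdv]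
          rw [h4]
          exact h3.2
        · have h3 := hn3 p (Pr_mem.2 ⟨⟨h2, by rw [← hQ]; omega⟩, hp⟩)
          rw [hOm] at h3
          simpa only [hpY, if_true] using h3
      · intro a ha a' ha' haa
        rw [Function.onFun, disjoint_left]
        intro n hn hn'
        apply haa
        unfold BB at hn hn'
        rw [mem_filter] at hn hn'
        have ha1 := ha
        have ha2 := ha'
        rw [mem_coe, hadm, mem_filter, mem_range, ← hW] at ha1 ha2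
        have h1 := hn.2.1
        have h2 := hn'.2.1
        rw [Nat.mod_eq_of_lt ha1.1] at h1
        rw [Nat.mod_eq_of_lt ha2.1] at h2
        rw [← h1, ← h2]
    exact_mod_cast h1
  refine le_trans ?_ hle
  have hone : ∀ a ∈ adm, 3 / 4 * ((X : ℝ) / W * VV Z s Y) - Real.sqrt X ≤
      ((BB Om s (2 ^ 2 ^ (J + 1)) W a A X).card : ℝ) := by
    intro a _
    have h1 := hC r b s (J + 1) (by omega) (by omega) Om hOmS W a A X hW1 hndvd
    rw [hprod] at h1
    have h2 := (abs_le.1 h1).1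
    have h3 : (1 / 2 : ℝ) ^ b ≤ 1 / 4 := by
      calc (1 / 2 : ℝ) ^ b ≤ (1 / 2 : ℝ) ^ 2 := pow_le_pow_of_le_one (by norm_num) (by norm_num) (by omega)
        _ = 1 / 4 := by norm_num
    have h4 : 0 ≤ (X : ℝ) / W * VV Z s Y := by positivity
    have h5 := mul_le_mul_of_nonneg_right h3 h4
    linarith
  refine le_trans ?_ (sum_le_sum hone)
  rw [sum_const, nsmul_eq_mul, hadmc, ← VV_split Z (Nat.zero_le s) (show s ≤ Y by omega)]
  have h1 : (W : ℝ) * VV Z 0 s * (3 / 4 * ((X : ℝ) / W * VV Z s Y) - Real.sqrt X) =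
      3 / 4 * (X * (VV Z 0 s * VV Z s Y)) - VV Z 0 s * (W * Real.sqrt X) := by
    field_simp
  rw [h1]
  have h2 : (4 * W) * Real.sqrt X ≤ X * VV Z s Y := by
    have h3 := mul_le_mul_of_nonneg_right hsq (Real.sqrt_nonneg (X : ℝ))
    have h4 : Real.sqrt X * VV Z s Y * Real.sqrt X = X * VV Z s Y := by
      rw [mul_right_comm, Real.mul_self_sqrt hX0.le]
    rwa [h4] at h3
  have h3 := mul_le_mul_of_nonneg_left h2 hV1.le
  linarith

end Pool.Agent.X26.GP
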