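import Pool.Agent.X26.GP.GenA
import Pool.Agent.Y843.AC.HLD

/-!
# Translates of admissible sets by all patterns in a common generalised progression
-/

set_option autoImplicit false

namespace Pool.Agent.X26.GP

open Finset Filter
open Pool.Agent.Y843.HS (VV Pr Pr_mem Pr_prime log_ge)
open Pool.Agent.Y843.HG (VV_anti)
open Pool.Agent.Y843.AC (OK Av)
open Pool.Agent.Y843.AC.HL (Tup gg ZT nu Adm Tp Rough Sing loc mem_ZT card_ZT ZT_lt ZT_ok gg_pos small_part V_up
  VV_cmp)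

variable {m : ℕ}

/-- the integers `t + ∑ f_i d_i`, `t ∈ T`, `f ∈ F` -/
def TF (T : Finset ℤ) (d : Fin m → ℕ) (F : Finset (Fin m → ℕ)) : Finset ℤ :=
  (T ×ˢ F).image (fun p : ℤ × (Fin m → ℕ) => p.1 + ((∑ i, p.2 i * d i : ℕ) : ℤ))

theorem mem_TF {T : Finset ℤ} {d : Fin m → ℕ} {F : Finset (Fin m → ℕ)} {v : ℤ} :
    v ∈ TF T d F ↔ ∃ t ∈ T, ∃ f ∈ F, t + ((∑ i, f i * d i : ℕ) : ℤ) = v := by
  unfold TF
  rw [mem_image]
  constructor
  · rintro ⟨p, hp, rfl⟩
    rw [mem_product] at hp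
    exact ⟨p.1, hp.1, p.2, hp.2, rfl⟩
  · rintro ⟨t, ht, f, hf, rfl⟩
    exact ⟨(t, f), mem_product.2 ⟨ht, hf⟩, rfl⟩

theorem ZT_TF (T : Finset ℤ) (d : Fin m → ℕ) (F : Finset (Fin m → ℕ)) {q : ℕ} (hq : 0 < q) :
    ZT (TF T d F) q = ZP (ZT T) d F q := by
  ext u
  unfold ZP
  rw [mem_filter, mem_range]
  constructor
  · intro hu
    have hu' := ZT_lt hq u hu
    refine ⟨hu', ?_⟩
    have h1 : u % q ∈ ZT (TF T d F) q := by rwa [Nat.mod_eq_of_lt hu']
    rw [mem_ZT hq] at h1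
    obtain ⟨v, hv, hd⟩ := h1
    obtain ⟨t, ht, f, hf, rfl⟩ := mem_TF.1 hv
    refine ⟨f, hf, ?_⟩
    rw [mem_ZT hq]
    refine ⟨t, ht, ?_⟩
    have e : ((u + ∑ i, f i * d i : ℕ) : ℤ) + t = (u : ℤ) + (t + ((∑ i, f i * d i : ℕ) : ℤ)) := by
      push_cast
      ring
    rw [e]
    exact hd
  · rintro ⟨hu', f, hf, h1⟩
    rw [mem_ZT hq] at h1
    obtain ⟨t, ht, hd⟩ := h1
    have h2 : u % q ∈ ZT (TF T d F) q := by
      rw [mem_ZT hq]
      refine ⟨t + ((∑ i, f i * d i : ℕ) : ℤ), mem_TF.2 ⟨t, ht, f, hf, rfl⟩, ?_⟩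
      have e : (u : ℤ) + (t + ((∑ i, f i * d i : ℕ) : ℤ)) = ((u + ∑ i, f i * d i : ℕ) : ℤ) + t := by
        push_cast
        ring
      rw [e]
      exact hd
    rwa [Nat.mod_eq_of_lt hu'] at h2

/-- the coincidences -/
def Coin (k : ℕ) (T : Finset ℤ) (d : Fin m → ℕ) : Prop :=
  ∃ p q : Bx m k, p ≠ q ∧ ∃ t ∈ T, ∃ t' ∈ T, (bn p d : ℤ) - bn q d = t - t'

open Classical in
theorem coin_few (k D : ℕ) (T : Finset ℤ) :
    ((Fintype.piFinset (fun _ : Fin m => Icc 1 D)).filter (fun d => Coin k T d)).card * D ≤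
      ((k ^ m) ^ 2 * T.card ^ 2) * D ^ m := by
  have h1 : (Fintype.piFinset (fun _ : Fin m => Icc 1 D)).filter (fun d => Coin k T d) ⊆
      (((univ : Finset (Bx m k)) ×ˢ (univ : Finset (Bx m k))).filter (fun z => z.1 ≠ z.2) ×ˢ (T ×ˢ T)).biUnion
        (fun z => (Fintype.piFinset (fun _ : Fin m => Icc 1 D)).filter
          (fun d => (bn z.1.1 d : ℤ) - bn z.1.2 d = z.2.1 - z.2.2)) := by
    intro d hd
    rw [mem_filter] at hd
    obtain ⟨hd1, p, q, hpq, t, ht, t', ht', he⟩ := hd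
    rw [mem_biUnion]
    refine ⟨((p, q), (t, t')), ?_, ?_⟩
    · rw [mem_product, mem_filter, mem_product, mem_product]
      exact ⟨⟨⟨mem_univ _, mem_univ _⟩, hpq⟩, ht, ht'⟩
    · rw [mem_filter]
      exact ⟨hd1, he⟩
  calc _ ≤ (∑ z ∈ ((univ : Finset (Bx m k)) ×ˢ (univ : Finset (Bx m k))).filter (fun z => z.1 ≠ z.2) ×ˢ (T ×ˢ T),
          ((Fintype.piFinset (fun _ : Fin m => Icc 1 D)).filter
            (fun d => (bn z.1.1 d : ℤ) - bn z.1.2 d = z.2.1 - z.2.2)).card) * D :=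
        Nat.mul_le_mul_right _ ((card_le_card h1).trans card_biUnion_le)
    _ = ∑ z ∈ ((univ : Finset (Bx m k)) ×ˢ (univ : Finset (Bx m k))).filter (fun z => z.1 ≠ z.2) ×ˢ (T ×ˢ T),
          ((Fintype.piFinset (fun _ : Fin m => Icc 1 D)).filter
            (fun d => (bn z.1.1 d : ℤ) - bn z.1.2 d = z.2.1 - z.2.2)).card * D := by rw [sum_mul]
    _ ≤ ∑ z ∈ ((univ : Finset (Bx m k)) ×ˢ (univ : Finset (Bx m k))).filter (fun z => z.1 ≠ z.2) ×ˢ (T ×ˢ T),
          D ^ m := by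
        apply sum_le_sum
        intro z hz
        rw [mem_product, mem_filter] at hz
        exact fib hz.1.2 D _
    _ ≤ _ := by
        rw [sum_const, smul_eq_mul, card_product, card_product]
        apply Nat.mul_le_mul_right
        rw [pow_two T.card]
        apply Nat.mul_le_mul_right
        refine (card_filter_le _ _).trans ?_
        rw [card_product, card_univ, Fintype.card_pi, prod_const, card_univ, Fintype.card_fin, Fintype.card_fin,
          pow_two]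

/-- outside the coincidences all sums are distinct -/
theorem TF_card {k : ℕ} {T : Finset ℤ} {d : Fin m → ℕ} {F : Finset (Fin m → ℕ)} (hF : ∀ f ∈ F, ∀ i, f i < k)
    (hd : ¬ Coin k T d) : (TF T d F).card = T.card * F.card := by
  unfold TF
  rw [card_image_of_injOn, card_product]
  rintro ⟨t, f⟩ h1 ⟨t', f'⟩ h2 he
  rw [mem_coe, mem_product] at h1 h2
  simp only at h1 h2 he
  have hff : f = f' := by
    by_contra hne
    apply hd
    refine ⟨fun i => ⟨f' i, hF f' h2.2 i⟩, fun i => ⟨f i, hF f h1.2 i⟩, ?_, t, h1.1, t', h2.1, ?_⟩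
    · intro h
      apply hne
      funext i
      have := congrArg Fin.val (congrFun h i)
      exact this.symm
    · have e1 : bn (fun i => (⟨f' i, hF f' h2.2 i⟩ : Fin k)) d = ∑ i, f' i * d i := rfl
      have e2 : bn (fun i => (⟨f i, hF f h1.2 i⟩ : Fin k)) d = ∑ i, f i * d i := rfl
      rw [e1, e2]
      linarith
  subst hff
  have : t = t' := by linarith
  rw [this]

/-- the sieve product and the expected density, uniformly for all sets of bounded size which may be a bit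
larger than `x` -/
theorem VV_low (L C : ℕ) (hC : 1 ≤ C) : ∃ c : ℝ, 0 < c ∧ ∃ x₀ : ℕ, ∀ x : ℕ, x₀ ≤ x → ∀ T : Finset ℤ,
    T.card ≤ L → Adm T → (∀ t ∈ T, |t| ≤ (C * x : ℕ)) → ∀ X : ℕ, X ≤ x → c * gg T x ≤ VV (ZT T) 0 X := by
  have h := fun j : ℕ => VV_cmp j
  choose c₀ C₀ hc₀ hC₀ n₀ h₀ using h
  obtain ⟨c₁, hc₁, h₁⟩ : ∃ c₁ : ℝ, 0 < c₁ ∧ ∀ j ∈ range (L + 1), c₁ ≤ c₀ j := by
    have hne : (range (L + 1)).Nonempty := ⟨0, mem_range.2 (by omega)⟩
    exact ⟨(range (L + 1)).inf' hne c₀, (lt_inf'_iff hne).2 (fun j _ => hc₀ j), fun j hj => inf'_le _ hj⟩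
  refine ⟨c₁ / 2 ^ L, by positivity, max ((range (L + 1)).sup n₀) (max 3 C), ?_⟩
  intro x hx T hTL hT hTx X hX
  have hx1 : (range (L + 1)).sup n₀ ≤ x := (le_max_left _ _).trans hx
  have hx2 : 3 ≤ x := (le_max_left _ _).trans ((le_max_right _ _).trans hx)
  have hx3 : C ≤ x := (le_max_right _ _).trans ((le_max_right _ _).trans hx)
  have hTL' : T.card ∈ range (L + 1) := mem_range.2 (by omega)
  have hxC : x ≤ C * x := Nat.le_mul_of_pos_left _ hC
  have h2 := (h₀ T.card (C * x) ((le_sup hTL').trans (hx1.trans hxC)) T rfl hT (by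
    intro t ht
    exact hTx t ht)).1
  have h3 : VV (ZT T) 0 (C * x) ≤ VV (ZT T) 0 X :=
    VV_anti (hX.trans hxC) (fun p hp => ZT_lt (Pr_prime hp).pos)
  refine le_trans ?_ (h2.trans h3)
  have hlx : 0 < Real.log x := Real.log_pos (by exact_mod_cast (show 1 < x by omega))
  have hx0 : (0 : ℝ) < x := by exact_mod_cast (show 0 < x by omega)
  have hC0 : (0 : ℝ) < C := by exact_mod_cast hC
  have hlC : Real.log ((C * x : ℕ) : ℝ) ≤ 2 * Real.log x := by
    rw [Nat.cast_mul, Real.log_mul hC0.ne' hx0.ne', two_mul]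
    have : Real.log C ≤ Real.log x := Real.log_le_log hC0 (by exact_mod_cast hx3)
    linarith
  have hlC0 : 0 < Real.log ((C * x : ℕ) : ℝ) := Real.log_pos (by exact_mod_cast (show 1 < C * x by omega))
  have hS : 0 < Sing T := by
    obtain ⟨c, hc, h⟩ := Pool.Agent.Y843.AC.HL.Sing_low T.card
    exact lt_of_lt_of_le hc (h T rfl hT)
  unfold gg
  have h4 : Real.log ((C * x : ℕ) : ℝ) ^ T.card ≤ 2 ^ L * Real.log x ^ T.card := by
    calc Real.log ((C * x : ℕ) : ℝ) ^ T.card ≤ (2 * Real.log x) ^ T.card := pow_le_pow_left₀ hlC0.le hlC _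
      _ = 2 ^ T.card * Real.log x ^ T.card := mul_pow _ _ _
      _ ≤ 2 ^ L * Real.log x ^ T.card := by
          apply mul_le_mul_of_nonneg_right _ (by positivity)
          exact pow_le_pow_right₀ (by norm_num) hTL
  calc c₁ / 2 ^ L * (Sing T / Real.log x ^ T.card) = c₁ * (Sing T / (2 ^ L * Real.log x ^ T.card)) := by
        field_simp
    _ ≤ c₀ T.card * (Sing T / Real.log ((C * x : ℕ) : ℝ) ^ T.card) := by
        apply mul_le_mul (h₁ _ hTL') _ (by positivity) (hc₀ _).le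
        exact div_le_div_of_nonneg_left hS.le (by positivity) h4

theorem F_card {k : ℕ} {F : Finset (Fin m → ℕ)} (hF : ∀ f ∈ F, ∀ i, f i < k) : F.card ≤ k ^ m := by
  have h : F ⊆ Fintype.piFinset (fun _ : Fin m => range k) := by
    intro f hf
    rw [Fintype.mem_piFinset]
    exact fun i => mem_range.2 (hF f hf i)
  refine (card_le_card h).trans ?_
  rw [Fintype.card_piFinset, prod_const, card_range, card_univ, Fintype.card_fin]

/-- **patterns in sets of tuples** -/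
theorem tup (m k r u : ℕ) (hu : 1 ≤ u) {θ δ : ℝ} (hθ : 0 < θ) (hδ : 0 < δ) : ∃ c : ℝ, 0 < c ∧ ∃ B x₀ : ℕ,
    ∀ x : ℕ, x₀ ≤ x → ∀ T : Finset ℤ, Tup r x T → ∀ y X D : ℕ, (x : ℝ) ^ θ ≤ X → X ≤ x →
    Real.log x ^ B ≤ D → D ≤ X → ∀ S : Finset ℕ, S ⊆ Ioc y (y + X) → (∀ n ∈ S, Tp u x T n) →
    δ * (X * gg T x) ≤ (S.card : ℝ) →
    ∃ G ⊆ Fintype.piFinset (fun _ : Fin m => Icc 1 D), c * (D : ℝ) ^ m ≤ (G.card : ℝ) ∧ ∀ d ∈ G,
      ∀ F : Finset (Fin m → ℕ), (∀ f ∈ F, ∀ i, f i < k) → (fun _ => 0) ∈ F →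
      (TF T d F).card = r * F.card ∧ Adm (TF T d F) ∧
      c * (X * gg (TF T d F) x) ≤ ((S.filter (fun n => ∀ f ∈ F, n + ∑ i, f i * d i ∈ S)).card : ℝ) := by
  classical
  obtain ⟨u', hu', hsp⟩ := small_part r 0 u hu hθ
  obtain ⟨v, hv⟩ : ∃ v : ℕ, v = max 1 ⌈1 / θ⌉₊ := ⟨_, rfl⟩
  have hv1 : 1 ≤ v := by omega
  have hu0 : (0 : ℝ) < u' := by exact_mod_cast hu'
  have hv0 : (0 : ℝ) < v := by exact_mod_cast hv1
  obtain ⟨C₁, hC₁, n₁, h1⟩ := V_up r v hv1
  obtain ⟨c₂, hc₂, B, n₂, h2⟩ := genX m k r (κ := 1 / (u' : ℝ)) (δ := δ / (2 * C₁)) (by positivity)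
    (by rw [div_le_one hu0]; exact_mod_cast hu') (by positivity)
  obtain ⟨c₃, hc₃, n₃, h3⟩ := VV_low (r * k ^ m) (k * m + 1) (by omega)
  obtain ⟨n₄, h4⟩ := hsp (δ / 2) (by positivity)
  obtain ⟨n₅, h5⟩ := log_ge (max 1 (max (2 * ((k ^ m) ^ 2 * r ^ 2 : ℕ) / c₂) (Real.log (n₂ + r * k ^ m + 1 : ℕ) / θ)))
  refine ⟨min (c₂ / 2) (c₂ * c₃), lt_min (by positivity) (by positivity), max B 1,
    max (max n₁ n₃) (max (max n₄ n₅) 3), ?_⟩
  intro x hx T hT y X D hX hXx hBD hDX S hS hSp hSc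
  have e1 : n₁ ≤ x := by omega
  have e3 : n₃ ≤ x := by omega
  have e4 : n₄ ≤ x := by omega
  have e5 := h5 x (by omega)
  have e6 : 3 ≤ x := by omega
  have l1 : 1 ≤ Real.log x := (le_max_left _ _).trans e5
  have l2 : 2 * (((k ^ m) ^ 2 * r ^ 2 : ℕ) : ℝ) / c₂ ≤ Real.log x :=
    (le_max_left _ _).trans ((le_max_right _ _).trans e5)
  have l3 : Real.log (n₂ + r * k ^ m + 1 : ℕ) / θ ≤ Real.log x :=
    (le_max_right _ _).trans ((le_max_right _ _).trans e5)
  have hx0 : (0 : ℝ) < x := by exact_mod_cast (show 0 < x by omega)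
  have hx1 : (1 : ℝ) ≤ x := by exact_mod_cast (show 1 ≤ x by omega)
  have hXbig : n₂ + r * k ^ m + 1 ≤ X := by
    have h6 : ((n₂ + r * k ^ m + 1 : ℕ) : ℝ) ≤ (x : ℝ) ^ θ := by
      rw [Real.rpow_def_of_pos hx0, ← Real.log_le_iff_le_exp (by positivity)]
      rw [div_le_iff₀ hθ] at l3
      exact l3
    exact_mod_cast h6.trans hX
  have hX0 : (0 : ℝ) < X := by exact_mod_cast (show 0 < X by omega)
  have hX1 : (1 : ℝ) ≤ X := by exact_mod_cast (show 1 ≤ X by omega)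
  have hD1 : Real.log x ≤ D := by
    refine le_trans ?_ hBD
    exact le_self_pow₀ l1 (by omega)
  have hD0 : (0 : ℝ) < D := by linarith
  obtain ⟨S₁, S₂, s1, s2, s3, s4, -⟩ := h4 x e4 T hT y X hX S hS hSp
  have hcard : δ / 2 * (X * gg T x) ≤ (S₁.card : ℝ) := by
    have h6 : (S.card : ℝ) ≤ S₁.card + S₂.card := by
      exact_mod_cast (card_le_card s2).trans (card_union_le _ _)
    linarith
  have hV : VV (ZT T) 0 X ≤ C₁ * gg T x := by
    refine le_trans ?_ (h1 x e1 T hT)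
    refine VV_anti ?_ (fun p hp => ZT_lt (Pr_prime hp).pos)
    have h6 : (x : ℝ) ^ (1 / (v : ℝ)) ≤ X := by
      refine le_trans (Real.rpow_le_rpow_of_exponent_le hx1 ?_) hX
      rw [div_le_iff₀ hv0]
      have h7 : 1 / θ ≤ v := by
        rw [hv]
        exact (Nat.le_ceil _).trans (by exact_mod_cast le_max_right _ _)
      rw [div_le_iff₀ hθ] at h7
      linarith
    have := Nat.floor_le_floor h6
    rwa [Nat.floor_natCast] at this
  have hlX : Real.log X ≤ Real.log x := Real.log_le_log hX0 (by exact_mod_cast hXx)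
  have hlX0 : 0 ≤ Real.log X := Real.log_nonneg hX1
  obtain ⟨G₀, hG₀, hG1, hG2⟩ := h2 X y D (by omega) (by
      refine le_trans (pow_le_pow_left₀ hlX0 hlX B) (le_trans ?_ hBD)
      exact pow_le_pow_right₀ l1 (le_max_left _ _)) hDX (ZT T) (fun p hp _ => ZT_ok hT hp) S₁ (s1.trans hS) (by
      intro n hn p hp hpX hmem
      rw [mem_ZT hp.pos] at hmem
      obtain ⟨t, ht, hd⟩ := hmem
      refine s3 n hn p hp (hpX.trans ?_) t ht hd
      exact Real.rpow_le_rpow hX0.le (by exact_mod_cast hXx) (by positivity)) (by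
      calc δ / (2 * C₁) * (X * VV (ZT T) 0 X) ≤ δ / (2 * C₁) * (X * (C₁ * gg T x)) := by
            apply mul_le_mul_of_nonneg_left _ (by positivity)
            exact mul_le_mul_of_nonneg_left hV hX0.le
        _ = δ / 2 * (X * gg T x) := by field_simp
        _ ≤ _ := hcard)
  refine ⟨G₀.filter (fun d => ¬ Coin k T d), (filter_subset _ _).trans hG₀, ?_, ?_⟩
  · have h6 : (G₀.card : ℝ) ≤ (G₀.filter (fun d => ¬ Coin k T d)).card +
        ((Fintype.piFinset (fun _ : Fin m => Icc 1 D)).filter (fun d => Coin k T d)).card := by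
      have h7 : G₀ ⊆ G₀.filter (fun d => ¬ Coin k T d) ∪
          (Fintype.piFinset (fun _ : Fin m => Icc 1 D)).filter (fun d => Coin k T d) := by
        intro d hd
        rw [mem_union, mem_filter, mem_filter]
        by_cases h : Coin k T d
        · exact Or.inr ⟨hG₀ hd, h⟩
        · exact Or.inl ⟨hd, h⟩
      exact_mod_cast (card_le_card h7).trans (card_union_le _ _)
    have h7 : (((Fintype.piFinset (fun _ : Fin m => Icc 1 D)).filter (fun d => Coin k T d)).card : ℝ) * D ≤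
        ((k ^ m) ^ 2 * r ^ 2 : ℕ) * (D : ℝ) ^ m := by
      have := coin_few (m := m) k D T
      rw [hT.card] at this
      exact_mod_cast this
    have h8 : (((Fintype.piFinset (fun _ : Fin m => Icc 1 D)).filter (fun d => Coin k T d)).card : ℝ) ≤
        c₂ / 2 * (D : ℝ) ^ m := by
      have h9 : (((k ^ m) ^ 2 * r ^ 2 : ℕ) : ℝ) ≤ c₂ / 2 * D := by
        rw [div_le_iff₀ hc₂] at l2
        have h10 : Real.log x * c₂ ≤ D * c₂ := mul_le_mul_of_nonneg_right hD1 hc₂.le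
        linarith
      have h10 := h7.trans (mul_le_mul_of_nonneg_right h9 (by positivity : (0 : ℝ) ≤ (D : ℝ) ^ m))
      have h11 : c₂ / 2 * D * (D : ℝ) ^ m = c₂ / 2 * (D : ℝ) ^ m * D := by ring
      rw [h11] at h10
      exact le_of_mul_le_mul_right h10 hD0
    have h9 : min (c₂ / 2) (c₂ * c₃) * (D : ℝ) ^ m ≤ c₂ / 2 * (D : ℝ) ^ m :=
      mul_le_mul_of_nonneg_right (min_le_left _ _) (by positivity)
    linarith
  · intro d hd F hF h0
    rw [mem_filter] at hd
    obtain ⟨hp1, hp2, hp3⟩ := hG2 d hd.1 F hF h0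
    have hcF := F_card hF
    have hTc := TF_card (T := T) hF hd.2
    rw [hT.card] at hTc
    have hle : (TF T d F).card ≤ r * k ^ m := by
      rw [hTc]
      exact Nat.mul_le_mul_left _ hcF
    have hadm : Adm (TF T d F) := by
      intro q hq
      by_cases hqX : q ≤ X
      · have h6 := hp2 q hq hqX
        rw [← ZT_TF T d F hq.pos, card_ZT _ hq.pos] at h6
        exact h6
      · have h6 := Pool.Agent.Y843.AC.HL.nu_le (TF T d F) q
        omega
    refine ⟨hTc, hadm, ?_⟩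
    have hVe : VV (ZP (ZT T) d F) 0 X = VV (ZT (TF T d F)) 0 X := by
      unfold VV
      apply prod_congr rfl
      intro p hp
      rw [ZT_TF T d F (Pr_prime hp).pos]
    have hsz : ∀ t ∈ TF T d F, |t| ≤ (((k * m + 1) * x : ℕ) : ℤ) := by
      intro w hw
      obtain ⟨t, ht, f, hf, rfl⟩ := mem_TF.1 hw
      have h6 := hT.size t ht
      have h7 : ∑ i, f i * d i ≤ k * m * x := by
        calc ∑ i, f i * d i ≤ ∑ _i : Fin m, k * x := by
              apply sum_le_sum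
              intro i _
              have h8 := hG₀ hd.1
              rw [Fintype.mem_piFinset] at h8
              have h9 := mem_Icc.1 (h8 i)
              exact Nat.mul_le_mul (hF f hf i).le (h9.2.trans (hDX.trans hXx))
          _ = k * m * x := by rw [sum_const, card_univ, Fintype.card_fin, smul_eq_mul]; ring
      have h8 : ((∑ i, f i * d i : ℕ) : ℤ) ≤ ((k * m * x : ℕ) : ℤ) := by exact_mod_cast h7
      have h9 : (((k * m + 1) * x : ℕ) : ℤ) = ((k * m * x : ℕ) : ℤ) + x := by push_cast; ring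
      rw [h9]
      have h10 : (0 : ℤ) ≤ ((∑ i, f i * d i : ℕ) : ℤ) := Int.natCast_nonneg _
      rw [abs_le] at h6 ⊢
      constructor
      · have h11 : (0 : ℤ) ≤ ((k * m * x : ℕ) : ℤ) := Int.natCast_nonneg _
        linarith [h6.1]
      · linarith [h6.2]
    have h6 := h3 x e3 (TF T d F) hle hadm hsz X hXx
    have hgg : 0 ≤ gg (TF T d F) x := by
      obtain ⟨c, hc, h⟩ := Pool.Agent.Y843.AC.HL.Sing_low (TF T d F).card
      have h7 : 0 < Sing (TF T d F) := lt_of_lt_of_le hc (h _ rfl hadm)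
      unfold gg
      positivity
    have h7 : min (c₂ / 2) (c₂ * c₃) * (X * gg (TF T d F) x) ≤ c₂ * (X * VV (ZP (ZT T) d F) 0 X) := by
      calc min (c₂ / 2) (c₂ * c₃) * (X * gg (TF T d F) x) ≤ c₂ * c₃ * (X * gg (TF T d F) x) :=
            mul_le_mul_of_nonneg_right (min_le_right _ _) (by positivity)
        _ = c₂ * (X * (c₃ * gg (TF T d F) x)) := by ring
        _ ≤ c₂ * (X * VV (ZP (ZT T) d F) 0 X) := by
            apply mul_le_mul_of_nonneg_left _ hc₂.le
            apply mul_le_mul_of_nonneg_left _ hX0.le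
            rw [hVe]
            exact h6
    refine h7.trans (hp3.trans ?_)
    have h8 : S₁.filter (fun n => ∀ f ∈ F, n + ∑ i, f i * d i ∈ S₁) ⊆
        S.filter (fun n => ∀ f ∈ F, n + ∑ i, f i * d i ∈ S) := by
      intro n hn
      rw [mem_filter] at hn ⊢
      exact ⟨s1 hn.1, fun f hf => s1 (hn.2 f hf)⟩
    exact_mod_cast card_le_card h8

end Pool.Agent.X26.GP
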