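import Pool.Agent.X26.GP.Poly

/-!
# All patterns in a common generalised progression: prime values of systems of polynomials
-/

set_option autoImplicit false

namespace Pool.Agent.X26.GP

open Finset
open Pool.Agent.Y843.HS
open Pool.Agent.Y843.AC (OK Av)

/-- lower bound for the product -/
theorem VV_low (r : ℕ) : ∃ c : ℝ, 0 < c ∧ ∃ X₀ : ℕ, ∀ X : ℕ, X₀ ≤ X → ∀ Z : ℕ → Finset ℕ, OK r 1 X Z →
    c / Real.log X ^ (2 * r) ≤ VV Z 0 X := by
  obtain ⟨cM, hcM1, hcM⟩ := EE_log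
  obtain ⟨s, hs⟩ : ∃ s : ℕ, s = 2 * r + 3 := ⟨_, rfl⟩
  obtain ⟨W, hW⟩ : ∃ W : ℝ, W = ∏ p ∈ Pr 0 s, (1 / (p : ℝ)) := ⟨_, rfl⟩
  have hW0 : 0 < W := by
    rw [hW]
    apply prod_pos
    intro p hp
    have : (0 : ℝ) < p := by exact_mod_cast (Pr_prime hp).pos
    positivity
  refine ⟨W / cM ^ (2 * r), by positivity, s + 1, ?_⟩
  intro X hX Z hZ
  have hX0 : (0 : ℝ) < X := by exact_mod_cast (show 0 < X by omega)
  have hmem : ∀ p ∈ Pr 0 X, (Z p).card ≤ r ∧ (Z p).card < p ∧ ∀ c ∈ Z p, c < p := by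
    intro p hp
    rw [Pr_mem] at hp
    apply hZ p hp.2
    rw [Real.rpow_one]
    exact_mod_cast hp.1.2
  rw [← VV_split Z (Nat.zero_le s) (show s ≤ X by omega)]
  have h1 : W ≤ VV Z 0 s := by
    rw [hW]
    unfold VV
    apply prod_le_prod
    · intro p _
      positivity
    · intro p hp
      have hp' := Pr_mem.1 hp
      have hp0 : (0 : ℝ) < p := by exact_mod_cast hp'.2.pos
      have h4 := (hmem p (Pr_mem.2 ⟨⟨hp'.1.1, by omega⟩, hp'.2⟩)).2.1
      have h5 : ((Z p).card : ℝ) + 1 ≤ p := by exact_mod_cast h4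
      have h6 : (1 - ((Z p).card : ℝ) / p) = (p - (Z p).card) / p := by
        field_simp
      rw [h6]
      apply div_le_div_of_nonneg_right _ hp0.le
      linarith
  have h2 : 1 / (cM * Real.log X) ^ (2 * r) ≤ VV Z s X := by
    have hSv : Sv r s X Z := by
      intro p hp
      have hp' := Pr_mem.1 hp
      have := hmem p (Pr_mem.2 ⟨⟨by omega, hp'.1.2⟩, hp'.2⟩)
      exact ⟨this.1, this.2.2⟩
    refine le_trans ?_ (VV_ge (by omega) hSv)
    have h1 := hcM s X (by omega) (by omega)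
    have h2 := one_le_EE s X
    apply one_div_le_one_div_of_le (by positivity)
    exact pow_le_pow_left₀ (by positivity) h1 _
  calc W / cM ^ (2 * r) / Real.log X ^ (2 * r) = W * (1 / (cM * Real.log X) ^ (2 * r)) := by
        rw [mul_pow]
        ring
    _ ≤ _ := by
        apply mul_le_mul h1 h2 _ (hW0.le.trans h1)
        have : 0 ≤ Real.log X := Real.log_natCast_nonneg X
        positivity

/-- small values -/
theorem small_values {f : Polynomial ℤ} (hf : 0 < f.natDegree) (S : Finset ℕ) (M : ℕ) :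
    (S.filter (fun n : ℕ => (f.eval (n : ℤ)).natAbs ≤ M)).card ≤ (2 * M + 1) * f.natDegree := by
  classical
  have h1 : ∀ n ∈ S.filter (fun n : ℕ => (f.eval (n : ℤ)).natAbs ≤ M), f.eval (n : ℤ) ∈ Icc (-(M : ℤ)) M := by
    intro n hn
    rw [mem_filter] at hn
    rw [mem_Icc]
    constructor <;> omega
  rw [card_eq_sum_card_fiberwise h1]
  have h2 : ∀ v ∈ Icc (-(M : ℤ)) M,
      ((S.filter (fun n : ℕ => (f.eval (n : ℤ)).natAbs ≤ M)).filter (fun n : ℕ => f.eval (n : ℤ) = v)).card ≤ f.natDegree := by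
    intro v _
    have h0 : f - Polynomial.C v ≠ 0 := by
      intro h
      rw [sub_eq_zero] at h
      rw [h, Polynomial.natDegree_C] at hf
      exact lt_irrefl _ hf
    have h3 : ((S.filter (fun n : ℕ => (f.eval (n : ℤ)).natAbs ≤ M)).filter (fun n : ℕ => f.eval (n : ℤ) = v)).card ≤
        (f - Polynomial.C v).roots.toFinset.card := by
      apply card_le_card_of_injOn (f := fun n : ℕ => (n : ℤ))
      · intro n hn
        rw [mem_coe, mem_filter] at hn
        rw [mem_coe, Multiset.mem_toFinset, Polynomial.mem_roots h0]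
        show (f - Polynomial.C v).eval _ = 0
        rw [Polynomial.eval_sub, Polynomial.eval_C, hn.2, sub_self]
      · intro n _ n' _ h
        exact Nat.cast_injective h
    refine h3.trans ((Multiset.toFinset_card_le _).trans ((Polynomial.card_roots' _).trans ?_))
    rw [Polynomial.natDegree_sub_C]
  refine (sum_le_sum h2).trans (le_of_eq ?_)
  rw [sum_const, smul_eq_mul, Int.card_Icc]
  congr 1
  omega

/-- **all patterns in a common generalised progression, for prime values of systems of polynomials** -/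
theorem sys (m k r : ℕ) {δ : ℝ} (hδ : 0 < δ) : ∃ c : ℝ, 0 < c ∧ ∃ B X₀ : ℕ,
    ∀ X A D : ℕ, X₀ ≤ X → Real.log X ^ B ≤ D → D ≤ X → ∀ (s : ℕ) (f : Fin s → Polynomial ℤ),
    (∏ i, f i).natDegree ≤ r → NF (∏ i, f i) →
    ∀ S : Finset ℕ, S ⊆ Ioc A (A + X) → (∀ n ∈ S, ∀ i, ((f i).eval (n : ℤ)).natAbs.Prime) →
    δ * (X * PX (fun q => (Zf (∏ i, f i) q).card) X) ≤ (S.card : ℝ) →
    ∃ G ⊆ Fintype.piFinset (fun _ : Fin m => Icc 1 D), c * (D : ℝ) ^ m ≤ (G.card : ℝ) ∧ ∀ d ∈ G,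
      ∀ F : Finset (Fin m → ℕ), (∀ g ∈ F, ∀ i, g i < k) → (fun _ => 0) ∈ F →
      (pat d F).card = F.card ∧ (∀ q : ℕ, q.Prime → om (∏ i, f i) d F q < q) ∧
      c * (X * PX (om (∏ i, f i) d F) X) ≤ ((S.filter (fun n => ∀ g ∈ F, n + ∑ i, g i * d i ∈ S)).card : ℝ) := by
  classical
  obtain ⟨c, hc, B, X₁, hP⟩ := poly m k r (show (0 : ℝ) < 1 / 2 by norm_num) (by norm_num)
    (show (0 : ℝ) < δ / 2 by positivity)
  obtain ⟨cV, hcV, X₂, hV⟩ := VV_low r
  obtain ⟨X₃, hX₃⟩ := log_pow_le (4 * r) ((6 * r / (δ * cV)) ^ 2)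
  obtain ⟨X₄, hX₄⟩ := log_ge 1
  refine ⟨c, hc, B, max (max X₁ X₂) (max X₃ (max X₄ 1)), ?_⟩
  intro X A D hX hBD hDX s f hfr hf S hSA hSP hSc
  have hX1 : X₁ ≤ X := (le_max_left _ _).trans ((le_max_left _ _).trans hX)
  have hX2 : X₂ ≤ X := (le_max_right _ _).trans ((le_max_left _ _).trans hX)
  have hX' := (le_max_right _ _).trans hX
  have hX3 := hX₃ X ((le_max_left _ _).trans hX')
  have hX4 := hX₄ X ((le_max_left _ _).trans ((le_max_right _ _).trans hX'))
  have hX5 : 1 ≤ X := (le_max_right _ _).trans ((le_max_right _ _).trans hX')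
  have hX0 : (0 : ℝ) < X := by exact_mod_cast hX5
  obtain ⟨M, hM⟩ : ∃ M : ℕ, M = ⌊(X : ℝ) ^ (1 / 2 : ℝ)⌋₊ := ⟨_, rfl⟩
  have hMX : (M : ℝ) ≤ Real.sqrt X := by
    rw [hM, Real.sqrt_eq_rpow]
    exact Nat.floor_le (by positivity)
  have hsq1 : 1 ≤ Real.sqrt X := by
    rw [Real.one_le_sqrt]
    exact_mod_cast hX5
  have hprod : ∀ n : ℕ, (∏ i, f i).eval (n : ℤ) = ∏ i, (f i).eval (n : ℤ) := fun n => Polynomial.eval_prod _ _ _
  have hne : ∏ i, f i ≠ 0 := by
    intro h0
    obtain ⟨n, hn⟩ := hf 2 Nat.prime_two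
    apply hn
    rw [h0, Polynomial.eval_zero]
    exact dvd_zero _
  have hdeg : ∑ i, (f i).natDegree ≤ r := by
    rw [← Polynomial.natDegree_prod univ f (fun i _ => (prod_ne_zero_iff.1 hne) i (mem_univ i))]
    exact hfr
  -- the exceptional elements
  set S' := S.filter (fun n : ℕ => ∀ i, M < ((f i).eval (n : ℤ)).natAbs) with hS'
  have hfew : (S.card : ℝ) ≤ S'.card + 3 * r * Real.sqrt X := by
    rcases S.eq_empty_or_nonempty with hS0 | ⟨n₀, hn₀⟩
    · rw [hS0, card_empty]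
      push_cast
      positivity
    · have hpos : ∀ i, 0 < (f i).natDegree := by
        intro i
        by_contra hcon
        have h0 : (f i).natDegree = 0 := by omega
        obtain ⟨a, ha⟩ : ∃ a, f i = Polynomial.C a := ⟨_, Polynomial.eq_C_of_natDegree_eq_zero h0⟩
        have h1 := hSP n₀ hn₀ i
        rw [ha, Polynomial.eval_C] at h1
        obtain ⟨n, hn⟩ := hf a.natAbs h1
        apply hn
        rw [Polynomial.eval_prod]
        apply dvd_trans _ (dvd_prod_of_mem _ (mem_univ i))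
        rw [ha, Polynomial.eval_C]
        exact Int.natAbs_dvd.2 dvd_rfl
      have h1 : S ⊆ S' ∪ (univ : Finset (Fin s)).biUnion (fun i => S.filter (fun n : ℕ => ((f i).eval (n : ℤ)).natAbs ≤ M)) := by
        intro n hn
        rw [mem_union, hS', mem_filter, mem_biUnion]
        by_cases h : ∀ i, M < ((f i).eval (n : ℤ)).natAbs
        · exact Or.inl ⟨hn, h⟩
        · push Not at h
          obtain ⟨i, hi⟩ := h
          exact Or.inr ⟨i, mem_univ _, mem_filter.2 ⟨hn, hi⟩⟩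
      have h2 := (card_le_card h1).trans ((card_union_le _ _).trans (Nat.add_le_add_left card_biUnion_le _))
      have h3 : ∑ i, (S.filter (fun n : ℕ => ((f i).eval (n : ℤ)).natAbs ≤ M)).card ≤ (2 * M + 1) * r := by
        refine (sum_le_sum fun i _ => small_values (hpos i) S M).trans ?_
        rw [← mul_sum]
        exact Nat.mul_le_mul_left _ hdeg
      have h4 : S.card ≤ S'.card + (2 * M + 1) * r := h2.trans (Nat.add_le_add_left h3 _)
      have h5 : (S.card : ℝ) ≤ S'.card + (2 * M + 1) * r := by exact_mod_cast h4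
      refine h5.trans ?_
      have h6 : (2 * (M : ℝ) + 1) * r ≤ (3 * Real.sqrt X) * r :=
        mul_le_mul_of_nonneg_right (by linarith) (Nat.cast_nonneg _)
      linarith
  have hPX : VV (Zf (∏ i, f i)) 0 X = PX (fun q => (Zf (∏ i, f i) q).card) X := PX_eq _ _ (fun _ _ => rfl) X
  have hlow := hV X hX2 (Zf (∏ i, f i)) (OK_Zf hf hfr 1 X)
  rw [hPX] at hlow
  have hl0 : 0 < Real.log X ^ (2 * r) := by positivity
  have herr : 3 * r * Real.sqrt X ≤ δ / 2 * (X * PX (fun q => (Zf (∏ i, f i) q).card) X) := by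
    have h1 : 6 * r / (δ * cV) * Real.log X ^ (2 * r) ≤ Real.sqrt X := by
      apply Real.le_sqrt_of_sq_le
      refine le_trans (le_of_eq ?_) hX3
      rw [mul_pow, ← pow_mul]
      congr 2
      ring
    have h2 : 6 * r * Real.log X ^ (2 * r) ≤ δ * cV * Real.sqrt X := by
      rw [div_mul_eq_mul_div, div_le_iff₀ (by positivity)] at h1
      linarith
    have h3 : 6 * r ≤ δ * Real.sqrt X * (cV / Real.log X ^ (2 * r)) := by
      rw [← mul_div_assoc, le_div_iff₀ hl0]
      linarith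
    have h4 : 6 * (r : ℝ) ≤ δ * Real.sqrt X * PX (fun q => (Zf (∏ i, f i) q).card) X :=
      h3.trans (mul_le_mul_of_nonneg_left hlow (by positivity))
    have h5 := mul_le_mul_of_nonneg_right h4 (Real.sqrt_nonneg (X : ℝ))
    have h6 : δ * Real.sqrt X * PX (fun q => (Zf (∏ i, f i) q).card) X * Real.sqrt X =
        δ * ((Real.sqrt X * Real.sqrt X) * PX (fun q => (Zf (∏ i, f i) q).card) X) := by ring
    rw [h6, Real.mul_self_sqrt hX0.le] at h5
    linarith
  have hS'c : δ / 2 * (X * PX (fun q => (Zf (∏ i, f i) q).card) X) ≤ (S'.card : ℝ) := by linarith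
  obtain ⟨G, hG1, hG2, hG3⟩ := hP X A D hX1 hBD hDX (∏ i, f i) hfr hf S' ((filter_subset _ _).trans hSA) (by
    intro n hn q hq hqX hdvd
    rw [hS', mem_filter] at hn
    rw [hprod, (Nat.prime_iff_prime_int.1 hq).dvd_finsetProd_iff] at hdvd
    obtain ⟨i, _, hi⟩ := hdvd
    have h1 := hSP n hn.1 i
    have h2 : q ∣ ((f i).eval (n : ℤ)).natAbs := Int.natCast_dvd.1 hi
    have h3 := (Nat.prime_dvd_prime_iff_eq hq h1).1 h2
    have h4 := hn.2 i
    rw [← h3, hM] at h4
    have h5 : q ≤ ⌊(X : ℝ) ^ (1 / 2 : ℝ)⌋₊ := Nat.le_floor hqX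
    omega) hS'c
  refine ⟨G, hG1, hG2, fun d hd F hF h0 => ?_⟩
  obtain ⟨g1, g2, g3⟩ := hG3 d hd F hF h0
  refine ⟨g1, g2, g3.trans ?_⟩
  apply Nat.cast_le.2
  apply card_le_card
  intro n hn
  rw [mem_filter] at hn ⊢
  exact ⟨(filter_subset _ _) hn.1, fun g hg => (filter_subset _ _) (hn.2 g hg)⟩

end Pool.Agent.X26.GP
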