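import Pool.Agent.X26.GP.Pri
import Pool.Agent.X26.DP.Sg

/-!
# All patterns in a common generalised progression: the singular series
-/

set_option autoImplicit false

namespace Pool.Agent.X26.GP

open Finset
open Pool.Agent.Y843.HS
open Pool.Agent.Y843.AC.HL (Sing_cmp loc_good loc_bad loc_pos)
open Pool.Agent.X26.DP (Z0 nuN locN SN ci ci_card ci_nu ci_loc ci_Sing ci_adm SN_pos loc_any)

variable {m k : ℕ}

/-- the pattern -/
def pt (d : Fin m → ℕ) (F : Finset (Bx m k)) : Finset ℕ := F.image (fun p => bn p d)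

theorem pt_card {d : Fin m → ℕ} (hinj : ∀ p q : Bx m k, p ≠ q → bn p d ≠ bn q d) (F : Finset (Bx m k)) :
    (pt d F).card = F.card := by
  unfold pt
  apply card_image_of_injOn
  intro p _ q _ h
  by_contra hcon
  exact hinj p q hcon h

theorem pt_nu_good {d : Fin m → ℕ} {F : Finset (Bx m k)} {q : ℕ}
    (h : ∀ u ∈ F, ∀ v ∈ F, u ≠ v → ¬ (q : ℤ) ∣ (bn u d : ℤ) - bn v d) : nuN (pt d F) q = F.card := by
  unfold nuN pt
  rw [image_image]
  apply card_image_of_injOn
  intro u hu v hv huv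
  simp only [Function.comp] at huv
  by_contra hcon
  apply h u hu v hv hcon
  have h1 : bn v d ≡ bn u d [MOD q] := huv.symm
  exact (Nat.modEq_iff_dvd.1 h1)

open Classical in
theorem Gd_Z0' (K s R : ℕ) (h : ℤ) : Gd K Z0 s R h =
    ∏ p ∈ (Pr s R).filter (fun p : ℕ => (p : ℤ) ∣ h), (1 + (K : ℝ) / p) := by
  unfold Gd
  apply prod_congr _ (fun _ _ => rfl)
  ext p
  rw [mem_filter, mem_filter]
  constructor
  · rintro ⟨h1, c, hc, c', hc', h2⟩
    unfold Z0 at hc hc'
    rw [mem_singleton] at hc hc'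
    subst hc
    subst hc'
    refine ⟨h1, ?_⟩
    simpa using h2
  · rintro ⟨h1, h2⟩
    refine ⟨h1, 0, by unfold Z0; simp, 0, by unfold Z0; simp, ?_⟩
    simpa using h2

/-- the singular series of a pattern -/
theorem SN_pt {K s x : ℕ} (hK : K = k ^ m) (hx2 : 2 ≤ x) {d : Fin m → ℕ}
    (hinj : ∀ p q : Bx m k, p ≠ q → bn p d ≠ bn q d) (hx : ∀ p : Bx m k, bn p d ≤ x)
    {F : Finset (Bx m k)} (hadm : ∀ p : ℕ, p.Prime → nuN (pt d F) p < p) :
    SN (pt d F) ≤ (2 : ℝ) ^ (K * K ^ 2) * (2 ^ K) ^ s *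
      ∏ l ∈ (univ : Finset (Bx m k)).offDiag, Gd (K * 2 * (1 + 2) ^ K) Z0 s x ((bn l.1 d : ℤ) - bn l.2 d) := by
  classical
  have hFk : F.card ≤ K := by
    have := card_le_univ F
    rwa [Fintype.card_fun, Fintype.card_fin, Fintype.card_fin, ← hK] at this
  have hcard : (ci (pt d F)).card = F.card := by rw [ci_card, pt_card hinj]
  have h1 := (Sing_cmp (ci_adm hadm) (x := x)).2 hx2 (by
    intro t ht
    unfold ci pt at ht
    rw [mem_image] at ht
    obtain ⟨u, hu, rfl⟩ := ht
    rw [mem_image] at hu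
    obtain ⟨p, _, rfl⟩ := hu
    rw [abs_of_nonneg (by positivity)]
    exact_mod_cast hx p)
  rw [ci_Sing, hcard] at h1
  simp only [ci_loc] at h1
  refine h1.trans ?_
  rw [mul_assoc]
  have hpos : ∀ p ∈ Pr 0 x, 0 < locN (pt d F) p := by
    intro p hp
    rw [← ci_loc]
    exact loc_pos (ci_adm hadm) (Pr_prime hp)
  apply mul_le_mul
  · apply pow_le_pow_right₀ (by norm_num)
    exact Nat.mul_le_mul hFk (Nat.pow_le_pow_left hFk 2)
  · rw [← prod_filter_mul_prod_filter_not (Pr 0 x) (fun p => p ≤ s)]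
    apply mul_le_mul
    · calc ∏ p ∈ (Pr 0 x).filter (fun p => p ≤ s), locN (pt d F) p
          ≤ ∏ _p ∈ (Pr 0 x).filter (fun p => p ≤ s), (2 : ℝ) ^ K := by
            apply prod_le_prod
            · intro p hp
              exact (hpos p (mem_filter.1 hp).1).le
            · intro p hp
              have h2 := loc_bad (T := ci (pt d F)) (Pr_prime (mem_filter.1 hp).1)
              rw [ci_loc, hcard] at h2
              exact h2.trans (pow_le_pow_right₀ (by norm_num) hFk)
        _ = ((2 : ℝ) ^ K) ^ ((Pr 0 x).filter (fun p => p ≤ s)).card := by rw [prod_const]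
        _ ≤ ((2 : ℝ) ^ K) ^ s := by
            apply pow_le_pow_right₀ (one_le_pow₀ (by norm_num))
            have h2 : (Pr 0 x).filter (fun p => p ≤ s) ⊆ Icc 1 s := by
              intro p hp
              rw [mem_filter, Pr_mem] at hp
              rw [mem_Icc]
              omega
            have h3 := card_le_card h2
            rwa [Nat.card_Icc, Nat.add_sub_cancel] at h3
    · obtain ⟨Q, hQ⟩ : ∃ Q : ℕ → Prop, Q = fun p : ℕ => ∃ l ∈ (univ : Finset (Bx m k)).offDiag,
        (p : ℤ) ∣ (bn l.1 d : ℤ) - bn l.2 d := ⟨_, rfl⟩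
      rw [← prod_filter_mul_prod_filter_not ((Pr 0 x).filter (fun p => ¬ p ≤ s)) Q]
      have h2 : ∏ p ∈ ((Pr 0 x).filter (fun p => ¬ p ≤ s)).filter (fun p => ¬ Q p), locN (pt d F) p ≤ 1 := by
        apply prod_le_one
        · intro p hp
          exact (hpos p (mem_filter.1 (mem_filter.1 hp).1).1).le
        · intro p hp
          rw [mem_filter, mem_filter] at hp
          have h3 := loc_good (T := ci (pt d F)) (Pr_prime hp.1.1) (by
            rw [ci_nu, hcard]
            apply pt_nu_good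
            intro u _ v _ huv hdvd
            apply hp.2
            rw [hQ]
            exact ⟨(u, v), by simpa using huv, hdvd⟩)
          rw [ci_loc] at h3
          exact h3
      have h3 : ∏ p ∈ ((Pr 0 x).filter (fun p => ¬ p ≤ s)).filter Q, locN (pt d F) p ≤
          ∏ l ∈ (univ : Finset (Bx m k)).offDiag, Gd (K * 2 * (1 + 2) ^ K) Z0 s x ((bn l.1 d : ℤ) - bn l.2 d) := by
        calc ∏ p ∈ ((Pr 0 x).filter (fun p => ¬ p ≤ s)).filter Q, locN (pt d F) p
            ≤ ∏ p ∈ ((Pr 0 x).filter (fun p => ¬ p ≤ s)).filter Q,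
              (1 + ((K * 2 * (1 + 2) ^ K : ℕ) : ℝ) / p) := by
              apply prod_le_prod
              · intro p hp
                exact (hpos p (mem_filter.1 (mem_filter.1 hp).1).1).le
              · intro p hp
                have hpp := Pr_prime (mem_filter.1 (mem_filter.1 hp).1).1
                refine (loc_any hpp).trans ?_
                rw [pt_card hinj]
                have h4 : (1 + 2 / (p : ℝ)) ^ F.card ≤ (1 + 2 / (p : ℝ)) ^ K := by
                  apply pow_le_pow_right₀ _ hFk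
                  have : (0 : ℝ) ≤ 2 / (p : ℝ) := by positivity
                  linarith
                refine h4.trans ?_
                have h5 := pow_fac_le 2 K p hpp.one_lt.le
                push_cast at h5 ⊢
                exact h5
          _ ≤ ∏ p ∈ (univ : Finset (Bx m k)).offDiag.biUnion (fun l =>
                (Pr s x).filter (fun p : ℕ => (p : ℤ) ∣ (bn l.1 d : ℤ) - bn l.2 d)),
              (1 + ((K * 2 * (1 + 2) ^ K : ℕ) : ℝ) / p) := by
              apply prod_fac_mono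
              intro p hp
              rw [mem_filter, mem_filter, Pr_mem, hQ] at hp
              obtain ⟨⟨⟨⟨hp1, hp2⟩, hp3⟩, hp4⟩, l, hl, hp5⟩ := hp
              rw [mem_biUnion]
              refine ⟨l, hl, ?_⟩
              rw [mem_filter, Pr_mem]
              exact ⟨⟨⟨by omega, hp2⟩, hp3⟩, hp5⟩
          _ ≤ ∏ l ∈ (univ : Finset (Bx m k)).offDiag, ∏ p ∈ (Pr s x).filter (fun p : ℕ =>
                (p : ℤ) ∣ (bn l.1 d : ℤ) - bn l.2 d), (1 + ((K * 2 * (1 + 2) ^ K : ℕ) : ℝ) / p) :=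
              prod_biUnion_le _ _ _
          _ = _ := by
              apply prod_congr rfl
              intro l _
              rw [Gd_Z0']
      calc _ ≤ (∏ l ∈ (univ : Finset (Bx m k)).offDiag,
              Gd (K * 2 * (1 + 2) ^ K) Z0 s x ((bn l.1 d : ℤ) - bn l.2 d)) * 1 := by
            apply mul_le_mul h3 h2
            · apply prod_nonneg
              intro p hp
              exact (hpos p (mem_filter.1 (mem_filter.1 hp).1).1).le
            · exact prod_nonneg fun l _ => zero_le_one.trans (one_le_Gd _ _)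
        _ = _ := mul_one _
    · apply prod_nonneg
      intro p hp
      exact (hpos p (mem_filter.1 hp).1).le
    · positivity
  · apply prod_nonneg
    intro p hp
    exact (hpos p hp).le
  · positivity

theorem bn_le {D : ℕ} {d : Fin m → ℕ} (hd : d ∈ Fintype.piFinset (fun _ : Fin m => Icc 1 D)) (p : Bx m k) :
    bn p d ≤ k * m * D := by
  rw [Fintype.mem_piFinset] at hd
  unfold bn
  calc ∑ i, (p i : ℕ) * d i ≤ ∑ _i : Fin m, k * D := by
        apply sum_le_sum
        intro i _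
        exact Nat.mul_le_mul (p i).2.le (mem_Icc.1 (hd i)).2
    _ = k * m * D := by rw [sum_const, card_univ, Fintype.card_fin, smul_eq_mul]; ring

/-- a difference is taken few times -/
theorem fib {p q : Bx m k} (hpq : p ≠ q) (D : ℕ) (h : ℤ) :
    ((Fintype.piFinset (fun _ : Fin m => Icc 1 D)).filter (fun d => (bn p d : ℤ) - bn q d = h)).card * D ≤ D ^ m := by
  classical
  obtain ⟨i, hi⟩ : ∃ i, p i ≠ q i := by
    by_contra hcon
    push Not at hcon
    exact hpq (funext hcon)
  have h1 : (((Fintype.piFinset (fun _ : Fin m => Icc 1 D)).filter (fun d => (bn p d : ℤ) - bn q d = h)) ×ˢ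
      Icc 1 D).card ≤ (Fintype.piFinset (fun _ : Fin m => Icc 1 D)).card := by
    apply card_le_card_of_injOn (fun z => Function.update z.1 i z.2)
    · intro z hz
      rw [mem_coe, mem_product, mem_filter, Fintype.mem_piFinset] at hz
      rw [mem_coe, Fintype.mem_piFinset]
      intro l
      show Function.update z.1 i z.2 l ∈ Icc 1 D
      by_cases hl : l = i
      · subst hl
        rw [Function.update_self]
        exact hz.2
      · rw [Function.update_of_ne hl]
        exact hz.1.1 l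
    · intro z hz z' hz' hzz
      rw [mem_coe, mem_product, mem_filter] at hz hz'
      have e1 := congrFun hzz i
      simp only [Function.update_self] at e1
      have e2 : ∀ l, l ≠ i → z.1 l = z'.1 l := by
        intro l hl
        have := congrFun hzz l
        simpa only [Function.update_of_ne hl] using this
      refine Prod.ext ?_ e1
      funext l
      by_cases hl : l = i
      · subst hl
        have e3 := hz.1.2
        have e4 := hz'.1.2
        have e5 : ∀ z : Fin m → ℕ, (bn p z : ℤ) - bn q z = (((p l : ℕ) : ℤ) - ((q l : ℕ) : ℤ)) * z l +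
            ∑ j ∈ univ.erase l, (((p j : ℕ) : ℤ) - ((q j : ℕ) : ℤ)) * z j := by
          intro z
          unfold bn
          push_cast
          rw [← sum_sub_distrib, ← add_sum_erase univ _ (mem_univ l)]
          congr 1
          · ring
          · apply sum_congr rfl
            intro j _
            ring
        rw [e5] at e3 e4
        have e6 : ∑ j ∈ univ.erase l, (((p j : ℕ) : ℤ) - ((q j : ℕ) : ℤ)) * z.1 j =
            ∑ j ∈ univ.erase l, (((p j : ℕ) : ℤ) - ((q j : ℕ) : ℤ)) * z'.1 j := by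
          apply sum_congr rfl
          intro j hj
          rw [e2 j (mem_erase.1 hj).1]
        rw [e6] at e3
        have e7 : (((p l : ℕ) : ℤ) - ((q l : ℕ) : ℤ)) * z.1 l = (((p l : ℕ) : ℤ) - ((q l : ℕ) : ℤ)) * z'.1 l := by
          linarith
        have e8 : (((p l : ℕ) : ℤ) - ((q l : ℕ) : ℤ)) ≠ 0 := by
          intro h0
          apply hi
          apply Fin.ext
          omega
        have e9 := mul_left_cancel₀ e8 e7
        exact_mod_cast e9
      · exact e2 l hl
  rw [card_product, Nat.card_Icc, Nat.add_sub_cancel, Fintype.card_piFinset] at h1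
  simpa using h1

/-- the difference is rarely one for which `Gd` is large -/
theorem few_Gd {p q : Bx m k} (hpq : p ≠ q) {C s R D N' : ℕ} (hD : 1 ≤ D) (hN' : k * m * D < N') {ε : ℝ}
    (h : (∑ h ∈ Ioo (-(N' : ℤ)) N', (Gd C Z0 s R h - 1)) ≤ ε) :
    (((Fintype.piFinset (fun _ : Fin m => Icc 1 D)).filter
      (fun d => 2 < Gd C Z0 s R ((bn p d : ℤ) - bn q d))).card : ℝ) * D ≤ ε * (D : ℝ) ^ m := by
  classical
  set U := Fintype.piFinset (fun _ : Fin m => Icc 1 D) with hU
  have hD0 : (0 : ℝ) < D := by exact_mod_cast hD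
  have hmem : ∀ d ∈ U, ((bn p d : ℤ) - bn q d) ∈ Ioo (-(N' : ℤ)) N' := by
    intro d hd
    have h1 := bn_le hd p
    have h2 := bn_le hd q
    rw [mem_Ioo]
    constructor <;> omega
  have h3 : ((U.filter (fun d => 2 < Gd C Z0 s R ((bn p d : ℤ) - bn q d))).card : ℝ) ≤
      ∑ d ∈ U, (Gd C Z0 s R ((bn p d : ℤ) - bn q d) - 1) := by
    rw [card_eq_sum_ones, Nat.cast_sum]
    refine le_trans (sum_le_sum (g := fun d => Gd C Z0 s R ((bn p d : ℤ) - bn q d) - 1) ?_) ?_
    · intro d hd
      rw [mem_filter] at hd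
      push_cast
      linarith [hd.2]
    · apply sum_le_sum_of_subset_of_nonneg (filter_subset _ _)
      intro d _ _
      have := one_le_Gd (Z := Z0) (s := s) (R := R) C ((bn p d : ℤ) - bn q d)
      linarith
  have h4 : ∑ d ∈ U, (Gd C Z0 s R ((bn p d : ℤ) - bn q d) - 1) =
      ∑ h ∈ Ioo (-(N' : ℤ)) N', ((U.filter (fun d => (bn p d : ℤ) - bn q d = h)).card : ℝ) *
        (Gd C Z0 s R h - 1) := by
    rw [← sum_fiberwise_of_maps_to hmem]
    apply sum_congr rfl
    intro h _
    rw [← nsmul_eq_mul, ← sum_const]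
    apply sum_congr rfl
    intro d hd
    rw [(mem_filter.1 hd).2]
  rw [h4] at h3
  refine (mul_le_mul_of_nonneg_right h3 hD0.le).trans ?_
  rw [sum_mul]
  calc ∑ h ∈ Ioo (-(N' : ℤ)) N', ((U.filter (fun d => (bn p d : ℤ) - bn q d = h)).card : ℝ) *
        (Gd C Z0 s R h - 1) * D ≤ ∑ h ∈ Ioo (-(N' : ℤ)) N', (Gd C Z0 s R h - 1) * (D : ℝ) ^ m := by
        apply sum_le_sum
        intro h _
        have h5 : ((U.filter (fun d => (bn p d : ℤ) - bn q d = h)).card : ℝ) * D ≤ (D : ℝ) ^ m := by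
          exact_mod_cast fib hpq D h
        have h6 : 0 ≤ Gd C Z0 s R h - 1 := by
          have := one_le_Gd (Z := Z0) (s := s) (R := R) C h
          linarith
        nlinarith
    _ = (∑ h ∈ Ioo (-(N' : ℤ)) N', (Gd C Z0 s R h - 1)) * (D : ℝ) ^ m := by rw [sum_mul]
    _ ≤ _ := mul_le_mul_of_nonneg_right h (by positivity)

/-- few parameters have a large singular series -/
theorem few_big (m k : ℕ) {ε : ℝ} (hε : 0 < ε) : ∃ C : ℝ, 0 < C ∧ ∃ B X₀ : ℕ, ∀ X D : ℕ, X₀ ≤ X →
    Real.log X ^ B ≤ D → D ≤ X → ∃ E : Finset (Fin m → ℕ), (E.card : ℝ) ≤ ε * (D : ℝ) ^ m ∧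
      ∀ d ∈ Fintype.piFinset (fun _ : Fin m => Icc 1 D), d ∉ E →
      (∀ p q : Bx m k, p ≠ q → bn p d ≠ bn q d) ∧
      ∀ F : Finset (Bx m k), (∀ p : ℕ, p.Prime → nuN (pt d F) p < p) → SN (pt d F) ≤ C := by
  classical
  obtain ⟨K, hK⟩ : ∃ K : ℕ, K = k ^ m := ⟨_, rfl⟩
  obtain ⟨C₀, hC₀⟩ : ∃ C₀ : ℕ, C₀ = K * 2 * (1 + 2) ^ K := ⟨_, rfl⟩
  obtain ⟨ε', hε'⟩ : ∃ ε' : ℝ, ε' = ε / (2 * (K ^ 2 + 1) * (2 * (k * m + 2))) := ⟨_, rfl⟩
  have hε'0 : 0 < ε' := by rw [hε']; positivity
  obtain ⟨s, B₀, X₁, h⟩ := Pool.Agent.Y79.HS.gav 1 C₀ ε' hε'0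
  obtain ⟨X₂, hX₂⟩ := log_ge (max 1 (max (2 ^ B₀) (2 * (K ^ 2 + 1) / ε)))
  refine ⟨(2 : ℝ) ^ (K * K ^ 2) * (2 ^ K) ^ s * 2 ^ (K ^ 2), by positivity, B₀ + 1,
    max (max X₁ X₂) (k * m + 2), ?_⟩
  intro X D hX hBD hDX
  have hX1 : X₁ ≤ X := (le_max_left _ _).trans ((le_max_left _ _).trans hX)
  have hX2 := hX₂ X ((le_max_right _ _).trans ((le_max_left _ _).trans hX))
  have hX3 : k * m + 2 ≤ X := (le_max_right _ _).trans hX
  have hl1 : 1 ≤ Real.log X := (le_max_left _ _).trans hX2
  have hl2 : 2 ^ B₀ ≤ Real.log X := (le_max_left _ _).trans ((le_max_right _ _).trans hX2)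
  have hl3 : 2 * (K ^ 2 + 1) / ε ≤ Real.log X := (le_max_right _ _).trans ((le_max_right _ _).trans hX2)
  have hX0 : (0 : ℝ) < X := by exact_mod_cast (show 0 < X by omega)
  have hDl : Real.log X ≤ D := by
    refine le_trans ?_ hBD
    calc Real.log X = Real.log X ^ 1 := (pow_one _).symm
      _ ≤ _ := pow_le_pow_right₀ hl1 (by omega)
  have hD1' : (1 : ℝ) ≤ D := hl1.trans hDl
  have hD1 : 1 ≤ D := by exact_mod_cast hD1'
  obtain ⟨X', hX'⟩ : ∃ X' : ℕ, X' = (k * m + 1) * X := ⟨_, rfl⟩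
  obtain ⟨N', hN'⟩ : ∃ N' : ℕ, N' = (k * m + 1) * D + 1 := ⟨_, rfl⟩
  have hX'X : X ≤ X' := by rw [hX']; exact Nat.le_mul_of_pos_left _ (Nat.succ_pos _)
  have hX'2 : X' ≤ X ^ 2 := by
    rw [hX', pow_two]
    exact Nat.mul_le_mul_right _ (by omega)
  have hND : D ≤ (k * m + 1) * D := Nat.le_mul_of_pos_left _ (Nat.succ_pos _)
  have hN'0 : (0 : ℝ) < N' := by rw [hN']; positivity
  have hlog : Real.log X' ≤ 2 * Real.log X := by
    have h1 : (X' : ℝ) ≤ (X : ℝ) ^ 2 := by exact_mod_cast hX'2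
    have h2 : (0 : ℝ) < X' := lt_of_lt_of_le hX0 (by exact_mod_cast hX'X)
    have h3 := Real.log_le_log h2 h1
    rwa [Real.log_pow] at h3
  have hlog0 : 0 ≤ Real.log X' := by
    apply Real.log_nonneg
    exact_mod_cast (show 1 ≤ X' by omega)
  have hB' : Real.log X' ^ B₀ ≤ N' := by
    calc Real.log X' ^ B₀ ≤ (2 * Real.log X) ^ B₀ := pow_le_pow_left₀ hlog0 hlog _
      _ = 2 ^ B₀ * Real.log X ^ B₀ := mul_pow _ _ _
      _ ≤ Real.log X * Real.log X ^ B₀ := mul_le_mul_of_nonneg_right hl2 (by positivity)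
      _ = Real.log X ^ (B₀ + 1) := by rw [pow_succ]; ring
      _ ≤ D := hBD
      _ ≤ N' := by
        rw [hN']
        have : D ≤ (k * m + 1) * D + 1 := by omega
        exact_mod_cast this
  have h1 := h s X' X' N' le_rfl (hX1.trans hX'X) le_rfl hB' Z0 (by
    intro p hp
    unfold Z0
    rw [card_singleton]
    refine ⟨le_rfl, fun c hc => ?_⟩
    rw [mem_singleton.1 hc]
    exact (Pr_prime hp).pos)
  rw [div_le_iff₀ hN'0] at h1
  set U := Fintype.piFinset (fun _ : Fin m => Icc 1 D) with hU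
  set O := (univ : Finset (Bx m k)).offDiag with hO
  have hOc : (O.card : ℝ) ≤ (K : ℝ) ^ 2 := by
    have h2 : O.card ≤ K ^ 2 := by
      rw [hO, offDiag_card, card_univ, Fintype.card_fun, Fintype.card_fin, Fintype.card_fin, ← hK]
      have : K * K = K ^ 2 := by ring
      omega
    exact_mod_cast h2
  have hD0 : (0 : ℝ) < D := by linarith
  refine ⟨O.biUnion (fun l => U.filter (fun d => (bn l.1 d : ℤ) - bn l.2 d = 0)) ∪
    O.biUnion (fun l => U.filter (fun d => 2 < Gd C₀ Z0 s X' ((bn l.1 d : ℤ) - bn l.2 d))), ?_, ?_⟩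
  · have h2 : ((O.biUnion (fun l => U.filter (fun d => (bn l.1 d : ℤ) - bn l.2 d = 0)) ∪
        O.biUnion (fun l => U.filter (fun d => 2 < Gd C₀ Z0 s X' ((bn l.1 d : ℤ) - bn l.2 d)))).card : ℝ) * D ≤
        (∑ l ∈ O, (((U.filter (fun d => (bn l.1 d : ℤ) - bn l.2 d = 0)).card : ℝ) * D +
          ((U.filter (fun d => 2 < Gd C₀ Z0 s X' ((bn l.1 d : ℤ) - bn l.2 d))).card : ℝ) * D)) := by
      have h3 := (card_union_le (O.biUnion (fun l => U.filter (fun d => (bn l.1 d : ℤ) - bn l.2 d = 0)))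
        (O.biUnion (fun l => U.filter (fun d => 2 < Gd C₀ Z0 s X' ((bn l.1 d : ℤ) - bn l.2 d))))).trans
        (Nat.add_le_add card_biUnion_le card_biUnion_le)
      rw [← sum_add_distrib] at h3
      have h4 : ((O.biUnion (fun l => U.filter (fun d => (bn l.1 d : ℤ) - bn l.2 d = 0)) ∪
        O.biUnion (fun l => U.filter (fun d => 2 < Gd C₀ Z0 s X' ((bn l.1 d : ℤ) - bn l.2 d)))).card : ℝ) ≤
        ∑ l ∈ O, (((U.filter (fun d => (bn l.1 d : ℤ) - bn l.2 d = 0)).card : ℝ) +
          ((U.filter (fun d => 2 < Gd C₀ Z0 s X' ((bn l.1 d : ℤ) - bn l.2 d))).card : ℝ)) := by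
        exact_mod_cast h3
      refine (mul_le_mul_of_nonneg_right h4 hD0.le).trans (le_of_eq ?_)
      rw [sum_mul]
      exact sum_congr rfl fun l _ => add_mul _ _ _
    have h3 : ∀ l ∈ O, ((U.filter (fun d => (bn l.1 d : ℤ) - bn l.2 d = 0)).card : ℝ) * D +
          ((U.filter (fun d => 2 < Gd C₀ Z0 s X' ((bn l.1 d : ℤ) - bn l.2 d))).card : ℝ) * D ≤
          (D : ℝ) ^ m + ε' * N' * (D : ℝ) ^ m := by
      intro l hl
      have hne : l.1 ≠ l.2 := by
        rw [hO, mem_offDiag] at hl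
        exact hl.2.2
      have h4 : ((U.filter (fun d => (bn l.1 d : ℤ) - bn l.2 d = 0)).card : ℝ) * D ≤ (D : ℝ) ^ m := by
        exact_mod_cast fib hne D 0
      have h5 := few_Gd hne (C := C₀) (s := s) (R := X') hD1 (N' := N') (by
        rw [hN', add_mul]
        omega) h1
      linarith
    have h4 := h2.trans (sum_le_sum h3)
    rw [sum_const, nsmul_eq_mul] at h4
    have h5 : (O.card : ℝ) * ((D : ℝ) ^ m + ε' * N' * (D : ℝ) ^ m) ≤
        K ^ 2 * ((D : ℝ) ^ m + ε' * N' * (D : ℝ) ^ m) :=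
      mul_le_mul_of_nonneg_right hOc (by positivity)
    have h6 : (N' : ℝ) ≤ 2 * (k * m + 2) * D := by
      have : N' ≤ 2 * (k * m + 2) * D := by
        rw [hN']
        have e1 : 2 * (k * m + 2) * D = (k * m + 1) * D + (k * m + 3) * D := by ring
        have e2 : 1 ≤ (k * m + 3) * D := Nat.mul_pos (by omega) hD1
        omega
      exact_mod_cast this
    have h7 : ε' * N' ≤ ε / (2 * (K ^ 2 + 1)) * D := by
      calc ε' * N' ≤ ε' * (2 * (k * m + 2) * D) := mul_le_mul_of_nonneg_left h6 hε'0.le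
        _ = ε / (2 * (K ^ 2 + 1)) * D := by
          rw [hε']
          field_simp
    have h8 : 1 ≤ ε / (2 * (K ^ 2 + 1)) * D := by
      have h9 : 2 * (K ^ 2 + 1) / ε ≤ D := hl3.trans hDl
      rw [div_le_iff₀ hε] at h9
      rw [div_mul_eq_mul_div, le_div_iff₀ (by positivity)]
      linarith
    have h9 : (K : ℝ) ^ 2 * ((D : ℝ) ^ m + ε' * N' * (D : ℝ) ^ m) ≤ ε * (D : ℝ) ^ m * D := by
      have h10 : (D : ℝ) ^ m + ε' * N' * (D : ℝ) ^ m ≤ 2 * (ε / (2 * (K ^ 2 + 1)) * D) * (D : ℝ) ^ m := by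
        have : (0 : ℝ) ≤ (D : ℝ) ^ m := by positivity
        nlinarith
      calc (K : ℝ) ^ 2 * ((D : ℝ) ^ m + ε' * N' * (D : ℝ) ^ m)
          ≤ (K ^ 2 + 1) * ((D : ℝ) ^ m + ε' * N' * (D : ℝ) ^ m) :=
            mul_le_mul_of_nonneg_right (by linarith) (by positivity)
        _ ≤ (K ^ 2 + 1) * (2 * (ε / (2 * (K ^ 2 + 1)) * D) * (D : ℝ) ^ m) :=
            mul_le_mul_of_nonneg_left h10 (by positivity)
        _ = _ := by field_simp
    exact le_of_mul_le_mul_right ((h4.trans h5).trans h9) hD0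
  · intro d hd hdE
    rw [mem_union, not_or, mem_biUnion, mem_biUnion] at hdE
    push Not at hdE
    obtain ⟨hdE1, hdE2⟩ := hdE
    have hinj : ∀ p q : Bx m k, p ≠ q → bn p d ≠ bn q d := by
      intro p q hpq heq
      apply hdE1 (p, q) (by rw [hO, mem_offDiag]; exact ⟨mem_univ _, mem_univ _, hpq⟩)
      rw [mem_filter]
      refine ⟨hd, ?_⟩
      show (bn p d : ℤ) - bn q d = 0
      rw [heq, sub_self]
    refine ⟨hinj, fun F hadm => ?_⟩
    have h3 := SN_pt (s := s) (x := X') hK (by omega) hinj (fun p => by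
      refine (bn_le hd p).trans ?_
      rw [hX']
      calc k * m * D ≤ (k * m + 1) * D := Nat.mul_le_mul_right _ (by omega)
        _ ≤ _ := Nat.mul_le_mul_left _ hDX) hadm
    refine h3.trans ?_
    apply mul_le_mul_of_nonneg_left _ (by positivity)
    rw [← hC₀]
    calc ∏ l ∈ O, Gd C₀ Z0 s X' ((bn l.1 d : ℤ) - bn l.2 d) ≤ ∏ _l ∈ O, (2 : ℝ) := by
          apply prod_le_prod
          · intro l _
            exact zero_le_one.trans (one_le_Gd _ _)
          · intro l hl
            by_contra hcon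
            apply hdE2 l hl
            rw [mem_filter]
            exact ⟨hd, not_le.1 hcon⟩
      _ = 2 ^ O.card := by rw [prod_const]
      _ ≤ 2 ^ (K ^ 2) := by
          apply pow_le_pow_right₀ (by norm_num)
          exact_mod_cast hOc

theorem adm_of {K n : ℕ} (hK : K = k ^ m) {d : Fin m → ℕ} {F : Finset (Bx m k)}
    (h : ∀ f ∈ F, (n + bn f d).Prime ∧ K < n + bn f d) : ∀ p : ℕ, p.Prime → nuN (pt d F) p < p := by
  intro p hp
  have hFk : F.card ≤ K := by
    have := card_le_univ F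
    rwa [Fintype.card_fun, Fintype.card_fin, Fintype.card_fin, ← hK] at this
  rcases lt_or_ge K p with h1 | h1
  · have h2 : nuN (pt d F) p ≤ F.card := card_image_le.trans card_image_le
    omega
  · have h2 : (pt d F).image (fun t => t % p) ⊆ (range p).erase ((p - n % p) % p) := by
      intro u hu
      rw [mem_image] at hu
      obtain ⟨t, ht, rfl⟩ := hu
      unfold pt at ht
      rw [mem_image] at ht
      obtain ⟨f, hf, rfl⟩ := ht
      rw [mem_erase, mem_range]
      refine ⟨?_, Nat.mod_lt _ hp.pos⟩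
      intro hcon
      obtain ⟨h3, h4⟩ := h f hf
      have h5 : p ∣ n + bn f d := by
        have h6 : (n + bn f d) % p = 0 := by
          rw [Nat.add_mod, hcon]
          have h7 := Nat.mod_lt n hp.pos
          rcases Nat.eq_zero_or_pos (n % p) with h8 | h8
          · rw [h8]
            simp
          · rw [Nat.mod_eq_of_lt (show p - n % p < p by omega)]
            rw [show n % p + (p - n % p) = p by omega, Nat.mod_self]
        exact Nat.dvd_of_mod_eq_zero h6
      have h6 := (Nat.prime_dvd_prime_iff_eq hp h3).1 h5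
      omega
    have h3 := card_le_card h2
    rw [card_erase_of_mem (mem_range.2 (Nat.mod_lt _ hp.pos)), card_range] at h3
    unfold nuN
    have := hp.pos
    omega

/-- the pattern of the integers `∑ f_i d_i`, `f ∈ F` -/
def pat (d : Fin m → ℕ) (F : Finset (Fin m → ℕ)) : Finset ℕ := F.image (fun f => ∑ i, f i * d i)

/-- **all patterns in a common generalised progression** -/
theorem main (m k : ℕ) {δ : ℝ} (hδ : 0 < δ) : ∃ c : ℝ, 0 < c ∧ ∃ B X₀ : ℕ, ∀ X y D : ℕ, X₀ ≤ X →
    Real.log X ^ B ≤ D → D ≤ X → ∀ A : Finset ℕ, A ⊆ Ioc y (y + X) → (∀ p ∈ A, p.Prime) →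
    δ * (X / Real.log X) ≤ A.card →
    ∃ G ⊆ Fintype.piFinset (fun _ : Fin m => Icc 1 D), c * (D : ℝ) ^ m ≤ (G.card : ℝ) ∧ ∀ d ∈ G,
      ∀ F : Finset (Fin m → ℕ), (∀ f ∈ F, ∀ i, f i < k) → (fun _ => 0) ∈ F →
      (pat d F).card = F.card ∧ (∀ p : ℕ, p.Prime → nuN (pat d F) p < p) ∧ 0 < SN (pat d F) ∧
      c * SN (pat d F) * (X / Real.log X ^ F.card) ≤
        ((A.filter (fun n => ∀ f ∈ F, n + ∑ i, f i * d i ∈ A)).card : ℝ) := by
  classical
  obtain ⟨k', hk'⟩ : ∃ k', k' = max k 2 := ⟨_, rfl⟩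
  have hk2 : 2 ≤ k' := by omega
  have hkk : k ≤ k' := by omega
  obtain ⟨c, hc, B, X₁, h1⟩ := pri m k' hk2 hδ
  obtain ⟨C, hC, B', X₂, h2⟩ := few_big m k' (show (0 : ℝ) < c / 2 by positivity)
  obtain ⟨X₃, hX₃⟩ := log_ge 1
  refine ⟨min (c / 2) (c / C), lt_min (by positivity) (by positivity), max B B', max X₁ (max X₂ X₃), ?_⟩
  intro X y D hX hBD hDX A hA hAp hAc
  have hX1 : X₁ ≤ X := (le_max_left _ _).trans hX
  have hX2 : X₂ ≤ X := (le_max_left _ _).trans ((le_max_right _ _).trans hX)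
  have hX3 : 1 ≤ Real.log X := hX₃ X ((le_max_right _ _).trans ((le_max_right _ _).trans hX))
  have hB1 : Real.log X ^ B ≤ D := (pow_le_pow_right₀ hX3 (le_max_left _ _)).trans hBD
  have hB2 : Real.log X ^ B' ≤ D := (pow_le_pow_right₀ hX3 (le_max_right _ _)).trans hBD
  have hX0 : (0 : ℝ) < X := by
    have : 0 < X := Nat.pos_of_ne_zero fun h => by
      rw [h] at hX3
      simp at hX3
      linarith
    exact_mod_cast this
  have h3 := h1 X y D hX1 hB1 hDX A hA hAp hAc
  obtain ⟨E, hE, h4⟩ := h2 X D hX2 hB2 hDX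
  set P := (Fintype.piFinset (fun _ : Fin m => Icc 1 D)).filter (fun d => ∀ F : Finset (Bx m k'),
    (∃ p ∈ F, ∀ i, (p i : ℕ) = 0) →
      c * (X / Real.log X ^ F.card) ≤ (ct (A.filter (fun p => k' ^ m < p)) F d : ℝ)) with hP
  refine ⟨P \ E, sdiff_subset.trans (filter_subset _ _), ?_, ?_⟩
  · have h5 : (P.card : ℝ) ≤ (P \ E).card + E.card := by
      have h6 := card_le_card_sdiff_add_card (s := P) (t := E)
      exact_mod_cast h6
    have h6 : min (c / 2) (c / C) * (D : ℝ) ^ m ≤ c / 2 * (D : ℝ) ^ m :=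
      mul_le_mul_of_nonneg_right (min_le_left _ _) (by positivity)
    linarith
  · intro d hd F hF h0
    rw [mem_sdiff, hP, mem_filter] at hd
    obtain ⟨⟨hd1, hd2⟩, hdE⟩ := hd
    obtain ⟨hinj, hSb⟩ := h4 d hd1 hdE
    -- the pattern as a set of indices
    obtain ⟨v, hv⟩ : ∃ v : Bx m k' → Fin m → ℕ, v = fun p i => (p i : ℕ) := ⟨_, rfl⟩
    have hvi : Function.Injective v := by
      intro p q h
      funext i
      apply Fin.ext
      rw [hv] at h
      exact congrFun h i
    have hbn : ∀ p : Bx m k', bn p d = ∑ i, v p i * d i := by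
      intro p
      rw [hv]
      rfl
    obtain ⟨F1, hF1⟩ : ∃ F1 : Finset (Bx m k'), F1 = univ.filter (fun p => v p ∈ F) := ⟨_, rfl⟩
    have him : F1.image v = F := by
      ext f
      rw [mem_image]
      constructor
      · rintro ⟨p, hp, rfl⟩
        rw [hF1, mem_filter] at hp
        exact hp.2
      · intro hf
        refine ⟨fun i => ⟨f i, lt_of_lt_of_le (hF f hf i) hkk⟩, ?_, ?_⟩
        · rw [hF1, mem_filter]
          refine ⟨mem_univ _, ?_⟩
          rw [hv]
          exact hf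
        · rw [hv]
    have hcard : F1.card = F.card := by
      rw [← him, card_image_of_injective _ hvi]
    have hpat : pt d F1 = pat d F := by
      unfold pt pat
      rw [← him, image_image]
      apply image_congr
      intro p _
      exact hbn p
    have h5 := hd2 F1 ⟨fun _ => ⟨0, by omega⟩, by
      rw [hF1, mem_filter]
      refine ⟨mem_univ _, ?_⟩
      rw [hv]
      exact h0, fun _ => rfl⟩
    rw [hcard] at h5
    have h6 : 0 < (ct (A.filter (fun p => k' ^ m < p)) F1 d : ℝ) := lt_of_lt_of_le (by positivity) h5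
    have h7 : 0 < ct (A.filter (fun p => k' ^ m < p)) F1 d := by exact_mod_cast h6
    unfold ct at h7
    obtain ⟨n, hn⟩ := card_pos.1 h7
    rw [mem_filter, mem_filter] at hn
    have hadm : ∀ p : ℕ, p.Prime → nuN (pt d F1) p < p := by
      apply adm_of rfl (n := n)
      intro f hf
      have h8 := hn.2 f hf
      rw [mem_filter] at h8
      exact ⟨hAp _ h8.1, h8.2⟩
    have hS0 := SN_pos hadm
    have hS1 := hSb F1 hadm
    have hpc := pt_card hinj F1
    rw [hpat] at hadm hS0 hS1 hpc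
    refine ⟨by rw [hpc, hcard], hadm, hS0, ?_⟩
    have h8 : (ct (A.filter (fun p => k' ^ m < p)) F1 d : ℝ) ≤
        ((A.filter (fun n => ∀ f ∈ F, n + ∑ i, f i * d i ∈ A)).card : ℝ) := by
      unfold ct
      apply Nat.cast_le.2
      apply card_le_card
      intro a ha
      rw [mem_filter, mem_filter] at ha
      rw [mem_filter]
      refine ⟨ha.1.1, fun f hf => ?_⟩
      rw [← him, mem_image] at hf
      obtain ⟨p, hp, rfl⟩ := hf
      have h9 := ha.2 p hp
      rw [mem_filter, hbn] at h9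
      exact h9.1
    refine le_trans ?_ (h5.trans h8)
    apply mul_le_mul_of_nonneg_right _ (by positivity)
    calc min (c / 2) (c / C) * SN (pat d F) ≤ c / C * C :=
          mul_le_mul (min_le_right _ _) hS1 hS0.le (by positivity)
      _ = c := by field_simp

end Pool.Agent.X26.GP
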