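import Pool.Agent.X26.GP.Rs
import Pool.Agent.X26.DP.Win

/-!
# All patterns in a common generalised progression: windows
-/

set_option autoImplicit false

open Finset

namespace Pool.Agent.X26.GP

open Pool.Agent.H602R3.DHJ
open Pool.Agent.Y727.PSP
open Pool.Agent.Y843.HS
open Pool.Agent.Y79.PSP.MK (rp_mem rp_inj)
open Pool.Agent.X26.DP (fX_ne rp_cast_natAbs)

variable {m k N : ℕ}

/-- the patterns are subsets of this box -/
abbrev Bx (m k : ℕ) : Type := Fin m → Fin k

/-- `∑ p_i d_i` modulo `N` -/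
def br (p : Bx m k) (d : Fin m → ZMod N) : ZMod N := ∑ i, ((p i : ℕ) : ZMod N) * d i

/-- `∑ p_i d_i` -/
def bn (p : Bx m k) (d : Fin m → ℕ) : ℕ := ∑ i, (p i : ℕ) * d i

/-- the average over the pattern `F` -/
noncomputable def TB [NeZero N] (f : ZMod N → ℝ) (F : Finset (Bx m k)) (d : Fin m → ZMod N) : ℝ :=
  av (fun a : ZMod N => ∏ p ∈ F, f (a + br p d))

open Classical in
/-- the differences which are good for all patterns -/
noncomputable def GB (m k N : ℕ) [NeZero N] (c : ℝ) (f : ZMod N → ℝ) : Finset (Fin m → ZMod N) :=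
  univ.filter (fun d => ∀ F : Finset (Bx m k), c ≤ TB f F d)

/-- the homomorphisms -/
def ps (m k N : ℕ) (j : Fin (k ^ m)) : (Fin m → ZMod N) →+ ZMod N where
  toFun d := br (finFunctionFinEquiv.symm j) d
  map_zero' := by
    unfold br
    simp
  map_add' d d' := by
    unfold br
    rw [← sum_add_distrib]
    exact sum_congr rfl fun i _ => by rw [Pi.add_apply, mul_add]

/-- the section -/
def io (m k N : ℕ) : ZMod N →+ (Fin m → ZMod N) where
  toFun s := fun i => ((k ^ (i : ℕ) : ℕ) : ZMod N) * s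
  map_zero' := by
    funext i
    simp
  map_add' s s' := by
    funext i
    rw [Pi.add_apply, mul_add]

theorem ps_io (j : Fin (k ^ m)) (s : ZMod N) : ps m k N j (io m k N s) = ((j : ℕ) : ZMod N) * s := by
  show br (finFunctionFinEquiv.symm j) (fun i => ((k ^ (i : ℕ) : ℕ) : ZMod N) * s) = _
  unfold br
  have h1 : ((finFunctionFinEquiv (finFunctionFinEquiv.symm j) : Fin (k ^ m)) : ℕ) =
      ∑ i : Fin m, ((finFunctionFinEquiv.symm j) i : ℕ) * k ^ (i : ℕ) :=
    finFunctionFinEquiv_apply _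
  rw [Equiv.apply_symm_apply] at h1
  rw [h1]
  push_cast
  rw [sum_mul]
  exact sum_congr rfl fun i _ => by ring

/-- the good differences for the abstract system are good for the patterns in the box -/
theorem GB_card [NeZero N] {c : ℝ} {f : ZMod N → ℝ} {C : ℝ}
    (h : C ≤ (((univ : Finset (Fin m → ZMod N)).filter (fun d => ∀ F : Finset (Fin (k ^ m)),
      c ≤ TG (ps m k N) f F d)).card : ℝ)) : C ≤ ((GB m k N c f).card : ℝ) := by
  classical
  refine h.trans ?_
  apply Nat.cast_le.2
  apply card_le_card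
  intro d hd
  rw [mem_filter] at hd
  unfold GB
  rw [mem_filter]
  refine ⟨mem_univ _, fun F => ?_⟩
  have h1 := hd.2 (F.image finFunctionFinEquiv)
  refine h1.trans (le_of_eq ?_)
  unfold TG TB
  congr 1
  funext a
  rw [prod_image (fun _ _ _ _ h => finFunctionFinEquiv.injective h)]
  apply prod_congr rfl
  intro p _
  congr 2
  show br (finFunctionFinEquiv.symm (finFunctionFinEquiv p)) d = br p d
  rw [Equiv.symm_apply_apply]

/-! ### Signs -/

/-- change of the signs -/
def sg (σ : Fin m → Bool) (d : Fin m → ZMod N) : Fin m → ZMod N := fun i => if σ i = true then - d i else d i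

/-- reflection of the box -/
def rf (σ : Fin m → Bool) (p : Bx m k) : Bx m k := fun i => if σ i = true then (p i).rev else p i

theorem rf_rf (σ : Fin m → Bool) (p : Bx m k) : rf σ (rf σ p) = p := by
  funext i
  unfold rf
  by_cases h : σ i = true
  · simp [h]
  · simp [h]

theorem sg_sg (σ : Fin m → Bool) (d : Fin m → ZMod N) : sg σ (sg σ d) = d := by
  funext i
  unfold sg
  by_cases h : σ i = true
  · simp [h]
  · simp [h]

theorem TB_sg [NeZero N] (f : ZMod N → ℝ) (F : Finset (Bx m k)) (σ : Fin m → Bool) (d : Fin m → ZMod N) :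
    TB f F (sg σ d) = TB f (F.image (rf σ)) d := by
  unfold TB
  have h1 := Pool.Agent.Y46.PSP.av_addRight (fun a : ZMod N => ∏ p ∈ F, f (a + br p (sg σ d)))
    (∑ i, (if σ i = true then ((k - 1 : ℕ) : ZMod N) * d i else 0))
  rw [← h1]
  congr 1
  funext a
  rw [prod_image (fun p _ q _ h => by rw [← rf_rf σ p, h, rf_rf])]
  apply prod_congr rfl
  intro p _
  congr 1
  rw [add_assoc]
  congr 1
  unfold br
  rw [← sum_add_distrib]
  apply sum_congr rfl
  intro i _
  unfold sg rf
  by_cases h : σ i = true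
  · simp only [h, if_true]
    rw [Fin.val_rev]
    have h2 : (((k - ((p i : ℕ) + 1) : ℕ)) : ZMod N) = ((k - 1 : ℕ) : ZMod N) - ((p i : ℕ) : ZMod N) := by
      rw [← Nat.cast_sub (by have := (p i).2; omega)]
      congr 1
      omega
    rw [h2]
    ring
  · rw [if_neg h, if_neg h, if_neg h]
    ring

theorem GB_sg [NeZero N] {c : ℝ} {f : ZMod N → ℝ} {d : Fin m → ZMod N} (σ : Fin m → Bool)
    (h : d ∈ GB m k N c f) : sg σ d ∈ GB m k N c f := by
  unfold GB at h ⊢
  rw [mem_filter] at h ⊢
  refine ⟨mem_univ _, fun F => ?_⟩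
  rw [TB_sg]
  exact h.2 _

theorem ex_pt [NeZero N] {f : ZMod N → ℝ} {c : ℝ} (hc : 0 < c) {F : Finset (Bx m k)} {d : Fin m → ZMod N}
    (h : c ≤ TB f F d) : ∃ a, ∀ p ∈ F, f (a + br p d) ≠ 0 := by
  by_contra hcon
  push Not at hcon
  have h1 : TB f F d = 0 := by
    unfold TB
    have h2 : (fun a : ZMod N => ∏ p ∈ F, f (a + br p d)) = fun _ => 0 := by
      funext a
      obtain ⟨p, hp, h0⟩ := hcon a
      exact prod_eq_zero hp h0
    rw [h2, av_const]
  linarith

/-- residues in the first half: the box of integers -/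
theorem box [NeZero N] (hk : 2 ≤ k) {a : ZMod N} {d : Fin m → ZMod N}
    (h : ∀ p : Bx m k, 2 * rp (a + br p d) < N) :
    ∀ p : Bx m k, (rp (a + br p d) : ℤ) = rp a + ∑ i, (p i : ℕ) * ((rp (a + d i) : ℤ) - rp a) := by
  classical
  have hunit : ∀ i, 2 * rp (a + d i) < N := by
    intro i
    have h1 := h (fun l => if l = i then ⟨1, by omega⟩ else ⟨0, by omega⟩)
    have h2 : br (fun l => if l = i then (⟨1, by omega⟩ : Fin k) else ⟨0, by omega⟩) d = d i := by
      unfold br
      rw [sum_eq_single i]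
      · simp
      · intro l _ hl
        simp [hl]
      · intro h
        exact absurd (mem_univ _) h
    rwa [h2] at h1
  have h0 : 2 * rp a < N := by
    have h1 := h (fun _ => ⟨0, by omega⟩)
    have h2 : br (fun _ => (⟨0, by omega⟩ : Fin k)) d = 0 := by
      unfold br
      simp
    rwa [h2, add_zero] at h1
  have key : ∀ n : ℕ, ∀ p : Bx m k, ∑ i, (p i : ℕ) = n →
      (rp (a + br p d) : ℤ) = rp a + ∑ i, (p i : ℕ) * ((rp (a + d i) : ℤ) - rp a) := by
    intro n
    induction n with
    | zero =>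
      intro p hp
      have h1 : ∀ i, (p i : ℕ) = 0 := by
        intro i
        exact (sum_eq_zero_iff.1 hp) i (mem_univ _)
      have h2 : br p d = 0 := by
        unfold br
        exact sum_eq_zero fun i _ => by rw [h1 i]; simp
      rw [h2, add_zero]
      have h3 : ∑ i, ((p i : ℕ) : ℤ) * ((rp (a + d i) : ℤ) - rp a) = 0 :=
        sum_eq_zero fun i _ => by rw [h1 i]; simp
      rw [h3, add_zero]
    | succ n ih =>
      intro p hp
      obtain ⟨i0, hi0⟩ : ∃ i0, 0 < (p i0 : ℕ) := by
        by_contra hcon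
        push Not at hcon
        have : ∑ i, (p i : ℕ) = 0 := sum_eq_zero fun i _ => Nat.le_zero.1 (hcon i)
        omega
      obtain ⟨p', hp'⟩ : ∃ p' : Bx m k, p' = Function.update p i0 ⟨(p i0 : ℕ) - 1, by
        have := (p i0).2; omega⟩ := ⟨_, rfl⟩
      have hp1 : (p' i0 : ℕ) = (p i0 : ℕ) - 1 := by rw [hp', Function.update_self]
      have hp2 : ∀ i, i ≠ i0 → p' i = p i := by
        intro i hi
        rw [hp', Function.update_of_ne hi]
      have hs : ∀ {R : Type} [CommRing R] (g : Fin m → R), ∑ i, ((p i : ℕ) : R) * g i =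
          (∑ i, ((p' i : ℕ) : R) * g i) + g i0 := by
        intro R _ g
        rw [← add_sum_erase univ _ (mem_univ i0), ← add_sum_erase univ (fun i => ((p' i : ℕ) : R) * g i) (mem_univ i0)]
        have e1 : ∑ i ∈ univ.erase i0, ((p i : ℕ) : R) * g i = ∑ i ∈ univ.erase i0, ((p' i : ℕ) : R) * g i := by
          apply sum_congr rfl
          intro i hi
          rw [hp2 i (mem_erase.1 hi).1]
        rw [e1, hp1, Nat.cast_sub (by omega), Nat.cast_one]
        ring
      have hsum : ∑ i, (p' i : ℕ) = n := by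
        have e1 := hs (R := ℤ) (fun _ => 1)
        simp only [mul_one] at e1
        have e2 : (∑ i, ((p i : ℕ) : ℤ)) = ((n + 1 : ℕ) : ℤ) := by exact_mod_cast hp
        have e3 : ((∑ i, (p' i : ℕ) : ℕ) : ℤ) = n := by
          push_cast at e2 ⊢
          linarith
        exact_mod_cast e3
      have e1 := ih p' hsum
      have e2 : br p d = br p' d + d i0 := by
        unfold br
        exact hs (R := ZMod N) d
      have e3 := hs (R := ℤ) (fun i => (rp (a + d i) : ℤ) - rp a)
      rw [e3, ← add_assoc, ← e1]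
      have b1 := h p
      have b2 := h p'
      have b3 := hunit i0
      have b4 := h0
      have b5 := (rp_mem (a + br p d)).1
      have b6 := (rp_mem (a + br p' d)).1
      have b7 := (rp_mem (a + d i0)).1
      have b8 := (rp_mem a).1
      have e4 : (((rp (a + br p d) : ℤ) - (rp (a + br p' d) + ((rp (a + d i0) : ℤ) - rp a)) : ℤ) : ZMod N) = 0 := by
        push_cast
        rw [rp_cast, rp_cast, rp_cast, rp_cast, e2]
        ring
      rw [ZMod.intCast_zmod_eq_zero_iff_dvd] at e4
      have e5 : (rp (a + br p d) : ℤ) - (rp (a + br p' d) + ((rp (a + d i0) : ℤ) - rp a)) = 0 := by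
        apply Int.eq_zero_of_abs_lt_dvd e4
        rw [abs_lt]
        constructor <;> omega
      linarith
  intro p
  exact key _ p rfl

/-- the good differences are small integers up to the signs -/
theorem small_sg [NeZero N] (hk : 2 ≤ k) {T : Finset ℕ} {w c : ℝ} (hc : 0 < c) {x : ℕ} {d : Fin m → ZMod N}
    (hd : ∀ i, d i ≠ 0) (h : d ∈ GB m k N c (fX T w N x)) :
    ∃ σ : Fin m → Bool, 2 * ((k - 1) * ∑ i, rp (sg σ d i)) < N := by
  classical
  unfold GB at h
  rw [mem_filter] at h
  obtain ⟨a, ha⟩ := ex_pt hc (h.2 univ)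
  have h1 : ∀ p : Bx m k, 2 * rp (a + br p d) < N := fun p => (fX_ne (ha p (mem_univ _))).2
  have h2 := box hk h1
  obtain ⟨D, hD⟩ : ∃ D : Fin m → ℤ, D = fun i => (rp (a + d i) : ℤ) - rp a := ⟨_, rfl⟩
  have h2' : ∀ p : Bx m k, (rp (a + br p d) : ℤ) = rp a + ∑ i, ((p i : ℕ) : ℤ) * D i := by
    intro p
    rw [h2 p, hD]
  have hcast : ∀ i, (D i : ZMod N) = d i := by
    intro i
    rw [hD]
    push_cast
    rw [rp_cast, rp_cast]
    ring
  have hD0 : ∀ i, D i ≠ 0 := by
    intro i h0
    apply hd i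
    rw [← hcast i, h0]
    simp
  refine ⟨fun i => decide (D i < 0), ?_⟩
  have hk1 : ((k - 1 : ℕ) : ℤ) = (k : ℤ) - 1 := by
    rw [Nat.cast_sub (by omega)]
    rfl
  have hk2 : (2 : ℤ) ≤ k := by exact_mod_cast hk
  -- the positive and the negative parts
  have hpos := h2' (fun i => if 0 < D i then ⟨k - 1, by omega⟩ else ⟨0, by omega⟩)
  have hneg := h2' (fun i => if 0 < D i then ⟨0, by omega⟩ else ⟨k - 1, by omega⟩)
  have b1 := h1 (fun i => if 0 < D i then ⟨k - 1, by omega⟩ else ⟨0, by omega⟩)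
  have b2 := (rp_mem (a + br (fun i => if 0 < D i then (⟨0, by omega⟩ : Fin k) else ⟨k - 1, by omega⟩) d)).1
  have b1' : (2 : ℤ) * rp (a + br (fun i => if 0 < D i then (⟨k - 1, by omega⟩ : Fin k) else ⟨0, by omega⟩) d) < N := by
    exact_mod_cast b1
  have b2' : (1 : ℤ) ≤ rp (a + br (fun i => if 0 < D i then (⟨0, by omega⟩ : Fin k) else ⟨k - 1, by omega⟩) d) := by
    exact_mod_cast b2
  rw [hpos] at b1'
  rw [hneg] at b2'
  have e1 : ∑ i, ((((if 0 < D i then (⟨k - 1, by omega⟩ : Fin k) else ⟨0, by omega⟩) : Fin k) : ℕ) : ℤ) * D i -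
      ∑ i, ((((if 0 < D i then (⟨0, by omega⟩ : Fin k) else ⟨k - 1, by omega⟩) : Fin k) : ℕ) : ℤ) * D i =
      ((k : ℤ) - 1) * ∑ i, |D i| := by
    rw [← sum_sub_distrib, mul_sum]
    apply sum_congr rfl
    intro i _
    by_cases hi : 0 < D i
    · simp only [hi, if_true, abs_of_pos hi]
      rw [hk1]
      ring
    · have hi' : D i < 0 := lt_of_le_of_ne (not_lt.1 hi) (hD0 i)
      simp only [hi, if_false, abs_of_neg hi']
      rw [hk1]
      ring
  have e2 : 2 * (((k : ℤ) - 1) * ∑ i, |D i|) < N := by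
    rw [← e1]
    have b3 : (2 : ℤ) * rp a < N := by
      have := h1 (fun _ => ⟨0, by omega⟩)
      have h3 : br (fun _ => (⟨0, by omega⟩ : Fin k)) d = 0 := by
        unfold br
        simp
      rw [h3, add_zero] at this
      exact_mod_cast this
    linarith
  have habs : ∀ i, |D i| < N := by
    intro i
    have e3 : |D i| ≤ ∑ i, |D i| := single_le_sum (f := fun i => |D i|) (fun _ _ => abs_nonneg _) (mem_univ i)
    have e4 : 0 ≤ ∑ i, |D i| := sum_nonneg fun _ _ => abs_nonneg _
    nlinarith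
  have e3 : ∀ i, (rp (sg (fun i => decide (D i < 0)) d i) : ℤ) = |D i| := by
    intro i
    apply rp_cast_natAbs (abs_pos.2 (hD0 i)) (habs i)
    unfold sg
    by_cases hi : D i < 0
    · simp only [hi, decide_true, if_true, abs_of_neg hi]
      push_cast
      rw [hcast]
    · have hi' : 0 ≤ D i := not_lt.1 hi
      simp only [hi, decide_false, abs_of_nonneg hi']
      rw [hcast]
      simp
  have e4 : ((2 * ((k - 1) * ∑ i, rp (sg (fun i => decide (D i < 0)) d i)) : ℕ) : ℤ) < N := by
    push_cast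
    simp only [e3]
    rw [hk1]
    exact e2
  exact_mod_cast e4

open Classical in
/-- the positive good differences -/
noncomputable def GQ (m k N : ℕ) [NeZero N] (c : ℝ) (f : ZMod N → ℝ) : Finset (Fin m → ℕ) :=
  (Fintype.piFinset (fun _ => Icc 1 N)).filter (fun d => 2 * ((k - 1) * ∑ i, d i) < N ∧
    (fun i => ((d i : ℕ) : ZMod N)) ∈ GB m k N c f)

theorem GQ_card [NeZero N] (hk : 2 ≤ k) {T : Finset ℕ} {w c : ℝ} (hc : 0 < c) {x : ℕ} :
    (GB m k N c (fX T w N x)).card * N ≤ 2 ^ m * (GQ m k N c (fX T w N x)).card * N + m * N ^ m := by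
  classical
  set G := GB m k N c (fX T w N x) with hG
  -- the degenerate differences
  have hdeg : ((univ : Finset (Fin m → ZMod N)).filter (fun d => ∃ i, d i = 0)).card * N ≤ m * N ^ m := by
    have h1 : (univ : Finset (Fin m → ZMod N)).filter (fun d => ∃ i, d i = 0) ⊆
        (univ : Finset (Fin m)).biUnion (fun i => (univ : Finset (Fin m → ZMod N)).filter (fun d => d i = 0)) := by
      intro d hd
      rw [mem_filter] at hd
      obtain ⟨i, hi⟩ := hd.2
      rw [mem_biUnion]
      exact ⟨i, mem_univ _, mem_filter.2 ⟨mem_univ _, hi⟩⟩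
    have h2 : ∀ i : Fin m, ((univ : Finset (Fin m → ZMod N)).filter (fun d => d i = 0)).card * N ≤ N ^ m := by
      intro i
      have h3 : (((univ : Finset (Fin m → ZMod N)).filter (fun d => d i = 0)) ×ˢ (univ : Finset (ZMod N))).card ≤
          (univ : Finset (Fin m → ZMod N)).card := by
        apply card_le_card_of_injOn (fun q => Function.update q.1 i q.2)
        · intro q _
          exact mem_coe.2 (mem_univ _)
        · intro q hq q' hq' h
          rw [mem_coe, mem_product, mem_filter] at hq hq'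
          have e1 := congrFun h i
          simp only [Function.update_self] at e1
          refine Prod.ext ?_ e1
          funext l
          by_cases hl : l = i
          · rw [hl, hq.1.2, hq'.1.2]
          · have e2 := congrFun h l
            simpa only [Function.update_of_ne hl] using e2
      rw [card_product, card_univ, card_univ, ZMod.card, Fintype.card_fun, ZMod.card, Fintype.card_fin] at h3
      exact h3
    calc _ ≤ (∑ i : Fin m, ((univ : Finset (Fin m → ZMod N)).filter (fun d => d i = 0)).card) * N :=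
          Nat.mul_le_mul_right _ ((card_le_card h1).trans card_biUnion_le)
      _ = ∑ i : Fin m, ((univ : Finset (Fin m → ZMod N)).filter (fun d => d i = 0)).card * N := sum_mul _ _ _
      _ ≤ ∑ _i : Fin m, N ^ m := sum_le_sum fun i _ => h2 i
      _ = m * N ^ m := by rw [sum_const, card_univ, Fintype.card_fin, smul_eq_mul]
  -- the others
  set H := G.filter (fun d => ∀ i, d i ≠ 0) with hH
  have hex : ∀ d : Fin m → ZMod N, ∃ σ : Fin m → Bool, d ∈ H → 2 * ((k - 1) * ∑ i, rp (sg σ d i)) < N := by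
    intro d
    by_cases hd : d ∈ H
    · rw [hH, mem_filter] at hd
      obtain ⟨σ, hσ⟩ := small_sg hk hc hd.2 hd.1
      exact ⟨σ, fun _ => hσ⟩
    · exact ⟨fun _ => true, fun h => absurd h hd⟩
  choose σ hσ using hex
  have h1 : H.card ≤ (GQ m k N c (fX T w N x) ×ˢ (univ : Finset (Fin m → Bool))).card := by
    apply card_le_card_of_injOn (fun d => ((fun i => rp (sg (σ d) d i)), σ d))
    · intro d hd
      rw [mem_coe] at hd
      have hd' := hσ d hd
      rw [hH, mem_filter] at hd
      rw [mem_coe, mem_product]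
      refine ⟨?_, mem_univ _⟩
      unfold GQ
      rw [mem_filter, Fintype.mem_piFinset]
      refine ⟨fun i => mem_Icc.2 (rp_mem _), hd', ?_⟩
      have e : (fun i => ((rp (sg (σ d) d i) : ℕ) : ZMod N)) = sg (σ d) d := by
        funext i
        exact rp_cast _
      show (fun i => ((rp (sg (σ d) d i) : ℕ) : ZMod N)) ∈ _
      rw [e]
      exact GB_sg _ hd.1
    · intro d _ d' _ h
      simp only [Prod.mk.injEq] at h
      have e1 : sg (σ d) d = sg (σ d') d' := by
        funext i
        exact rp_inj (congrFun h.1 i)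
      rw [← sg_sg (σ d) d, e1, h.2, sg_sg]
  rw [card_product, card_univ, Fintype.card_fun, Fintype.card_bool, Fintype.card_fin] at h1
  have h2 : G.card ≤ H.card + ((univ : Finset (Fin m → ZMod N)).filter (fun d => ∃ i, d i = 0)).card := by
    rw [← card_filter_add_card_filter_not (s := G) (fun d => ∀ i, d i ≠ 0)]
    apply Nat.add_le_add_left
    apply card_le_card
    intro d hd
    rw [mem_filter] at hd ⊢
    refine ⟨mem_univ _, ?_⟩
    have := hd.2
    push Not at this
    exact this
  calc G.card * N ≤ (H.card + ((univ : Finset (Fin m → ZMod N)).filter (fun d => ∃ i, d i = 0)).card) * N :=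
        Nat.mul_le_mul_right _ h2
    _ = H.card * N + ((univ : Finset (Fin m → ZMod N)).filter (fun d => ∃ i, d i = 0)).card * N := add_mul _ _ _
    _ ≤ ((GQ m k N c (fX T w N x)).card * 2 ^ m) * N + m * N ^ m :=
        Nat.add_le_add (Nat.mul_le_mul_right _ h1) hdeg
    _ = _ := by ring

/-- the number of the `n` in `T` with all `n + ∑ p_i d_i`, `p ∈ F`, in `T` -/
def ct (T : Finset ℕ) (F : Finset (Bx m k)) (d : Fin m → ℕ) : ℕ :=
  (T.filter (fun n => ∀ p ∈ F, n + bn p d ∈ T)).card

/-- the number of the pairs in a window -/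
theorem cnt_win [NeZero N] {T : Finset ℕ} {w c : ℝ} (hw : 0 ≤ w) {x : ℕ} {d : Fin m → ℕ}
    (hd : 2 * ((k - 1) * ∑ i, d i) < N) {F : Finset (Bx m k)} (hF : ∃ p ∈ F, ∀ i, (p i : ℕ) = 0)
    (h : c ≤ TB (fX T w N x) F (fun i => ((d i : ℕ) : ZMod N))) :
    c * N ≤ w ^ F.card * (((Icc 1 N).filter (fun u => ∀ p ∈ F, x + u + bn p d ∈ T)).card : ℝ) := by
  classical
  have hN : (0 : ℝ) < N := by exact_mod_cast Nat.pos_of_ne_zero (NeZero.ne N)
  obtain ⟨p0, hp0, hp00⟩ := hF
  obtain ⟨dz, hdz⟩ : ∃ dz : Fin m → ZMod N, dz = fun i => ((d i : ℕ) : ZMod N) := ⟨_, rfl⟩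
  rw [← hdz] at h
  have hbr : ∀ p : Bx m k, br p dz = ((bn p d : ℕ) : ZMod N) := by
    intro p
    rw [hdz]
    unfold br bn
    push_cast
    rfl
  have hbn0 : bn p0 d = 0 := by
    unfold bn
    exact sum_eq_zero fun i _ => by rw [hp00 i, zero_mul]
  have hbnle : ∀ p : Bx m k, 2 * bn p d < N := by
    intro p
    refine lt_of_le_of_lt ?_ hd
    apply Nat.mul_le_mul_left
    unfold bn
    rw [mul_sum]
    apply sum_le_sum
    intro i _
    exact Nat.mul_le_mul_right _ (by have := (p i).2; omega)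
  set Q := (univ : Finset (ZMod N)).filter (fun a => ∀ p ∈ F, x + rp (a + br p dz) ∈ T ∧
    2 * rp (a + br p dz) < N) with hQ
  have h1 : TB (fX T w N x) F dz = w ^ F.card * Q.card / N := by
    unfold TB av
    rw [ZMod.card]
    congr 1
    have h2 : ∀ a : ZMod N, ∏ p ∈ F, fX T w N x (a + br p dz) = if a ∈ Q then w ^ F.card else 0 := by
      intro a
      by_cases ha : a ∈ Q
      · rw [if_pos ha]
        rw [hQ, mem_filter] at ha
        rw [← prod_const]
        apply prod_congr rfl
        intro j hj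
        unfold fX
        rw [if_pos (ha.2 j hj)]
      · rw [if_neg ha]
        rw [hQ, mem_filter, not_and] at ha
        have ha' := ha (mem_univ _)
        push Not at ha'
        obtain ⟨j, hj, hj2⟩ := ha'
        apply prod_eq_zero hj
        unfold fX
        rw [if_neg]
        intro hh
        exact absurd hh.2 (not_lt.2 (hj2 hh.1))
    rw [sum_congr rfl (fun a _ => h2 a), ← sum_filter, sum_const, nsmul_eq_mul, mul_comm]
    congr 3
    ext a
    simp
  rw [h1, le_div_iff₀ hN] at h
  refine h.trans (mul_le_mul_of_nonneg_left ?_ (pow_nonneg hw _))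
  have h2 : Q.card ≤ ((Icc 1 N).filter (fun u => ∀ p ∈ F, x + u + bn p d ∈ T)).card := by
    apply card_le_card_of_injOn (fun a => rp a)
    · intro a ha
      rw [mem_coe, hQ, mem_filter] at ha
      rw [mem_coe, mem_filter, mem_Icc]
      refine ⟨rp_mem a, fun p hp => ?_⟩
      have h3 := ha.2 p0 hp0
      rw [hbr, hbn0, Nat.cast_zero, add_zero] at h3
      obtain ⟨h4, h5⟩ := ha.2 p hp
      have h6 : rp (a + br p dz) = rp a + bn p d := by
        have h7 := rp_mem a
        have h8 := rp_mem (a + br p dz)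
        have h9 : (((rp (a + br p dz) : ℕ) : ℤ) : ZMod N) = (((rp a + bn p d : ℕ) : ℤ) : ZMod N) := by
          push_cast
          rw [rp_cast, rp_cast, hbr]
        rw [← sub_eq_zero, ← Int.cast_sub, ZMod.intCast_zmod_eq_zero_iff_dvd] at h9
        have h10 := hbnle p
        have h12 : ((rp (a + br p dz) : ℕ) : ℤ) - ((rp a + bn p d : ℕ) : ℤ) = 0 := by
          apply Int.eq_zero_of_abs_lt_dvd h9
          rw [abs_lt]
          constructor <;> omega
        omega
      rw [add_assoc, ← h6]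
      exact h4
    · intro a _ b _ hab
      exact rp_inj hab
  exact_mod_cast h2

/-- **many good differences** -/
theorem winp [NeZero N] (hk : 2 ≤ k) (T : Finset ℕ) {w c : ℝ} (hw : 0 ≤ w) (hc : 0 < c)
    (I : Finset ℕ) (hI : ∀ x ∈ I, c * (N : ℝ) ^ m ≤ ((GB m k N c (fX T w N x)).card : ℝ)) (hI0 : 0 < I.card)
    (hN : 2 * m ≤ c * N) :
    c / 2 ^ (m + 2) * (N : ℝ) ^ m ≤ (((Fintype.piFinset (fun _ : Fin m => Icc 1 N)).filter
      (fun d => ∀ F : Finset (Bx m k), (∃ p ∈ F, ∀ i, (p i : ℕ) = 0) →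
      c ^ 2 / 2 ^ (m + 2) * I.card ≤ w ^ F.card * (ct T F d : ℝ))).card : ℝ) := by
  classical
  have hN0 : (0 : ℝ) < N := by exact_mod_cast Nat.pos_of_ne_zero (NeZero.ne N)
  have hI0' : (0 : ℝ) < I.card := by exact_mod_cast hI0
  obtain ⟨c2, hc2⟩ : ∃ c2 : ℝ, c2 = c / 2 ^ (m + 1) := ⟨_, rfl⟩
  have hc20 : 0 < c2 := by rw [hc2]; positivity
  have hc2' : c / 2 ^ (m + 2) = c2 / 2 := by
    rw [hc2, pow_succ (2 : ℝ) (m + 1)]
    field_simp
  have hc2'' : c ^ 2 / 2 ^ (m + 2) = c2 / 2 * c := by
    rw [← hc2']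
    ring
  rw [hc2', hc2'']
  obtain ⟨Id, hId⟩ : ∃ Id : (Fin m → ℕ) → Finset ℕ, Id = fun d => I.filter (fun x => d ∈ GQ m k N c (fX T w N x)) :=
    ⟨_, rfl⟩
  -- a single good difference
  have hsing : ∀ d : Fin m → ℕ, c2 / 2 * I.card ≤ ((Id d).card : ℝ) → ∀ F : Finset (Bx m k),
      (∃ p ∈ F, ∀ i, (p i : ℕ) = 0) → c2 / 2 * c * I.card ≤ w ^ F.card * (ct T F d : ℝ) := by
    intro d hd F hF
    have h1 : ((Id d).card : ℝ) * (c * N) ≤ w ^ F.card * (∑ x ∈ Id d,
        (((Icc 1 N).filter (fun u => ∀ p ∈ F, x + u + bn p d ∈ T)).card : ℝ)) := by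
      rw [mul_sum, ← nsmul_eq_mul, ← sum_const]
      apply sum_le_sum
      intro x hx
      rw [hId, mem_filter] at hx
      have hx2 := hx.2
      unfold GQ at hx2
      rw [mem_filter] at hx2
      have hx3 := hx2.2.2
      unfold GB at hx3
      rw [mem_filter] at hx3
      exact cnt_win hw hx2.2.1 hF (hx3.2 F)
    have h2 : ∑ x ∈ Id d, ((Icc 1 N).filter (fun u => ∀ p ∈ F, x + u + bn p d ∈ T)).card ≤ N * ct T F d := by
      have h3 : ∑ x ∈ Id d, ((Icc 1 N).filter (fun u => ∀ p ∈ F, x + u + bn p d ∈ T)).card =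
          ((Id d ×ˢ Icc 1 N).filter (fun q => ∀ p ∈ F, q.1 + q.2 + bn p d ∈ T)).card := by
        rw [card_filter, sum_product]
        apply sum_congr rfl
        intro x _
        rw [card_filter]
      rw [h3]
      unfold ct
      have hNc : N * (T.filter (fun n => ∀ p ∈ F, n + bn p d ∈ T)).card =
          (Icc 1 N ×ˢ T.filter (fun n => ∀ p ∈ F, n + bn p d ∈ T)).card := by
        rw [card_product, Nat.card_Icc, Nat.add_sub_cancel]
      rw [hNc]
      apply card_le_card_of_injOn (fun q => (q.2, q.1 + q.2))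
      · intro q hq
        rw [mem_coe, mem_filter, mem_product] at hq
        rw [mem_coe, mem_product, mem_filter]
        refine ⟨hq.1.2, ?_, hq.2⟩
        obtain ⟨p0, hp0, hp00⟩ := hF
        have := hq.2 p0 hp0
        have hbn0 : bn p0 d = 0 := by
          unfold bn
          exact sum_eq_zero fun i _ => by rw [hp00 i, zero_mul]
        rwa [hbn0, add_zero] at this
      · intro q _ q' _ h
        simp only [Prod.mk.injEq] at h
        exact Prod.ext (by omega) h.1
    have h3 : (∑ x ∈ Id d, (((Icc 1 N).filter (fun u => ∀ p ∈ F, x + u + bn p d ∈ T)).card : ℝ)) ≤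
        N * (ct T F d : ℝ) := by exact_mod_cast h2
    have h4 := h1.trans (mul_le_mul_of_nonneg_left h3 (pow_nonneg hw _))
    have h5 : ((Id d).card : ℝ) * c * N ≤ w ^ F.card * (ct T F d : ℝ) * N := by linarith
    have h6 := le_of_mul_le_mul_right h5 hN0
    refine le_trans ?_ h6
    calc c2 / 2 * c * I.card = (c2 / 2 * I.card) * c := by ring
      _ ≤ _ := mul_le_mul_of_nonneg_right hd hc.le
  -- double counting
  set U := Fintype.piFinset (fun _ : Fin m => Icc 1 N) with hU
  have hUc : (U.card : ℝ) = (N : ℝ) ^ m := by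
    rw [hU, Fintype.card_piFinset]
    simp
  have hdc : (I.card : ℝ) * (c2 * (N : ℝ) ^ m) ≤ ∑ d ∈ U, ((Id d).card : ℝ) := by
    have h1 : ∑ d ∈ U, (Id d).card = ∑ x ∈ I, (GQ m k N c (fX T w N x)).card := by
      have h2 : ∀ d, (Id d).card = ∑ x ∈ I, if d ∈ GQ m k N c (fX T w N x) then 1 else 0 := by
        intro d
        rw [hId, card_filter]
      simp_rw [h2]
      rw [sum_comm]
      apply sum_congr rfl
      intro x _
      rw [← card_filter]
      congr 1
      ext d
      rw [mem_filter]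
      constructor
      · exact fun h => h.2
      · intro h
        refine ⟨?_, h⟩
        unfold GQ at h
        exact (mem_filter.1 h).1
    have h3 : ∑ d ∈ U, ((Id d).card : ℝ) = ∑ x ∈ I, ((GQ m k N c (fX T w N x)).card : ℝ) := by
      exact_mod_cast h1
    rw [h3, ← nsmul_eq_mul, ← sum_const]
    apply sum_le_sum
    intro x hx
    have h4 := hI x hx
    have h5 := GQ_card (m := m) (N := N) hk (T := T) (w := w) hc (x := x)
    have h6 : ((GB m k N c (fX T w N x)).card : ℝ) * N ≤
        2 ^ m * ((GQ m k N c (fX T w N x)).card : ℝ) * N + m * (N : ℝ) ^ m := by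
      exact_mod_cast h5
    have h7 : c * (N : ℝ) ^ m * N ≤ 2 ^ m * ((GQ m k N c (fX T w N x)).card : ℝ) * N + m * (N : ℝ) ^ m :=
      (mul_le_mul_of_nonneg_right h4 hN0.le).trans h6
    have h8 : 2 * (m : ℝ) * (N : ℝ) ^ m ≤ c * N * (N : ℝ) ^ m := mul_le_mul_of_nonneg_right hN (by positivity)
    have h9 : c / 2 * (N : ℝ) ^ m * N ≤ 2 ^ m * ((GQ m k N c (fX T w N x)).card : ℝ) * N := by linarith
    have h10 : c / 2 * (N : ℝ) ^ m ≤ 2 ^ m * ((GQ m k N c (fX T w N x)).card : ℝ) := le_of_mul_le_mul_right h9 hN0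
    have h11 : 2 ^ m * (c2 * (N : ℝ) ^ m) ≤ 2 ^ m * ((GQ m k N c (fX T w N x)).card : ℝ) := by
      refine le_trans (le_of_eq ?_) h10
      rw [hc2, pow_succ]
      field_simp
    exact le_of_mul_le_mul_left h11 (by positivity)
  set P := U.filter (fun d => c2 / 2 * I.card ≤ ((Id d).card : ℝ)) with hP
  have h1 : ∑ d ∈ U, ((Id d).card : ℝ) ≤ P.card * I.card + (N : ℝ) ^ m * (c2 / 2 * I.card) := by
    rw [← sum_filter_add_sum_filter_not U (fun d => c2 / 2 * I.card ≤ ((Id d).card : ℝ))]
    apply add_le_add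
    · rw [← nsmul_eq_mul, ← sum_const]
      apply sum_le_sum
      intro d _
      rw [hId]
      exact_mod_cast card_filter_le _ _
    · calc ∑ d ∈ U.filter (fun d => ¬ c2 / 2 * I.card ≤ ((Id d).card : ℝ)), ((Id d).card : ℝ)
          ≤ ∑ d ∈ U.filter (fun d => ¬ c2 / 2 * I.card ≤ ((Id d).card : ℝ)), (c2 / 2 * I.card : ℝ) := by
            apply sum_le_sum
            intro d hd
            exact (not_le.1 (mem_filter.1 hd).2).le
        _ = ((U.filter (fun d => ¬ c2 / 2 * I.card ≤ ((Id d).card : ℝ))).card : ℝ) * (c2 / 2 * I.card) := by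
            rw [sum_const, nsmul_eq_mul]
        _ ≤ (N : ℝ) ^ m * (c2 / 2 * I.card) := by
            apply mul_le_mul_of_nonneg_right _ (by positivity)
            rw [← hUc]
            exact_mod_cast card_filter_le _ _
  have h2 : c2 / 2 * (N : ℝ) ^ m * I.card ≤ P.card * I.card := by linarith
  have h3 : c2 / 2 * (N : ℝ) ^ m ≤ P.card := le_of_mul_le_mul_right h2 hI0'
  refine h3.trans ?_
  apply Nat.cast_le.2
  apply card_le_card
  intro d hd
  rw [hP, mem_filter] at hd
  rw [mem_filter]
  exact ⟨hd.1, hsing d hd.2⟩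

end Pool.Agent.X26.GP
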