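import Pool.Agent.X26.GP.Sg

/-!
# All patterns in a common generalised progression: sets avoiding given classes
-/

set_option autoImplicit false

namespace Pool.Agent.X26.GP

open Finset
open Pool.Agent.Y843.HS
open Pool.Agent.Y843.AC (OK Av)

variable {m k : ℕ}

/-- the classes of the `u` for which some `u + ∑ p_i d_i`, `p ∈ F`, is in a class of `Z q` -/
def ZF (Z : ℕ → Finset ℕ) (d : Fin m → ℕ) (F : Finset (Bx m k)) (q : ℕ) : Finset ℕ :=
  (range q).filter (fun u => ∃ p ∈ F, (u + bn p d) % q ∈ Z q)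

theorem ZF_lt (Z : ℕ → Finset ℕ) (d : Fin m → ℕ) (F : Finset (Bx m k)) (q : ℕ) : ∀ u ∈ ZF Z d F q, u < q :=
  fun u hu => mem_range.1 (mem_filter.1 hu).1

/-- without collisions -/
theorem ZF_good {Z : ℕ → Finset ℕ} {d : Fin m → ℕ} {F : Finset (Bx m k)} {q : ℕ} (hq : 0 < q)
    (hZ : ∀ c ∈ Z q, c < q)
    (h : ∀ u ∈ F, ∀ v ∈ F, u ≠ v → ¬ ∃ c ∈ Z q, ∃ c' ∈ Z q, (q : ℤ) ∣ ((bn u d : ℤ) - bn v d) - ((c : ℤ) - c')) :
    (ZF Z d F q).card = F.card * (Z q).card := by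
  classical
  rw [← card_product]
  symm
  obtain ⟨φ, hφ⟩ : ∃ φ : Bx m k × ℕ → ℕ, φ = fun x => (x.2 + (q - bn x.1 d % q)) % q := ⟨_, rfl⟩
  have hφ1 : ∀ x : Bx m k × ℕ, x.2 < q → (φ x + bn x.1 d) % q = x.2 := by
    intro x hx
    rw [hφ]
    have h1 := Nat.mod_lt (bn x.1 d) hq
    have h2 : (x.2 + (q - bn x.1 d % q)) % q + bn x.1 d ≡ x.2 [MOD q] := by
      have h3 : (x.2 + (q - bn x.1 d % q)) % q + bn x.1 d ≡ (x.2 + (q - bn x.1 d % q)) + bn x.1 d % q [MOD q] :=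
        Nat.ModEq.add (Nat.mod_modEq _ _) (Nat.mod_modEq _ _).symm
      have h4 : (x.2 + (q - bn x.1 d % q)) + bn x.1 d % q = x.2 + q := by omega
      rw [h4] at h3
      refine h3.trans ?_
      unfold Nat.ModEq
      rw [Nat.add_mod_right]
    have h3 : ((x.2 + (q - bn x.1 d % q)) % q + bn x.1 d) % q = x.2 % q := h2
    rw [Nat.mod_eq_of_lt hx] at h3
    exact h3
  have hφ2 : ∀ x : Bx m k × ℕ, φ x < q := by
    intro x
    rw [hφ]
    exact Nat.mod_lt _ hq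
  apply card_bij (fun x _ => φ x)
  · intro x hx
    rw [mem_product] at hx
    unfold ZF
    rw [mem_filter, mem_range]
    refine ⟨hφ2 x, x.1, hx.1, ?_⟩
    rw [hφ1 x (hZ _ hx.2)]
    exact hx.2
  · intro x hx y hy hxy
    rw [mem_product] at hx hy
    have e1 := hφ1 x (hZ _ hx.2)
    have e2 := hφ1 y (hZ _ hy.2)
    rw [hxy] at e1
    by_cases hc : x.1 = y.1
    · refine Prod.ext hc ?_
      rw [← e1, ← e2, hc]
    · exfalso
      apply h x.1 hx.1 y.1 hy.1 hc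
      refine ⟨x.2, hx.2, y.2, hy.2, ?_⟩
      have g1 : (q : ℤ) ∣ ((φ y : ℤ) + bn x.1 d) - x.2 := by
        have : (φ y + bn x.1 d) ≡ x.2 [MOD q] := by
          unfold Nat.ModEq
          rw [e1, Nat.mod_eq_of_lt (hZ _ hx.2)]
        have := (Nat.modEq_iff_dvd.1 this.symm)
        push_cast at this
        exact this
      have g2 : (q : ℤ) ∣ ((φ y : ℤ) + bn y.1 d) - y.2 := by
        have : (φ y + bn y.1 d) ≡ y.2 [MOD q] := by
          unfold Nat.ModEq
          rw [e2, Nat.mod_eq_of_lt (hZ _ hy.2)]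
        have := (Nat.modEq_iff_dvd.1 this.symm)
        push_cast at this
        exact this
      have g3 := dvd_sub g1 g2
      have e : ((φ y : ℤ) + bn x.1 d) - x.2 - (((φ y : ℤ) + bn y.1 d) - y.2) =
          ((bn x.1 d : ℤ) - bn y.1 d) - ((x.2 : ℤ) - y.2) := by ring
      rwa [e] at g3
  · intro u hu
    unfold ZF at hu
    rw [mem_filter, mem_range] at hu
    obtain ⟨hu1, p, hp, hu2⟩ := hu
    refine ⟨(p, (u + bn p d) % q), ?_, ?_⟩
    · rw [mem_product]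
      exact ⟨hp, hu2⟩
    · have e1 := hφ1 (p, (u + bn p d) % q) (Nat.mod_lt _ hq)
      have e2 := hφ2 (p, (u + bn p d) % q)
      simp only at e1
      have e3 : φ (p, (u + bn p d) % q) + bn p d ≡ u + bn p d [MOD q] := e1
      have e4 : φ (p, (u + bn p d) % q) ≡ u [MOD q] := Nat.ModEq.add_right_cancel' _ e3
      have e5 : φ (p, (u + bn p d) % q) % q = u % q := e4
      rwa [Nat.mod_eq_of_lt e2, Nat.mod_eq_of_lt hu1] at e5

/-- the product for the pattern -/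
theorem VF_le {K r s Y : ℕ} (hK : K = k ^ m) (hs : 2 * r ≤ s) (hs1 : 1 ≤ s) {Z : ℕ → Finset ℕ}
    (hZ : ∀ q ∈ Pr 0 Y, (Z q).card ≤ r ∧ (Z q).card < q ∧ ∀ c ∈ Z q, c < q) (d : Fin m → ℕ)
    (F : Finset (Bx m k)) :
    VV (ZF Z d F) 0 Y ≤ ((s : ℝ) ^ K) ^ s *
      (∏ l ∈ (univ : Finset (Bx m k)).offDiag, Gd (K * (2 * r) * (1 + 2 * r) ^ K) Z s Y ((bn l.1 d : ℤ) - bn l.2 d)) *
      VV Z 0 Y ^ F.card := by
  classical
  have hFk : F.card ≤ K := by
    have := card_le_univ F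
    rwa [Fintype.card_fun, Fintype.card_fin, Fintype.card_fin, ← hK] at this
  have hs1' : (1 : ℝ) ≤ s := by exact_mod_cast hs1
  have hz : ∀ q ∈ Pr 0 Y, (0 : ℝ) < 1 - ((Z q).card : ℝ) / q := by
    intro q hq
    have h1 := (hZ q hq).2.1
    have hq0 : (0 : ℝ) < q := by exact_mod_cast (Pr_prime hq).pos
    have h2 : ((Z q).card : ℝ) / q < 1 := by
      rw [div_lt_one hq0]
      exact_mod_cast h1
    linarith
  have hzF : ∀ q ∈ Pr 0 Y, (0 : ℝ) ≤ 1 - ((ZF Z d F q).card : ℝ) / q := fun q _ => one_sub_nonneg (ZF_lt Z d F q)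
  have hzF1 : ∀ q ∈ Pr 0 Y, 1 - ((ZF Z d F q).card : ℝ) / q ≤ 1 := by
    intro q _
    have : (0 : ℝ) ≤ ((ZF Z d F q).card : ℝ) / q := by positivity
    linarith
  obtain ⟨Q, hQ⟩ : ∃ Q : ℕ → Prop, Q = fun q : ℕ => ∃ l ∈ (univ : Finset (Bx m k)).offDiag,
    ∃ c ∈ Z q, ∃ c' ∈ Z q, (q : ℤ) ∣ ((bn l.1 d : ℤ) - bn l.2 d) - ((c : ℤ) - c') := ⟨_, rfl⟩
  obtain ⟨C, hC⟩ : ∃ C : ℕ, C = K * (2 * r) * (1 + 2 * r) ^ K := ⟨_, rfl⟩
  rw [← hC]
  -- the local bound
  have hloc : ∀ q ∈ Pr 0 Y, 1 - ((ZF Z d F q).card : ℝ) / q ≤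
      ((if q ≤ s then (s : ℝ) ^ K else 1) * (if s < q ∧ Q q then 1 + (C : ℝ) / q else 1)) *
        (1 - ((Z q).card : ℝ) / q) ^ F.card := by
    intro q hq
    have hqp := Pr_prime hq
    have hq0 : (0 : ℝ) < q := by exact_mod_cast hqp.pos
    have hq1 : (1 : ℝ) ≤ q := by exact_mod_cast hqp.one_lt.le
    have h1 := hzF1 q hq
    have h2 := hz q hq
    by_cases hqs : q ≤ s
    · rw [if_pos hqs, if_neg (by omega), mul_one]
      have h3 : 1 / (q : ℝ) ≤ 1 - ((Z q).card : ℝ) / q := by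
        have h4 : ((Z q).card : ℝ) + 1 ≤ q := by exact_mod_cast (hZ q hq).2.1
        rw [div_le_iff₀ hq0]
        have h5 : (1 - ((Z q).card : ℝ) / q) * q = q - (Z q).card := by
          field_simp
        rw [h5]
        linarith
      have h4 : (1 : ℝ) ≤ (s : ℝ) ^ F.card * (1 - ((Z q).card : ℝ) / q) ^ F.card := by
        rw [← mul_pow]
        apply one_le_pow₀
        have h5 : (q : ℝ) ≤ s := by exact_mod_cast hqs
        calc (1 : ℝ) = q * (1 / q) := by field_simp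
          _ ≤ s * (1 - ((Z q).card : ℝ) / q) := mul_le_mul h5 h3 (by positivity) (by positivity)
      refine h1.trans (h4.trans ?_)
      apply mul_le_mul_of_nonneg_right _ (by positivity)
      exact pow_le_pow_right₀ hs1' hFk
    · rw [if_neg hqs, one_mul]
      by_cases hqQ : Q q
      · rw [if_pos ⟨by omega, hqQ⟩]
        have h3 : (1 : ℝ) ≤ (1 + (2 * r : ℝ) / q) * (1 - ((Z q).card : ℝ) / q) := by
          have h4 : ((Z q).card : ℝ) / q ≤ r / q :=
            div_le_div_of_nonneg_right (by exact_mod_cast (hZ q hq).1) hq0.le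
          have h5 : (2 * r : ℝ) / q ≤ 1 := by
            rw [div_le_one hq0]
            exact_mod_cast (show 2 * r ≤ q by omega)
          have h6 : (0 : ℝ) ≤ r / q := by positivity
          have h7 : (1 + (2 * r : ℝ) / q) * (1 - (r : ℝ) / q) ≤ (1 + (2 * r : ℝ) / q) * (1 - ((Z q).card : ℝ) / q) :=
            mul_le_mul_of_nonneg_left (by linarith) (by positivity)
          refine le_trans ?_ h7
          have h8 : (1 + (2 * r : ℝ) / q) * (1 - (r : ℝ) / q) = 1 + (r / q) * (1 - (2 * r : ℝ) / q) := by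
            field_simp
            ring
          rw [h8]
          have : 0 ≤ ((r : ℝ) / q) * (1 - (2 * r : ℝ) / q) := mul_nonneg h6 (by linarith)
          linarith
        have h4 : (1 : ℝ) ≤ (1 + (2 * r : ℝ) / q) ^ F.card * (1 - ((Z q).card : ℝ) / q) ^ F.card := by
          rw [← mul_pow]
          exact one_le_pow₀ h3
        refine h1.trans (h4.trans ?_)
        apply mul_le_mul_of_nonneg_right _ (by positivity)
        have h5 : (1 + (2 * r : ℝ) / q) ^ F.card ≤ (1 + (2 * r : ℝ) / q) ^ K := by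
          apply pow_le_pow_right₀ _ hFk
          have : (0 : ℝ) ≤ (2 * r : ℝ) / q := by positivity
          linarith
        refine h5.trans ?_
        have h6 := pow_fac_le (2 * r) K q hqp.one_lt.le
        rw [hC]
        push_cast at h6 ⊢
        exact h6
      · rw [if_neg (fun h => hqQ h.2), one_mul]
        have h3 : (ZF Z d F q).card = F.card * (Z q).card := by
          apply ZF_good hqp.pos (hZ q hq).2.2
          intro u _ v _ huv hcon
          apply hqQ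
          rw [hQ]
          exact ⟨(u, v), by simpa using huv, hcon⟩
        rw [h3]
        have h4 : (1 : ℝ) + (F.card : ℝ) * (-(((Z q).card : ℝ) / q)) ≤ (1 + -(((Z q).card : ℝ) / q)) ^ F.card := by
          apply one_add_mul_le_pow
          linarith
        push_cast
        calc 1 - (F.card : ℝ) * ((Z q).card : ℝ) / q = (1 : ℝ) + (F.card : ℝ) * (-(((Z q).card : ℝ) / q)) := by ring
          _ ≤ _ := h4
          _ = _ := by ring
  unfold VV
  refine (prod_le_prod hzF hloc).trans ?_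
  rw [prod_mul_distrib, prod_mul_distrib, prod_pow]
  apply mul_le_mul_of_nonneg_right _ (by
    apply pow_nonneg
    exact prod_nonneg fun q hq => (hz q hq).le)
  apply mul_le_mul
  · rw [← prod_filter, prod_const]
    apply pow_le_pow_right₀ (one_le_pow₀ hs1')
    have h2 : (Pr 0 Y).filter (fun q => q ≤ s) ⊆ Icc 1 s := by
      intro p hp
      rw [mem_filter, Pr_mem] at hp
      rw [mem_Icc]
      omega
    have h3 := card_le_card h2
    rwa [Nat.card_Icc, Nat.add_sub_cancel] at h3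
  · rw [← prod_filter]
    calc ∏ q ∈ (Pr 0 Y).filter (fun q => s < q ∧ Q q), (1 + (C : ℝ) / q)
        ≤ ∏ q ∈ (univ : Finset (Bx m k)).offDiag.biUnion (fun l => Dp Z s Y ((bn l.1 d : ℤ) - bn l.2 d)),
            (1 + (C : ℝ) / q) := by
          apply prod_fac_mono
          intro q hq
          rw [mem_filter, Pr_mem, hQ] at hq
          obtain ⟨⟨⟨_, hq2⟩, hq3⟩, hq4, l, hl, hq5⟩ := hq
          rw [mem_biUnion]
          refine ⟨l, hl, ?_⟩
          unfold Dp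
          rw [mem_filter, Pr_mem]
          exact ⟨⟨⟨hq4, hq2⟩, hq3⟩, hq5⟩
      _ ≤ _ := prod_biUnion_le _ _ _
  · exact zero_le_one.trans (by
      rw [← prod_filter]
      exact one_le_prod_fac _ _)
  · positivity

/-- the difference is rarely one for which `Gd` is large -/
theorem few_GdZ {Z : ℕ → Finset ℕ} {p q : Bx m k} (hpq : p ≠ q) {C s R D N' : ℕ} (hD : 1 ≤ D)
    (hN' : k * m * D < N') {ε : ℝ}
    (h : (∑ h ∈ Ioo (-(N' : ℤ)) N', (Gd C Z s R h - 1)) ≤ ε) :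
    (((Fintype.piFinset (fun _ : Fin m => Icc 1 D)).filter
      (fun d => 2 < Gd C Z s R ((bn p d : ℤ) - bn q d))).card : ℝ) * D ≤ ε * (D : ℝ) ^ m := by
  classical
  set U := Fintype.piFinset (fun _ : Fin m => Icc 1 D) with hU
  have hD0 : (0 : ℝ) < D := by exact_mod_cast hD
  have hmem : ∀ d ∈ U, ((bn p d : ℤ) - bn q d) ∈ Ioo (-(N' : ℤ)) N' := by
    intro d hd
    have h1 := bn_le hd p
    have h2 := bn_le hd q
    rw [mem_Ioo]
    constructor <;> omega
  have h3 : ((U.filter (fun d => 2 < Gd C Z s R ((bn p d : ℤ) - bn q d))).card : ℝ) ≤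
      ∑ d ∈ U, (Gd C Z s R ((bn p d : ℤ) - bn q d) - 1) := by
    rw [card_eq_sum_ones, Nat.cast_sum]
    refine le_trans (sum_le_sum (g := fun d => Gd C Z s R ((bn p d : ℤ) - bn q d) - 1) ?_) ?_
    · intro d hd
      rw [mem_filter] at hd
      push_cast
      linarith [hd.2]
    · apply sum_le_sum_of_subset_of_nonneg (filter_subset _ _)
      intro d _ _
      have := one_le_Gd (Z := Z) (s := s) (R := R) C ((bn p d : ℤ) - bn q d)
      linarith
  have h4 : ∑ d ∈ U, (Gd C Z s R ((bn p d : ℤ) - bn q d) - 1) =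
      ∑ h ∈ Ioo (-(N' : ℤ)) N', ((U.filter (fun d => (bn p d : ℤ) - bn q d = h)).card : ℝ) *
        (Gd C Z s R h - 1) := by
    rw [← sum_fiberwise_of_maps_to hmem]
    apply sum_congr rfl
    intro h _
    rw [← nsmul_eq_mul, ← sum_const]
    apply sum_congr rfl
    intro d hd
    rw [(mem_filter.1 hd).2]
  rw [h4] at h3
  refine (mul_le_mul_of_nonneg_right h3 hD0.le).trans ?_
  rw [sum_mul]
  calc ∑ h ∈ Ioo (-(N' : ℤ)) N', ((U.filter (fun d => (bn p d : ℤ) - bn q d = h)).card : ℝ) *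
        (Gd C Z s R h - 1) * D ≤ ∑ h ∈ Ioo (-(N' : ℤ)) N', (Gd C Z s R h - 1) * (D : ℝ) ^ m := by
        apply sum_le_sum
        intro h _
        have h5 : ((U.filter (fun d => (bn p d : ℤ) - bn q d = h)).card : ℝ) * D ≤ (D : ℝ) ^ m := by
          exact_mod_cast fib hpq D h
        have h6 : 0 ≤ Gd C Z s R h - 1 := by
          have := one_le_Gd (Z := Z) (s := s) (R := R) C h
          linarith
        nlinarith
    _ = (∑ h ∈ Ioo (-(N' : ℤ)) N', (Gd C Z s R h - 1)) * (D : ℝ) ^ m := by rw [sum_mul]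
    _ ≤ _ := mul_le_mul_of_nonneg_right h (by positivity)

/-- few parameters have a large product -/
theorem few_bigZ (m k r : ℕ) {κ ε : ℝ} (hκ : 0 < κ) (hκ1 : κ ≤ 1) (hε : 0 < ε) : ∃ C : ℝ, 0 < C ∧ ∃ B X₀ : ℕ,
    ∀ X D : ℕ, X₀ ≤ X → Real.log X ^ B ≤ D → ∀ Z : ℕ → Finset ℕ, OK r κ X Z →
    ∃ E : Finset (Fin m → ℕ), (E.card : ℝ) ≤ ε * (D : ℝ) ^ m ∧
      ∀ d ∈ Fintype.piFinset (fun _ : Fin m => Icc 1 D), d ∉ E →
      (∀ p q : Bx m k, p ≠ q → bn p d ≠ bn q d) ∧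
      ∀ F : Finset (Bx m k), VV (ZF Z d F) 0 ⌊(X : ℝ) ^ κ⌋₊ ≤ C * VV Z 0 ⌊(X : ℝ) ^ κ⌋₊ ^ F.card := by
  classical
  obtain ⟨K, hK⟩ : ∃ K : ℕ, K = k ^ m := ⟨_, rfl⟩
  obtain ⟨C₀, hC₀⟩ : ∃ C₀ : ℕ, C₀ = K * (2 * r) * (1 + 2 * r) ^ K := ⟨_, rfl⟩
  obtain ⟨ε', hε'⟩ : ∃ ε' : ℝ, ε' = ε / (2 * (K ^ 2 + 1) * (2 * (k * m + 2))) := ⟨_, rfl⟩
  have hε'0 : 0 < ε' := by rw [hε']; positivity
  obtain ⟨s₀, B₀, X₁, h⟩ := Pool.Agent.Y79.HS.gav r C₀ ε' hε'0
  obtain ⟨s, hs⟩ : ∃ s : ℕ, s = max s₀ (2 * r + 1) := ⟨_, rfl⟩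
  obtain ⟨X₂, hX₂⟩ := log_ge (max 1 (2 * (K ^ 2 + 1) / ε))
  have hs1 : (1 : ℝ) ≤ s := by exact_mod_cast (show 1 ≤ s by omega)
  refine ⟨((s : ℝ) ^ K) ^ s * 2 ^ (K ^ 2), by positivity, B₀ + 1, max (max X₁ X₂) 2, ?_⟩
  intro X D hX hBD Z hZ
  have hX1 : X₁ ≤ X := (le_max_left _ _).trans ((le_max_left _ _).trans hX)
  have hX2 := hX₂ X ((le_max_right _ _).trans ((le_max_left _ _).trans hX))
  have hX3 : 2 ≤ X := (le_max_right _ _).trans hX
  have hl1 : 1 ≤ Real.log X := (le_max_left _ _).trans hX2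
  have hl3 : 2 * (K ^ 2 + 1) / ε ≤ Real.log X := (le_max_right _ _).trans hX2
  have hX0 : (0 : ℝ) < X := by exact_mod_cast (show 0 < X by omega)
  have hX1' : (1 : ℝ) ≤ X := by exact_mod_cast (show 1 ≤ X by omega)
  have hDl : Real.log X ≤ D := by
    refine le_trans ?_ hBD
    calc Real.log X = Real.log X ^ 1 := (pow_one _).symm
      _ ≤ _ := pow_le_pow_right₀ hl1 (by omega)
  have hD1' : (1 : ℝ) ≤ D := hl1.trans hDl
  have hD1 : 1 ≤ D := by exact_mod_cast hD1'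
  obtain ⟨N', hN'⟩ : ∃ N' : ℕ, N' = (k * m + 1) * D + 1 := ⟨_, rfl⟩
  have hND : D ≤ (k * m + 1) * D := Nat.le_mul_of_pos_left _ (Nat.succ_pos _)
  have hN'0 : (0 : ℝ) < N' := by rw [hN']; positivity
  obtain ⟨Y, hY⟩ : ∃ Y : ℕ, Y = ⌊(X : ℝ) ^ κ⌋₊ := ⟨_, rfl⟩
  rw [← hY]
  have hYX : Y ≤ X := by
    have h1 : (X : ℝ) ^ κ ≤ X := by
      calc (X : ℝ) ^ κ ≤ (X : ℝ) ^ (1 : ℝ) := Real.rpow_le_rpow_of_exponent_le hX1' hκ1
        _ = X := Real.rpow_one _
    have h2 : (Y : ℝ) ≤ (X : ℝ) ^ κ := by rw [hY]; exact Nat.floor_le (by positivity)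
    exact_mod_cast h2.trans h1
  have hmemY : ∀ p ∈ Pr 0 Y, (Z p).card ≤ r ∧ (Z p).card < p ∧ ∀ c ∈ Z p, c < p := by
    intro p hp
    rw [Pr_mem] at hp
    apply hZ p hp.2
    have h2 : (Y : ℝ) ≤ (X : ℝ) ^ κ := by rw [hY]; exact Nat.floor_le (by positivity)
    have h3 : (p : ℝ) ≤ Y := by exact_mod_cast hp.1.2
    exact h3.trans h2
  have hB' : Real.log X ^ B₀ ≤ N' := by
    calc Real.log X ^ B₀ ≤ Real.log X ^ (B₀ + 1) := pow_le_pow_right₀ hl1 (by omega)
      _ ≤ D := hBD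
      _ ≤ N' := by
        rw [hN']
        have : D ≤ (k * m + 1) * D + 1 := by omega
        exact_mod_cast this
  have h1 := h s Y X N' (by rw [hs]; exact le_max_left _ _) hX1 hYX hB' Z (by
    intro p hp
    have h2 := hmemY p (by
      rw [Pr_mem] at hp ⊢
      exact ⟨⟨by omega, hp.1.2⟩, hp.2⟩)
    exact ⟨h2.1, h2.2.2⟩)
  rw [div_le_iff₀ hN'0] at h1
  set U := Fintype.piFinset (fun _ : Fin m => Icc 1 D) with hU
  set O := (univ : Finset (Bx m k)).offDiag with hO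
  have hOc : (O.card : ℝ) ≤ (K : ℝ) ^ 2 := by
    have h2 : O.card ≤ K ^ 2 := by
      rw [hO, offDiag_card, card_univ, Fintype.card_fun, Fintype.card_fin, Fintype.card_fin, ← hK]
      have : K * K = K ^ 2 := by ring
      omega
    exact_mod_cast h2
  have hD0 : (0 : ℝ) < D := by linarith
  refine ⟨O.biUnion (fun l => U.filter (fun d => (bn l.1 d : ℤ) - bn l.2 d = 0)) ∪
    O.biUnion (fun l => U.filter (fun d => 2 < Gd C₀ Z s Y ((bn l.1 d : ℤ) - bn l.2 d))), ?_, ?_⟩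
  · have h2 : ((O.biUnion (fun l => U.filter (fun d => (bn l.1 d : ℤ) - bn l.2 d = 0)) ∪
        O.biUnion (fun l => U.filter (fun d => 2 < Gd C₀ Z s Y ((bn l.1 d : ℤ) - bn l.2 d)))).card : ℝ) * D ≤
        (∑ l ∈ O, (((U.filter (fun d => (bn l.1 d : ℤ) - bn l.2 d = 0)).card : ℝ) * D +
          ((U.filter (fun d => 2 < Gd C₀ Z s Y ((bn l.1 d : ℤ) - bn l.2 d))).card : ℝ) * D)) := by
      have h3 := (card_union_le (O.biUnion (fun l => U.filter (fun d => (bn l.1 d : ℤ) - bn l.2 d = 0)))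
        (O.biUnion (fun l => U.filter (fun d => 2 < Gd C₀ Z s Y ((bn l.1 d : ℤ) - bn l.2 d))))).trans
        (Nat.add_le_add card_biUnion_le card_biUnion_le)
      rw [← sum_add_distrib] at h3
      have h4 : ((O.biUnion (fun l => U.filter (fun d => (bn l.1 d : ℤ) - bn l.2 d = 0)) ∪
        O.biUnion (fun l => U.filter (fun d => 2 < Gd C₀ Z s Y ((bn l.1 d : ℤ) - bn l.2 d)))).card : ℝ) ≤
        ∑ l ∈ O, (((U.filter (fun d => (bn l.1 d : ℤ) - bn l.2 d = 0)).card : ℝ) +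
          ((U.filter (fun d => 2 < Gd C₀ Z s Y ((bn l.1 d : ℤ) - bn l.2 d))).card : ℝ)) := by
        exact_mod_cast h3
      refine (mul_le_mul_of_nonneg_right h4 hD0.le).trans (le_of_eq ?_)
      rw [sum_mul]
      exact sum_congr rfl fun l _ => add_mul _ _ _
    have h3 : ∀ l ∈ O, ((U.filter (fun d => (bn l.1 d : ℤ) - bn l.2 d = 0)).card : ℝ) * D +
          ((U.filter (fun d => 2 < Gd C₀ Z s Y ((bn l.1 d : ℤ) - bn l.2 d))).card : ℝ) * D ≤
          (D : ℝ) ^ m + ε' * N' * (D : ℝ) ^ m := by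
      intro l hl
      have hne : l.1 ≠ l.2 := by
        rw [hO, mem_offDiag] at hl
        exact hl.2.2
      have h4 : ((U.filter (fun d => (bn l.1 d : ℤ) - bn l.2 d = 0)).card : ℝ) * D ≤ (D : ℝ) ^ m := by
        exact_mod_cast fib hne D 0
      have h5 := few_GdZ (Z := Z) hne (C := C₀) (s := s) (R := Y) hD1 (N' := N') (by
        rw [hN', add_mul]
        omega) h1
      linarith
    have h4 := h2.trans (sum_le_sum h3)
    rw [sum_const, nsmul_eq_mul] at h4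
    have h5 : (O.card : ℝ) * ((D : ℝ) ^ m + ε' * N' * (D : ℝ) ^ m) ≤
        K ^ 2 * ((D : ℝ) ^ m + ε' * N' * (D : ℝ) ^ m) :=
      mul_le_mul_of_nonneg_right hOc (by positivity)
    have h6 : (N' : ℝ) ≤ 2 * (k * m + 2) * D := by
      have : N' ≤ 2 * (k * m + 2) * D := by
        rw [hN']
        have e1 : 2 * (k * m + 2) * D = (k * m + 1) * D + (k * m + 3) * D := by ring
        have e2 : 1 ≤ (k * m + 3) * D := Nat.mul_pos (by omega) hD1
        omega
      exact_mod_cast this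
    have h7 : ε' * N' ≤ ε / (2 * (K ^ 2 + 1)) * D := by
      calc ε' * N' ≤ ε' * (2 * (k * m + 2) * D) := mul_le_mul_of_nonneg_left h6 hε'0.le
        _ = ε / (2 * (K ^ 2 + 1)) * D := by
          rw [hε']
          field_simp
    have h8 : 1 ≤ ε / (2 * (K ^ 2 + 1)) * D := by
      have h9 : 2 * (K ^ 2 + 1) / ε ≤ D := hl3.trans hDl
      rw [div_le_iff₀ hε] at h9
      rw [div_mul_eq_mul_div, le_div_iff₀ (by positivity)]
      linarith
    have h9 : (K : ℝ) ^ 2 * ((D : ℝ) ^ m + ε' * N' * (D : ℝ) ^ m) ≤ ε * (D : ℝ) ^ m * D := by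
      have h10 : (D : ℝ) ^ m + ε' * N' * (D : ℝ) ^ m ≤ 2 * (ε / (2 * (K ^ 2 + 1)) * D) * (D : ℝ) ^ m := by
        have : (0 : ℝ) ≤ (D : ℝ) ^ m := by positivity
        nlinarith
      calc (K : ℝ) ^ 2 * ((D : ℝ) ^ m + ε' * N' * (D : ℝ) ^ m)
          ≤ (K ^ 2 + 1) * ((D : ℝ) ^ m + ε' * N' * (D : ℝ) ^ m) :=
            mul_le_mul_of_nonneg_right (by linarith) (by positivity)
        _ ≤ (K ^ 2 + 1) * (2 * (ε / (2 * (K ^ 2 + 1)) * D) * (D : ℝ) ^ m) :=
            mul_le_mul_of_nonneg_left h10 (by positivity)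
        _ = _ := by field_simp
    exact le_of_mul_le_mul_right ((h4.trans h5).trans h9) hD0
  · intro d hd hdE
    rw [mem_union, not_or, mem_biUnion, mem_biUnion] at hdE
    push Not at hdE
    obtain ⟨hdE1, hdE2⟩ := hdE
    have hinj : ∀ p q : Bx m k, p ≠ q → bn p d ≠ bn q d := by
      intro p q hpq heq
      apply hdE1 (p, q) (by rw [hO, mem_offDiag]; exact ⟨mem_univ _, mem_univ _, hpq⟩)
      rw [mem_filter]
      refine ⟨hd, ?_⟩
      show (bn p d : ℤ) - bn q d = 0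
      rw [heq, sub_self]
    refine ⟨hinj, fun F => ?_⟩
    have h3 := VF_le (Y := Y) hK (show 2 * r ≤ s by omega) (show 1 ≤ s by omega) hmemY d F
    have hV0 : 0 ≤ VV Z 0 Y := by
      unfold VV
      exact prod_nonneg fun q hq => one_sub_nonneg (hmemY q hq).2.2
    refine h3.trans ?_
    apply mul_le_mul_of_nonneg_right _ (pow_nonneg hV0 _)
    apply mul_le_mul_of_nonneg_left _ (by positivity)
    rw [← hC₀]
    calc ∏ l ∈ O, Gd C₀ Z s Y ((bn l.1 d : ℤ) - bn l.2 d) ≤ ∏ _l ∈ O, (2 : ℝ) := by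
          apply prod_le_prod
          · intro l _
            exact zero_le_one.trans (one_le_Gd _ _)
          · intro l hl
            by_contra hcon
            apply hdE2 l hl
            rw [mem_filter]
            exact ⟨hd, not_le.1 hcon⟩
      _ = 2 ^ O.card := by rw [prod_const]
      _ ≤ 2 ^ (K ^ 2) := by
          apply pow_le_pow_right₀ (by norm_num)
          exact_mod_cast hOc

end Pool.Agent.X26.GP
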