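import Pool.Agent.X26.GP.Gen

/-!
# All patterns in a common generalised progression: the general theorem
-/

set_option autoImplicit false

namespace Pool.Agent.X26.GP

open Finset
open Pool.Agent.Y843.HS
open Pool.Agent.Y843.AC (OK Av)

variable {m k : ℕ}

/-- the classes of the `u` for which some `u + ∑ f_i d_i`, `f ∈ F`, is in a class of `Z q` -/
def ZP (Z : ℕ → Finset ℕ) (d : Fin m → ℕ) (F : Finset (Fin m → ℕ)) (q : ℕ) : Finset ℕ :=
  (range q).filter (fun u => ∃ f ∈ F, (u + ∑ i, f i * d i) % q ∈ Z q)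

theorem ZP_lt (Z : ℕ → Finset ℕ) (d : Fin m → ℕ) (F : Finset (Fin m → ℕ)) (q : ℕ) : ∀ u ∈ ZP Z d F q, u < q :=
  fun _ hu => mem_range.1 (mem_filter.1 hu).1

theorem ZP_card_le (Z : ℕ → Finset ℕ) (d : Fin m → ℕ) (F : Finset (Fin m → ℕ)) {q : ℕ} (hq : 0 < q) :
    (ZP Z d F q).card ≤ F.card * (Z q).card := by
  classical
  have h1 : ZP Z d F q ⊆ (F ×ˢ Z q).image (fun x => (x.2 + (q - (∑ i, x.1 i * d i) % q)) % q) := by
    intro u hu
    unfold ZP at hu
    rw [mem_filter, mem_range] at hu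
    obtain ⟨hu1, f, hf, hu2⟩ := hu
    rw [mem_image]
    refine ⟨(f, (u + ∑ i, f i * d i) % q), mem_product.2 ⟨hf, hu2⟩, ?_⟩
    show ((u + ∑ i, f i * d i) % q + (q - (∑ i, f i * d i) % q)) % q = u
    obtain ⟨b, hb⟩ : ∃ b : ℕ, b = ∑ i, f i * d i := ⟨_, rfl⟩
    rw [← hb]
    have h2 := Nat.mod_lt b hq
    have h3 : (u + b) % q + (q - b % q) ≡ u [MOD q] := by
      have h4 : (u + b) % q + (q - b % q) ≡ (u + b % q) + (q - b % q) [MOD q] := by
        apply Nat.ModEq.add_right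
        exact (Nat.mod_modEq _ _).trans (Nat.ModEq.add_left _ (Nat.mod_modEq _ _).symm)
      have h5 : (u + b % q) + (q - b % q) = u + q := by omega
      rw [h5] at h4
      refine h4.trans ?_
      unfold Nat.ModEq
      rw [Nat.add_mod_right]
    have h4 : ((u + b) % q + (q - b % q)) % q = u % q := h3
    rwa [Nat.mod_eq_of_lt hu1] at h4
  refine (card_le_card h1).trans (card_image_le.trans ?_)
  rw [card_product]

/-- **the general theorem** -/
theorem gen (m k r : ℕ) {κ δ : ℝ} (hκ : 0 < κ) (hκ1 : κ ≤ 1) (hδ : 0 < δ) : ∃ c : ℝ, 0 < c ∧ ∃ B X₀ : ℕ,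
    ∀ X A D : ℕ, X₀ ≤ X → Real.log X ^ B ≤ D → D ≤ X → ∀ Z : ℕ → Finset ℕ, OK r κ X Z →
    ∀ S : Finset ℕ, S ⊆ Ioc A (A + X) → (∀ n ∈ S, Av κ X Z n) →
    δ * X * VV Z 0 ⌊(X : ℝ) ^ κ⌋₊ ≤ (S.card : ℝ) →
    ∃ G ⊆ Fintype.piFinset (fun _ : Fin m => Icc 1 D), c * (D : ℝ) ^ m ≤ (G.card : ℝ) ∧ ∀ d ∈ G,
      ∀ F : Finset (Fin m → ℕ), (∀ f ∈ F, ∀ i, f i < k) → (fun _ => 0) ∈ F →
      (pat d F).card = F.card ∧
      (∀ q : ℕ, q.Prime → (q : ℝ) ≤ (X : ℝ) ^ κ → (ZP Z d F q).card < q) ∧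
      c * (X * VV (ZP Z d F) 0 ⌊(X : ℝ) ^ κ⌋₊) ≤ ((S.filter (fun n => ∀ f ∈ F, n + ∑ i, f i * d i ∈ S)).card : ℝ) := by
  classical
  obtain ⟨k', hk'⟩ : ∃ k', k' = max k 2 := ⟨_, rfl⟩
  have hk2 : 2 ≤ k' := by omega
  have hkk : k ≤ k' := by omega
  obtain ⟨c, hc, B, X₁, h1⟩ := cntB_all m r k' κ δ hk2 hκ hδ
  obtain ⟨C, hC, B', X₂, h2⟩ := few_bigZ m k' r hκ hκ1 (show (0 : ℝ) < c / 2 by positivity)
  obtain ⟨X₃, hX₃⟩ := log_ge 1
  refine ⟨min (c / 2) (c / C), lt_min (by positivity) (by positivity), max B B', max X₁ (max X₂ X₃), ?_⟩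
  intro X A D hX hBD hDX Z hZ S hSA hSZ hSc
  have hX1 : X₁ ≤ X := (le_max_left _ _).trans hX
  have hX2 : X₂ ≤ X := (le_max_left _ _).trans ((le_max_right _ _).trans hX)
  have hX3 : 1 ≤ Real.log X := hX₃ X ((le_max_right _ _).trans ((le_max_right _ _).trans hX))
  have hB1 : Real.log X ^ B ≤ D := (pow_le_pow_right₀ hX3 (le_max_left _ _)).trans hBD
  have hB2 : Real.log X ^ B' ≤ D := (pow_le_pow_right₀ hX3 (le_max_right _ _)).trans hBD
  have hX0 : (0 : ℝ) < X := by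
    have : 0 < X := Nat.pos_of_ne_zero fun h => by
      rw [h] at hX3
      simp at hX3
      linarith
    exact_mod_cast this
  have h3 := h1 X A D hX1 hB1 hDX Z hZ S hSA hSZ hSc
  obtain ⟨E, hE, h4⟩ := h2 X D hX2 hB2 Z hZ
  obtain ⟨Y, hY⟩ : ∃ Y : ℕ, Y = ⌊(X : ℝ) ^ κ⌋₊ := ⟨_, rfl⟩
  rw [← hY] at h3 ⊢
  have hV0 : 0 < VV Z 0 Y := by
    unfold VV
    apply prod_pos
    intro q hq
    have hq' := Pr_mem.1 hq
    have hYle : (Y : ℝ) ≤ (X : ℝ) ^ κ := by rw [hY]; exact Nat.floor_le (by positivity)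
    have h5 := (hZ q hq'.2 ((by exact_mod_cast hq'.1.2 : (q : ℝ) ≤ Y).trans hYle)).2.1
    have hq0 : (0 : ℝ) < q := by exact_mod_cast hq'.2.pos
    have h6 : ((Z q).card : ℝ) / q < 1 := by
      rw [div_lt_one hq0]
      exact_mod_cast h5
    linarith
  set P := (Fintype.piFinset (fun _ : Fin m => Icc 1 D)).filter (fun d => ∀ F : Finset (Bx m k'),
    (∃ p ∈ F, ∀ i, (p i : ℕ) = 0) → c * X * VV Z 0 Y ^ F.card ≤ (ct S F d : ℝ)) with hP
  refine ⟨P \ E, sdiff_subset.trans (filter_subset _ _), ?_, ?_⟩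
  · have h5 : (P.card : ℝ) ≤ (P \ E).card + E.card := by
      have h6 := card_le_card_sdiff_add_card (s := P) (t := E)
      exact_mod_cast h6
    have h6 : min (c / 2) (c / C) * (D : ℝ) ^ m ≤ c / 2 * (D : ℝ) ^ m :=
      mul_le_mul_of_nonneg_right (min_le_left _ _) (by positivity)
    linarith
  · intro d hd F hF h0
    rw [mem_sdiff, hP, mem_filter] at hd
    obtain ⟨⟨hd1, hd2⟩, hdE⟩ := hd
    obtain ⟨hinj, hSb⟩ := h4 d hd1 hdE
    -- the pattern as a set of indices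
    obtain ⟨v, hv⟩ : ∃ v : Bx m k' → Fin m → ℕ, v = fun p i => (p i : ℕ) := ⟨_, rfl⟩
    have hvi : Function.Injective v := by
      intro p q h
      funext i
      apply Fin.ext
      rw [hv] at h
      exact congrFun h i
    have hbn : ∀ p : Bx m k', bn p d = ∑ i, v p i * d i := by
      intro p
      rw [hv]
      rfl
    obtain ⟨F1, hF1⟩ : ∃ F1 : Finset (Bx m k'), F1 = univ.filter (fun p => v p ∈ F) := ⟨_, rfl⟩
    have him : F1.image v = F := by
      ext f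
      rw [mem_image]
      constructor
      · rintro ⟨p, hp, rfl⟩
        rw [hF1, mem_filter] at hp
        exact hp.2
      · intro hf
        refine ⟨fun i => ⟨f i, lt_of_lt_of_le (hF f hf i) hkk⟩, ?_, ?_⟩
        · rw [hF1, mem_filter]
          refine ⟨mem_univ _, ?_⟩
          rw [hv]
          exact hf
        · rw [hv]
    have hcard : F1.card = F.card := by
      rw [← him, card_image_of_injective _ hvi]
    have hpat : pt d F1 = pat d F := by
      unfold pt pat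
      rw [← him, image_image]
      apply image_congr
      intro p _
      exact hbn p
    have hZeq : ∀ q, ZF Z d F1 q = ZP Z d F q := by
      intro q
      unfold ZF ZP
      apply filter_congr
      intro u _
      constructor
      · rintro ⟨p, hp, h⟩
        refine ⟨v p, ?_, ?_⟩
        · rw [← him]
          exact mem_image_of_mem _ hp
        · rwa [← hbn p]
      · rintro ⟨f, hf, h⟩
        rw [← him, mem_image] at hf
        obtain ⟨p, hp, rfl⟩ := hf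
        exact ⟨p, hp, by rwa [hbn p]⟩
    have hVeq : VV (ZF Z d F1) 0 Y = VV (ZP Z d F) 0 Y := by
      unfold VV
      exact prod_congr rfl fun q _ => by rw [hZeq q]
    have h5 := hd2 F1 ⟨fun _ => ⟨0, by omega⟩, by
      rw [hF1, mem_filter]
      refine ⟨mem_univ _, ?_⟩
      rw [hv]
      exact h0, fun _ => rfl⟩
    have hct : ct S F1 d = (S.filter (fun n => ∀ f ∈ F, n + ∑ i, f i * d i ∈ S)).card := by
      unfold ct
      congr 1
      apply filter_congr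
      intro n _
      constructor
      · intro h f hf
        rw [← him, mem_image] at hf
        obtain ⟨p, hp, rfl⟩ := hf
        have := h p hp
        rwa [hbn p] at this
      · intro h p hp
        rw [hbn p]
        apply h
        rw [← him]
        exact mem_image_of_mem _ hp
    rw [hct] at h5
    have h6 : 0 < ((S.filter (fun n => ∀ f ∈ F, n + ∑ i, f i * d i ∈ S)).card : ℝ) :=
      lt_of_lt_of_le (by positivity) h5
    refine ⟨?_, ?_, ?_⟩
    · rw [← hpat, pt_card hinj, hcard]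
    · intro q hq hqX
      have h7 : 0 < (S.filter (fun n => ∀ f ∈ F, n + ∑ i, f i * d i ∈ S)).card := by exact_mod_cast h6
      obtain ⟨n, hn⟩ := card_pos.1 h7
      rw [mem_filter] at hn
      have h8 : ZP Z d F q ⊆ (range q).erase (n % q) := by
        intro u hu
        rw [mem_erase]
        unfold ZP at hu
        rw [mem_filter] at hu
        refine ⟨?_, hu.1⟩
        rintro rfl
        obtain ⟨_, f, hf, hu2⟩ := hu
        apply hSZ _ (hn.2 f hf) q hq hqX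
        rw [Nat.mod_add_mod] at hu2
        exact hu2
      have h9 := card_le_card h8
      rw [card_erase_of_mem (mem_range.2 (Nat.mod_lt _ hq.pos)), card_range] at h9
      have := hq.pos
      omega
    · refine le_trans ?_ h5
      have h7 := hSb F1
      rw [← hY, hVeq] at h7
      calc min (c / 2) (c / C) * (X * VV (ZP Z d F) 0 Y) ≤ c / C * (X * (C * VV Z 0 Y ^ F1.card)) := by
            apply mul_le_mul (min_le_right _ _) _ _ (by positivity)
            · exact mul_le_mul_of_nonneg_left h7 hX0.le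
            · apply mul_nonneg hX0.le
              unfold VV
              exact prod_nonneg fun q _ => one_sub_nonneg (ZP_lt Z d F q)
        _ = c * X * VV Z 0 Y ^ F1.card := by field_simp

/-- **the general theorem**, with the products over all primes `≤ X` -/
theorem genX (m k r : ℕ) {κ δ : ℝ} (hκ : 0 < κ) (hκ1 : κ ≤ 1) (hδ : 0 < δ) : ∃ c : ℝ, 0 < c ∧ ∃ B X₀ : ℕ,
    ∀ X A D : ℕ, X₀ ≤ X → Real.log X ^ B ≤ D → D ≤ X → ∀ Z : ℕ → Finset ℕ, OK r 1 X Z →
    ∀ S : Finset ℕ, S ⊆ Ioc A (A + X) → (∀ n ∈ S, Av κ X Z n) →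
    δ * (X * VV Z 0 X) ≤ (S.card : ℝ) →
    ∃ G ⊆ Fintype.piFinset (fun _ : Fin m => Icc 1 D), c * (D : ℝ) ^ m ≤ (G.card : ℝ) ∧ ∀ d ∈ G,
      ∀ F : Finset (Fin m → ℕ), (∀ f ∈ F, ∀ i, f i < k) → (fun _ => 0) ∈ F →
      (pat d F).card = F.card ∧
      (∀ q : ℕ, q.Prime → q ≤ X → (ZP Z d F q).card < q) ∧
      c * (X * VV (ZP Z d F) 0 X) ≤ ((S.filter (fun n => ∀ f ∈ F, n + ∑ i, f i * d i ∈ S)).card : ℝ) := by
  classical
  obtain ⟨L, hL⟩ : ∃ L : ℕ, L = ⌈2 / κ⌉₊ := ⟨_, rfl⟩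
  obtain ⟨cD, hcD, R₀, hR₀⟩ := Pool.Agent.Y79.HS.den r L
  obtain ⟨c, hc, B, X₁, h1⟩ := gen m k r hκ hκ1 (show (0 : ℝ) < δ * cD by positivity)
  obtain ⟨X₂, hX₂⟩ := log_ge (Real.log (R₀ + r * k ^ m + 2) / κ)
  refine ⟨c, hc, B, max X₁ (max X₂ (max 2 (2 ^ L))), ?_⟩
  intro X A D hX hBD hDX Z hZ S hSA hSZ hSc
  have hX1 : X₁ ≤ X := (le_max_left _ _).trans hX
  have hX2 := hX₂ X ((le_max_left _ _).trans ((le_max_right _ _).trans hX))
  have hX' := (le_max_right _ _).trans ((le_max_right _ _).trans hX)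
  have hX3 : 2 ≤ X := (le_max_left _ _).trans hX'
  have hX4 : 2 ^ L ≤ X := (le_max_right _ _).trans hX'
  have hX0 : (0 : ℝ) < X := by exact_mod_cast (show 0 < X by omega)
  have hX1' : (1 : ℝ) ≤ X := by exact_mod_cast (show 1 ≤ X by omega)
  obtain ⟨Y, hY⟩ : ∃ Y : ℕ, Y = ⌊(X : ℝ) ^ κ⌋₊ := ⟨_, rfl⟩
  have hXκ0 : 0 < (X : ℝ) ^ κ := by positivity
  have hXκ : (X : ℝ) ^ κ ≤ X := by
    calc (X : ℝ) ^ κ ≤ (X : ℝ) ^ (1 : ℝ) := Real.rpow_le_rpow_of_exponent_le hX1' hκ1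
      _ = X := Real.rpow_one _
  have hYle : (Y : ℝ) ≤ (X : ℝ) ^ κ := by rw [hY]; exact Nat.floor_le hXκ0.le
  have hYlt : (X : ℝ) ^ κ < Y + 1 := by rw [hY]; exact Nat.lt_floor_add_one _
  have hbig : ((R₀ : ℝ) + r * k ^ m + 2) ≤ (X : ℝ) ^ κ := by
    rw [Real.rpow_def_of_pos hX0, ← Real.log_le_iff_le_exp (by positivity)]
    rw [div_le_iff₀ hκ] at hX2
    exact hX2
  have hYR : R₀ + r * k ^ m + 1 ≤ Y := by
    have : ((R₀ + r * k ^ m + 1 : ℕ) : ℝ) ≤ Y := by
      push_cast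
      linarith
    exact_mod_cast this
  have hYX : Y ≤ X := by exact_mod_cast hYle.trans hXκ
  have hXL : X ≤ Y ^ L := by
    have hL1 : 2 / κ ≤ L := by rw [hL]; exact Nat.le_ceil _
    have hYhalf : (X : ℝ) ^ κ ≤ 2 * Y := by
      have : (1 : ℝ) ≤ Y := by exact_mod_cast (show 1 ≤ Y by omega)
      linarith
    have h2 : ((X : ℝ) ^ κ) ^ L ≤ (2 * (Y : ℝ)) ^ L := pow_le_pow_left₀ hXκ0.le hYhalf L
    have h3 : (X : ℝ) ^ 2 ≤ ((X : ℝ) ^ κ) ^ L := by
      rw [← Real.rpow_natCast ((X : ℝ) ^ κ) L, ← Real.rpow_mul hX0.le, ← Real.rpow_natCast (X : ℝ) 2]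
      apply Real.rpow_le_rpow_of_exponent_le hX1'
      rw [div_le_iff₀ hκ] at hL1
      push_cast
      linarith
    rw [mul_pow] at h2
    have h4 : (2 : ℝ) ^ L ≤ X := by exact_mod_cast hX4
    have h5 : (X : ℝ) * X ≤ X * (Y : ℝ) ^ L := by
      rw [← pow_two]
      refine (h3.trans h2).trans ?_
      exact mul_le_mul_of_nonneg_right h4 (by positivity)
    have h6 : (X : ℝ) ≤ (Y : ℝ) ^ L := le_of_mul_le_mul_left h5 hX0
    exact_mod_cast h6
  have hZκ : OK r κ X Z := by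
    intro p hp hpX
    apply hZ p hp
    rw [Real.rpow_one]
    exact hpX.trans hXκ
  have hZX : ∀ q ∈ Pr 0 X, (Z q).card ≤ r ∧ (Z q).card < q ∧ ∀ c ∈ Z q, c < q := by
    intro q hq
    have hq' := Pr_mem.1 hq
    apply hZ q hq'.2
    rw [Real.rpow_one]
    exact_mod_cast hq'.1.2
  have hVnn : ∀ a b : ℕ, b ≤ X → 0 ≤ VV Z a b := by
    intro a b hb
    unfold VV
    apply prod_nonneg
    intro q hq
    have hq' := Pr_mem.1 hq
    exact one_sub_nonneg (hZX q (Pr_mem.2 ⟨⟨by omega, by omega⟩, hq'.2⟩)).2.2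
  have hden : cD ≤ VV Z Y X := hR₀ Y X (by omega) hXL Z (by
    intro p hp
    have hp' := Pr_mem.1 hp
    have := hZX p (Pr_mem.2 ⟨⟨by omega, hp'.1.2⟩, hp'.2⟩)
    exact ⟨this.1, this.2.2⟩)
  have h2 : δ * cD * X * VV Z 0 Y ≤ (S.card : ℝ) := by
    refine le_trans ?_ hSc
    rw [← VV_split Z (Nat.zero_le Y) hYX]
    have h3 := mul_le_mul_of_nonneg_left hden (show 0 ≤ δ * X * VV Z 0 Y by
      have := hVnn 0 Y hYX
      positivity)
    linarith
  rw [hY] at h2
  obtain ⟨G, hG1, hG2, hG3⟩ := h1 X A D hX1 hBD hDX Z hZκ S hSA hSZ h2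
  refine ⟨G, hG1, hG2, fun d hd F hF h0 => ?_⟩
  obtain ⟨g1, g2, g3⟩ := hG3 d hd F hF h0
  refine ⟨g1, ?_, ?_⟩
  · intro q hq hqX
    rcases le_or_gt (q : ℝ) ((X : ℝ) ^ κ) with h3 | h3
    · exact g2 q hq h3
    · have h4 := ZP_card_le Z d F hq.pos
      have h5 : (Z q).card ≤ r := (hZX q (Pr_mem.2 ⟨⟨hq.pos, hqX⟩, hq⟩)).1
      have h6 : F.card ≤ k ^ m := by
        have h7 : F ⊆ Fintype.piFinset (fun _ : Fin m => range k) := by
          intro f hf
          rw [Fintype.mem_piFinset]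
          exact fun i => mem_range.2 (hF f hf i)
        have h8 := card_le_card h7
        rwa [Fintype.card_piFinset, prod_const, card_univ, Fintype.card_fin, card_range] at h8
      have h7 : (ZP Z d F q).card ≤ r * k ^ m := by
        refine h4.trans ?_
        rw [mul_comm r]
        exact Nat.mul_le_mul h6 h5
      have h8 : (Y : ℝ) < q := lt_of_le_of_lt hYle h3
      have h9 : Y < q := by exact_mod_cast h8
      omega
  · refine le_trans ?_ g3
    rw [← hY, ← VV_split (ZP Z d F) (Nat.zero_le Y) hYX]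
    have h3 : VV (ZP Z d F) Y X ≤ 1 := by
      unfold VV
      apply Finset.prod_le_one
      · intro q _
        exact one_sub_nonneg (ZP_lt Z d F q)
      · intro q _
        have : (0 : ℝ) ≤ ((ZP Z d F q).card : ℝ) / q := by positivity
        linarith
    have h4 : 0 ≤ VV (ZP Z d F) 0 Y := by
      unfold VV
      exact prod_nonneg fun q _ => one_sub_nonneg (ZP_lt Z d F q)
    apply mul_le_mul_of_nonneg_left _ hc.le
    apply mul_le_mul_of_nonneg_left _ hX0.le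
    exact mul_le_of_le_one_right h4 h3

end Pool.Agent.X26.GP
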