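import Pool.Agent.X26.GP.Rs
import Pool.Agent.X26.DP.Lfm

/-!
# The linear forms condition for most windows and most shifts
-/

set_option autoImplicit false

open Finset

namespace Pool.Agent.X26.GP

open Pool.Agent.H602R3.DHJ (av av_prod av_const av_mono av_nonneg av_add av_sub av_mul av_sum)
open Pool.Agent.Y727.PSP
open Pool.Agent.Y843.HS
open Pool.Agent.X26.DP (Lp wt frp frp_sep frp_ne nf)

variable {Y : Type} [AddCommGroup Y] [Fintype Y]

/-- second moments, on average over a parameter -/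
theorem lemP {ν : ℕ → ℝ} {M : ℕ} {E : ℝ} {A X N : ℕ} [NeZero N] [Fact N.Prime]
    (h : Cor ν M E A X N) (hX : 1 ≤ X) {Z : Type} [AddCommGroup Z] [Fintype Z]
    {I : Type} [Fintype I] (hI : 2 * Fintype.card I ≤ M) (f : I → Y × Z →+ ZMod N)
    (hf : ∀ i j, i ≠ j → ∃ v, f i v ≠ f j v) (hf0 : ∀ i, ∃ z : Z, f i (0, z) ≠ 0) :
    ∑ x ∈ Ioc A (A + X), av (fun e : Y => (av (fun z : Z => ∏ i, nuX ν N x (f i (e, z))) - 1) ^ 2) ≤
      3 * E * X := by
  classical
  have hX' : (0 : ℝ) < X := by exact_mod_cast hX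
  have hcard : (Ioc A (A + X)).card = X := by rw [Nat.card_Ioc]; omega
  have h1 := h (Y × Z) I (by omega) f hf
  let g : I ⊕ I → Y × (Z × Z) →+ ZMod N := Sum.elim
    (fun i => (f i).comp ((AddMonoidHom.fst Y (Z × Z)).prod
      ((AddMonoidHom.fst Z Z).comp (AddMonoidHom.snd Y (Z × Z)))))
    (fun i => (f i).comp ((AddMonoidHom.fst Y (Z × Z)).prod
      ((AddMonoidHom.snd Z Z).comp (AddMonoidHom.snd Y (Z × Z)))))
  have gl : ∀ i (e : Y) (a b : Z), g (Sum.inl i) (e, (a, b)) = f i (e, a) := fun _ _ _ _ => rfl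
  have gr : ∀ i (e : Y) (a b : Z), g (Sum.inr i) (e, (a, b)) = f i (e, b) := fun _ _ _ _ => rfl
  have f00 : ∀ i, f i (0, (0 : Z)) = 0 := fun i => map_zero (f i)
  have hg : ∀ i j, i ≠ j → ∃ v, g i v ≠ g j v := by
    rintro (i | i) (j | j) hij
    · obtain ⟨v, hv⟩ := hf i j (fun h => hij (by rw [h]))
      refine ⟨(v.1, (v.2, v.2)), ?_⟩
      rw [gl, gl]
      exact hv
    · obtain ⟨z, hz⟩ := hf0 i
      refine ⟨(0, (z, 0)), ?_⟩
      rw [gl, gr, f00]
      exact hz
    · obtain ⟨z, hz⟩ := hf0 i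
      refine ⟨(0, (0, z)), ?_⟩
      rw [gl, gr, f00]
      exact hz
    · obtain ⟨v, hv⟩ := hf i j (fun h => hij (by rw [h]))
      refine ⟨(v.1, (v.2, v.2)), ?_⟩
      rw [gr, gr]
      exact hv
  have h2 := h (Y × (Z × Z)) (I ⊕ I) (by rw [Fintype.card_sum]; omega) g hg
  obtain ⟨F, hF⟩ : ∃ F : ℕ → Y → ℝ, F = fun x e => av (fun z : Z => ∏ i, nuX ν N x (f i (e, z))) := ⟨_, rfl⟩
  have e1 : ∀ x, av (fun y : Y × Z => ∏ i, nuX ν N x (f i y)) = av (fun e : Y => F x e) := by
    intro x
    rw [av_prod, hF]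
  have e2 : ∀ x, av (fun y : Y × (Z × Z) => ∏ i, nuX ν N x (g i y)) = av (fun e : Y => F x e ^ 2) := by
    intro x
    rw [av_prod]
    congr 1
    funext e
    rw [av_prod]
    have h4 : ∀ a b : Z, ∏ i, nuX ν N x (g i (e, (a, b))) =
        (∏ i, nuX ν N x (f i (e, a))) * ∏ i, nuX ν N x (f i (e, b)) := by
      intro a b
      rw [Fintype.prod_sum_type]
      simp only [gl, gr]
    simp_rw [h4]
    simp_rw [av_mul]
    have h5 : av (fun a : Z => (∏ i, nuX ν N x (f i (e, a))) *
        av (fun b : Z => ∏ i, nuX ν N x (f i (e, b)))) =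
        av (fun a : Z => av (fun b : Z => ∏ i, nuX ν N x (f i (e, b))) *
          ∏ i, nuX ν N x (f i (e, a))) := by
      congr 1
      funext a
      rw [mul_comm]
    rw [h5, av_mul, pow_two, hF]
  simp_rw [e1] at h1
  simp_rw [e2] at h2
  have h0 : ∀ x ∈ Ioc A (A + X), av (fun e : Y => (av (fun z : Z => ∏ i, nuX ν N x (f i (e, z))) - 1) ^ 2) =
      av (fun e : Y => F x e ^ 2) - 2 * av (fun e : Y => F x e) + 1 := by
    intro x _
    have e3 : (fun e : Y => (av (fun z : Z => ∏ i, nuX ν N x (f i (e, z))) - 1) ^ 2) =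
        fun e => (F x e ^ 2 - 2 * F x e) + 1 := by
      funext e
      rw [hF]
      ring
    rw [e3, av_add, av_sub, av_mul, av_const]
  rw [sum_congr rfl h0]
  have h6 : ∑ x ∈ Ioc A (A + X), (av (fun e : Y => F x e ^ 2) - 2 * av (fun e : Y => F x e) + 1) =
      (((∑ x ∈ Ioc A (A + X), av (fun e : Y => F x e ^ 2)) / X - 1) -
        2 * ((∑ x ∈ Ioc A (A + X), av (fun e : Y => F x e)) / X - 1)) * X := by
    rw [sum_add_distrib, sum_sub_distrib, ← mul_sum]
    simp only [sum_const, hcard, nsmul_eq_mul, mul_one]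
    field_simp
    ring
  rw [h6]
  apply mul_le_mul_of_nonneg_right _ hX'.le
  have h8 := (abs_le.1 h1).1
  have h9 := (abs_le.1 h2).2
  linarith

open Classical in
/-- the number of the shifts for which the linear forms condition fails -/
noncomputable def nb {K N : ℕ} [NeZero N] (ψ : Fin K → Y →+ ZMod N) (φ : ZMod N → ℝ) (η : ℝ) : ℕ :=
  ((univ : Finset Y).filter (fun e => ¬ LFb φ (fun j => ψ j e) η)).card

open Classical in
/-- the linear forms condition in most windows, for most shifts -/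
theorem lfm {K : ℕ} (hK : 1 ≤ K) {ν : ℕ → ℝ} {M : ℕ} {η E : ℝ} {A X N : ℕ} [NeZero N]
    [Fact N.Prime] (hKN : K < N) (ψ : Fin K → Y →+ ZMod N) (h : Cor ν M E A X N)
    (hX : 1 ≤ X) (hM : 2 * nf K ≤ M) (hη : 0 < η)
    (h1 : 3 * E ≤ η ^ 2) (h2 : 2 ^ nf K * (3 * E) ≤ η ^ 4) :
    ∑ x ∈ Ioc A (A + X), |av (nuX ν N x) - 1| ≤ η * X ∧
    (((Ioc A (A + X)).filter (fun x => ¬ (nb ψ (nuX ν N x) η : ℝ) ≤ η * Fintype.card Y)).card : ℝ) ≤ η * X := by
  have hX' : (0 : ℝ) < X := by exact_mod_cast hX
  have hcard : (Ioc A (A + X)).card = X := by rw [Nat.card_Ioc]; omega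
  have hY0 : (0 : ℝ) < Fintype.card Y := by exact_mod_cast Fintype.card_pos
  have hk1 : 1 ≤ nf K := Nat.mul_pos (by omega) (by positivity)
  constructor
  · have h3 := lemC h hX (I := Unit) (by rw [Fintype.card_unit]; omega)
      (fun _ => AddMonoidHom.id (ZMod N)) (fun i j hij => absurd (Subsingleton.elim i j) hij)
      (fun _ => ⟨1, by simp⟩)
    have h4 : ∀ x, av (fun y : ZMod N => ∏ i : Unit, nuX ν N x (AddMonoidHom.id (ZMod N) y)) =
        av (nuX ν N x) := by
      intro x
      congr 1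
      funext y
      simp
    simp_rw [h4] at h3
    have h5 : ∀ x ∈ Ioc A (A + X), |av (nuX ν N x) - 1| ≤
        η / 2 + (av (nuX ν N x) - 1) ^ 2 / (2 * η) := by
      intro x _
      set y := av (nuX ν N x) - 1
      have h6 : η / 2 + y ^ 2 / (2 * η) = (η ^ 2 + y ^ 2) / (2 * η) := by
        field_simp
      rw [h6, le_div_iff₀ (by positivity)]
      nlinarith [sq_nonneg (|y| - η), sq_abs y]
    refine (sum_le_sum h5).trans ?_
    rw [sum_add_distrib, sum_const, hcard, nsmul_eq_mul, ← sum_div]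
    have h6 : (∑ x ∈ Ioc A (A + X), (av (nuX ν N x) - 1) ^ 2) / (2 * η) ≤ η / 2 * X := by
      rw [div_le_iff₀ (by positivity)]
      calc ∑ x ∈ Ioc A (A + X), (av (nuX ν N x) - 1) ^ 2
          ≤ 3 * E * X := h3
        _ ≤ η ^ 2 * X := mul_le_mul_of_nonneg_right h1 hX'.le
        _ = η / 2 * X * (2 * η) := by ring
    linarith
  · -- the bad shifts of a window for a family of forms
    obtain ⟨TT, hTT⟩ : ∃ TT : Finset (Finset (Fin K × Finset (Option (Fin K)))),
      TT = univ.filter (fun T => ∀ t ∈ T, some t.1 ∉ t.2) := ⟨_, rfl⟩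
    obtain ⟨Q, hQ⟩ : ∃ Q : Finset (Fin K × Finset (Option (Fin K))) → ℕ → Y → ℝ,
      Q = fun T x e => av (fun y : Option (Fin K) → ZMod N × ZMod N =>
        ∏ t ∈ T, nuX ν N x (Lp t.1 (sl t.2 y) + ψ t.1 e)) := ⟨_, rfl⟩
    obtain ⟨bad, hbad⟩ : ∃ bad : Finset (Fin K × Finset (Option (Fin K))) → ℕ → Finset Y,
      bad = fun T x => univ.filter (fun e => η < |Q T x e - 1|) := ⟨_, rfl⟩
    have hsub : ∀ x, (univ : Finset Y).filter (fun e => ¬ LFb (nuX ν N x) (fun j => ψ j e) η) ⊆
        TT.biUnion (fun T => bad T x) := by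
      intro x e he
      rw [mem_filter] at he
      have h3 := he.2
      unfold LFb LF at h3
      push Not at h3
      obtain ⟨T, hT, h4⟩ := h3
      set T' : Finset (Fin K × Finset (Option (Fin K))) :=
        univ.filter (fun t => (some t.1, t.2) ∈ T) with hT'
      rw [mem_biUnion]
      refine ⟨T', ?_, ?_⟩
      · rw [hTT, mem_filter]
        refine ⟨mem_univ _, fun t ht => ?_⟩
        rw [hT', mem_filter] at ht
        exact hT _ ht.2
      · rw [hbad]
        rw [mem_filter]
        refine ⟨mem_univ _, ?_⟩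
        have h5 : (fun y : Option (Fin K) → ZMod N × ZMod N =>
            ∏ t ∈ T', nuX ν N x (Lp t.1 (sl t.2 y) + ψ t.1 e)) =
            fun y => ∏ t ∈ T, wt (fun (j : Fin K) z => nuX ν N x (z + ψ j e)) (fun _ => 1) t.1 (sl t.2 y) := by
          funext y
          rw [← prod_filter_mul_prod_filter_not T (fun t => t.1 ≠ none)]
          have h6 : ∏ t ∈ T.filter (fun t => ¬ t.1 ≠ none),
              wt (fun (j : Fin K) z => nuX ν N x (z + ψ j e)) (fun _ => 1) t.1 (sl t.2 y) = 1 := by
            apply prod_eq_one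
            intro t ht
            rw [mem_filter, not_not] at ht
            rw [ht.2]
            rfl
          rw [h6, mul_one]
          symm
          refine prod_bij' (fun t (ht : t ∈ T.filter (fun t => t.1 ≠ none)) =>
            ((t.1.get (Option.ne_none_iff_isSome.1 (mem_filter.1 ht).2), t.2) :
              Fin K × Finset (Option (Fin K))))
            (fun t _ => ((some t.1, t.2) : Option (Fin K) × Finset (Option (Fin K)))) ?_ ?_ ?_ ?_ ?_
          · intro t ht
            rw [hT', mem_filter]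
            refine ⟨mem_univ _, ?_⟩
            simp only [Option.some_get]
            exact (mem_filter.1 ht).1
          · intro t ht
            rw [hT', mem_filter] at ht
            rw [mem_filter]
            exact ⟨ht.2, by simp⟩
          · intro t ht
            simp
          · intro t ht
            simp
          · intro t ht
            obtain ⟨t1, t2⟩ := t
            rcases t1 with _ | j
            · exact absurd rfl (mem_filter.1 ht).2
            · rfl
        rw [hQ]
        show η < |av _ - 1|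
        rw [h5]
        exact h4
    have hone : ∀ T ∈ TT, (∑ x ∈ Ioc A (A + X), ((bad T x).card : ℝ)) * 2 ^ nf K ≤
        η ^ 2 * X * Fintype.card Y := by
      intro T hT
      rw [hTT, mem_filter] at hT
      have hcT : Fintype.card T ≤ nf K := by
        rw [Fintype.card_coe]
        refine (card_le_univ _).trans (le_of_eq ?_)
        rw [Fintype.card_prod, Fintype.card_fin, Fintype.card_finset, Fintype.card_option,
          Fintype.card_fin]
        rfl
      let fr : T → Y × (Option (Fin K) → ZMod N × ZMod N) →+ ZMod N := fun t =>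
        (frp t.1).comp (AddMonoidHom.snd _ _) + (ψ t.1.1).comp (AddMonoidHom.fst _ _)
      have hfr : ∀ t e y, fr t (e, y) = Lp t.1.1 (sl t.1.2 y) + ψ t.1.1 e := fun _ _ _ => rfl
      have h3 := lemP h hX (I := T) (by omega) fr
        (fun t t' htt => by
          obtain ⟨v, hv⟩ := frp_sep (N := N) hKN t.1 t'.1 (hT.2 t t.2) (hT.2 t' t'.2)
            (fun h => htt (Subtype.ext h))
          refine ⟨(0, v), ?_⟩
          rw [hfr, hfr, map_zero, map_zero, add_zero, add_zero]
          exact hv)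
        (fun t => by
          obtain ⟨v, hv⟩ := frp_ne (N := N) t.1
          refine ⟨v, ?_⟩
          rw [hfr, map_zero, add_zero]
          exact hv)
      have h4 : ∀ x e, av (fun y : Option (Fin K) → ZMod N × ZMod N => ∏ t : T, nuX ν N x (fr t (e, y))) =
          Q T x e := by
        intro x e
        rw [hQ]
        congr 1
        funext y
        exact prod_coe_sort T (fun t => nuX ν N x (Lp t.1 (sl t.2 y) + ψ t.1 e))
      simp_rw [h4] at h3
      have h5 : (∑ x ∈ Ioc A (A + X), ((bad T x).card : ℝ)) * η ^ 2 ≤ 3 * E * X * Fintype.card Y := by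
        refine le_trans ?_ (mul_le_mul_of_nonneg_right h3 hY0.le)
        rw [sum_mul, sum_mul]
        apply sum_le_sum
        intro x _
        unfold av
        rw [div_mul_cancel₀ _ hY0.ne']
        calc ((bad T x).card : ℝ) * η ^ 2 = ∑ e ∈ bad T x, η ^ 2 := by
              rw [sum_const, nsmul_eq_mul]
          _ ≤ ∑ e ∈ bad T x, (Q T x e - 1) ^ 2 := by
              apply sum_le_sum
              intro e he
              rw [hbad, mem_filter] at he
              rw [← sq_abs (Q T x e - 1)]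
              exact pow_le_pow_left₀ hη.le he.2.le 2
          _ ≤ _ := sum_le_sum_of_subset_of_nonneg (subset_univ _) (fun x _ _ => sq_nonneg _)
      have h6 : ((∑ x ∈ Ioc A (A + X), ((bad T x).card : ℝ)) * 2 ^ nf K) * η ^ 2 ≤
          (η ^ 2 * X * Fintype.card Y) * η ^ 2 := by
        calc ((∑ x ∈ Ioc A (A + X), ((bad T x).card : ℝ)) * 2 ^ nf K) * η ^ 2
            = 2 ^ nf K * ((∑ x ∈ Ioc A (A + X), ((bad T x).card : ℝ)) * η ^ 2) := by ring
          _ ≤ 2 ^ nf K * (3 * E * X * Fintype.card Y) :=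
              mul_le_mul_of_nonneg_left h5 (by positivity)
          _ = (2 ^ nf K * (3 * E)) * (X * Fintype.card Y) := by ring
          _ ≤ η ^ 4 * (X * Fintype.card Y) := mul_le_mul_of_nonneg_right h2 (by positivity)
          _ = (η ^ 2 * X * Fintype.card Y) * η ^ 2 := by ring
      exact le_of_mul_le_mul_right h6 (by positivity)
    have hTTc : TT.card ≤ 2 ^ nf K := by
      refine (card_le_univ _).trans (le_of_eq ?_)
      rw [Fintype.card_finset, Fintype.card_prod, Fintype.card_fin, Fintype.card_finset,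
        Fintype.card_option, Fintype.card_fin]
      rfl
    have hnb : ∀ x, (nb ψ (nuX ν N x) η : ℝ) ≤ ∑ T ∈ TT, ((bad T x).card : ℝ) := by
      intro x
      have := (card_le_card (hsub x)).trans card_biUnion_le
      unfold nb
      exact_mod_cast this
    have h7 : ∑ x ∈ Ioc A (A + X), (nb ψ (nuX ν N x) η : ℝ) ≤ η ^ 2 * X * Fintype.card Y := by
      have h8 : (∑ x ∈ Ioc A (A + X), (nb ψ (nuX ν N x) η : ℝ)) * 2 ^ nf K ≤
          (η ^ 2 * X * Fintype.card Y) * 2 ^ nf K := by
        calc (∑ x ∈ Ioc A (A + X), (nb ψ (nuX ν N x) η : ℝ)) * 2 ^ nf K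
            ≤ (∑ x ∈ Ioc A (A + X), ∑ T ∈ TT, ((bad T x).card : ℝ)) * 2 ^ nf K :=
              mul_le_mul_of_nonneg_right (sum_le_sum fun x _ => hnb x) (by positivity)
          _ = ∑ T ∈ TT, (∑ x ∈ Ioc A (A + X), ((bad T x).card : ℝ)) * 2 ^ nf K := by
              rw [sum_comm, sum_mul]
          _ ≤ ∑ T ∈ TT, η ^ 2 * X * Fintype.card Y := sum_le_sum hone
          _ = TT.card * (η ^ 2 * X * Fintype.card Y) := by rw [sum_const, nsmul_eq_mul]
          _ ≤ 2 ^ nf K * (η ^ 2 * X * Fintype.card Y) := by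
              apply mul_le_mul_of_nonneg_right _ (by positivity)
              exact_mod_cast hTTc
          _ = _ := by ring
      exact le_of_mul_le_mul_right h8 (by positivity)
    set P := (Ioc A (A + X)).filter (fun x => ¬ (nb ψ (nuX ν N x) η : ℝ) ≤ η * Fintype.card Y) with hP
    have h8 : (P.card : ℝ) * (η * Fintype.card Y) ≤ η ^ 2 * X * Fintype.card Y := by
      refine le_trans ?_ h7
      calc (P.card : ℝ) * (η * Fintype.card Y) = ∑ x ∈ P, η * Fintype.card Y := by
            rw [sum_const, nsmul_eq_mul]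
        _ ≤ ∑ x ∈ P, (nb ψ (nuX ν N x) η : ℝ) := by
            apply sum_le_sum
            intro x hx
            exact (not_le.1 (mem_filter.1 hx).2).le
        _ ≤ _ := sum_le_sum_of_subset_of_nonneg (filter_subset _ _) (fun _ _ _ => Nat.cast_nonneg _)
    have h9 : (P.card : ℝ) * (η * Fintype.card Y) ≤ (η * X) * (η * Fintype.card Y) := by
      refine h8.trans (le_of_eq ?_)
      ring
    exact le_of_mul_le_mul_right h9 (by positivity)

end Pool.Agent.X26.GP
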