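import Pool.Agent.X26.GP.Rough

/-!
# All patterns in a common generalised progression: values of polynomials
-/

set_option autoImplicit false

namespace Pool.Agent.X26.GP

open Finset
open Pool.Agent.Y843.HS
open Pool.Agent.Y843.AC (OK Av)

variable {m k : ℕ}

/-- the classes of the zeros of `f` modulo `q` -/
def Zf (f : Polynomial ℤ) (q : ℕ) : Finset ℕ := (range q).filter (fun u => (q : ℤ) ∣ f.eval (u : ℤ))

/-- `f` has no fixed prime divisor -/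
def NF (f : Polynomial ℤ) : Prop := ∀ q : ℕ, q.Prime → ∃ n : ℤ, ¬ (q : ℤ) ∣ f.eval n

theorem dvd_eval_iff {f : Polynomial ℤ} {q : ℕ} {a b : ℤ} (h : (q : ℤ) ∣ a - b) :
    (q : ℤ) ∣ f.eval a ↔ (q : ℤ) ∣ f.eval b := by
  have h1 : (q : ℤ) ∣ f.eval a - f.eval b := h.trans (f.sub_dvd_eval_sub a b)
  constructor
  · intro h2
    have := dvd_sub h2 h1
    rwa [sub_sub_cancel] at this
  · intro h2
    have := dvd_add h1 h2
    rwa [sub_add_cancel] at this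

theorem mem_Zf_mod {f : Polynomial ℤ} {q : ℕ} (hq : 0 < q) (n : ℕ) : n % q ∈ Zf f q ↔ (q : ℤ) ∣ f.eval (n : ℤ) := by
  unfold Zf
  rw [mem_filter, mem_range]
  have h1 : (q : ℤ) ∣ ((n % q : ℕ) : ℤ) - n := by
    push_cast
    have h2 : (q : ℤ) ∣ (n : ℤ) - (n : ℤ) % (q : ℤ) := Int.dvd_self_sub_emod
    rw [← dvd_neg, neg_sub]
    exact h2
  rw [dvd_eval_iff h1]
  exact ⟨fun h => h.2, fun h => ⟨Nat.mod_lt _ hq, h⟩⟩

theorem Zf_lt (f : Polynomial ℤ) (q : ℕ) : ∀ u ∈ Zf f q, u < q := fun _ hu => mem_range.1 (mem_filter.1 hu).1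

theorem Zf_card_lt {f : Polynomial ℤ} (hf : NF f) {q : ℕ} (hq : q.Prime) : (Zf f q).card < q := by
  obtain ⟨n, hn⟩ := hf q hq
  have hq0 : (q : ℤ) ≠ 0 := by exact_mod_cast hq.ne_zero
  have h1 : Zf f q ⊂ range q := by
    refine ⟨filter_subset _ _, fun hcon => ?_⟩
    have h2 : (n % q).toNat ∈ range q := by
      rw [mem_range]
      have h3 := Int.emod_nonneg n hq0
      have h4 := Int.emod_lt_of_pos n (show (0 : ℤ) < q by exact_mod_cast hq.pos)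
      omega
    have h3 := hcon h2
    unfold Zf at h3
    rw [mem_filter] at h3
    apply hn
    have h4 : (((n % q).toNat : ℕ) : ℤ) = n % q := Int.toNat_of_nonneg (Int.emod_nonneg n hq0)
    rw [h4] at h3
    have h5 : (q : ℤ) ∣ n - n % q := Int.dvd_self_sub_emod
    exact (dvd_eval_iff h5).2 h3.2
  have h2 := card_lt_card h1
  rwa [card_range] at h2

theorem Zf_card_le {f : Polynomial ℤ} (hf : NF f) {q : ℕ} (hq : q.Prime) : (Zf f q).card ≤ f.natDegree := by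
  classical
  have : Fact q.Prime := ⟨hq⟩
  obtain ⟨g, hg⟩ : ∃ g : Polynomial (ZMod q), g = f.map (Int.castRingHom (ZMod q)) := ⟨_, rfl⟩
  have hev : ∀ a : ℤ, g.eval ((a : ℤ) : ZMod q) = ((f.eval a : ℤ) : ZMod q) := by
    intro a
    rw [hg, Polynomial.eval_intCast_map]
    simp
  have hg0 : g ≠ 0 := by
    intro h0
    obtain ⟨n, hn⟩ := hf q hq
    apply hn
    have h1 := hev n
    rw [h0, Polynomial.eval_zero] at h1
    exact (ZMod.intCast_zmod_eq_zero_iff_dvd _ _).1 h1.symm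
  have h1 : (Zf f q).card ≤ g.roots.toFinset.card := by
    apply card_le_card_of_injOn (f := fun u : ℕ => ((u : ℤ) : ZMod q))
    · intro u hu
      rw [mem_coe] at hu
      unfold Zf at hu
      rw [mem_filter] at hu
      rw [mem_coe, Multiset.mem_toFinset, Polynomial.mem_roots hg0]
      show g.eval _ = 0
      rw [hev]
      exact (ZMod.intCast_zmod_eq_zero_iff_dvd _ _).2 hu.2
    · intro u hu v hv huv
      rw [mem_coe] at hu hv
      have h2 := Zf_lt f q u hu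
      have h3 := Zf_lt f q v hv
      have h4 : ((u : ℤ) : ZMod q) = ((v : ℤ) : ZMod q) := huv
      rw [ZMod.intCast_eq_intCast_iff] at h4
      have h5 : u ≡ v [MOD q] := Int.natCast_modEq_iff.1 h4
      have h6 : u % q = v % q := h5
      rwa [Nat.mod_eq_of_lt h2, Nat.mod_eq_of_lt h3] at h6
  refine h1.trans ((Multiset.toFinset_card_le _).trans ((Polynomial.card_roots' g).trans ?_))
  rw [hg]
  exact Polynomial.natDegree_map_le

theorem OK_Zf {r : ℕ} {f : Polynomial ℤ} (hf : NF f) (hr : f.natDegree ≤ r) (κ : ℝ) (X : ℕ) : OK r κ X (Zf f) :=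
  fun _ hq _ => ⟨(Zf_card_le hf hq).trans hr, Zf_card_lt hf hq, Zf_lt f _⟩

/-- the number of the classes `u` modulo `q` for which `q` divides some `f (u + ∑ g_i d_i)`, `g ∈ F` -/
def om (f : Polynomial ℤ) (d : Fin m → ℕ) (F : Finset (Fin m → ℕ)) (q : ℕ) : ℕ :=
  ((range q).filter (fun u : ℕ => ∃ g ∈ F, (q : ℤ) ∣ f.eval ((u : ℤ) + ∑ i, (g i : ℤ) * (d i : ℤ)))).card

theorem om_eq (f : Polynomial ℤ) (d : Fin m → ℕ) (F : Finset (Fin m → ℕ)) {q : ℕ} (hq : 0 < q) :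
    (ZP (Zf f) d F q).card = om f d F q := by
  unfold ZP om
  congr 1
  apply filter_congr
  intro u _
  have h : ∀ g : Fin m → ℕ, (u + ∑ i, g i * d i) % q ∈ Zf f q ↔
      (q : ℤ) ∣ f.eval ((u : ℤ) + ∑ i, (g i : ℤ) * (d i : ℤ)) := by
    intro g
    rw [mem_Zf_mod hq]
    push_cast
    rfl
  simp only [h]

/-- the product over the primes up to `X` -/
noncomputable def PX (w : ℕ → ℕ) (X : ℕ) : ℝ := ∏ q ∈ (Icc 1 X).filter Nat.Prime, (1 - (w q : ℝ) / q)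

theorem PX_eq (Z : ℕ → Finset ℕ) (w : ℕ → ℕ) (h : ∀ q : ℕ, q.Prime → (Z q).card = w q) (X : ℕ) :
    VV Z 0 X = PX w X := by
  unfold VV PX Pr
  have h1 : Ioc 0 X = Icc 1 X := by
    ext v
    rw [mem_Ioc, mem_Icc]
    omega
  rw [h1]
  apply prod_congr rfl
  intro q hq
  rw [h q (mem_filter.1 hq).2]

/-- **all patterns in a common generalised progression, for values of polynomials** -/
theorem poly (m k r : ℕ) {κ δ : ℝ} (hκ : 0 < κ) (hκ1 : κ ≤ 1) (hδ : 0 < δ) : ∃ c : ℝ, 0 < c ∧ ∃ B X₀ : ℕ,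
    ∀ X A D : ℕ, X₀ ≤ X → Real.log X ^ B ≤ D → D ≤ X → ∀ f : Polynomial ℤ, f.natDegree ≤ r → NF f →
    ∀ S : Finset ℕ, S ⊆ Ioc A (A + X) →
    (∀ n ∈ S, ∀ q : ℕ, q.Prime → (q : ℝ) ≤ (X : ℝ) ^ κ → ¬ (q : ℤ) ∣ f.eval (n : ℤ)) →
    δ * (X * PX (fun q => (Zf f q).card) X) ≤ (S.card : ℝ) →
    ∃ G ⊆ Fintype.piFinset (fun _ : Fin m => Icc 1 D), c * (D : ℝ) ^ m ≤ (G.card : ℝ) ∧ ∀ d ∈ G,
      ∀ F : Finset (Fin m → ℕ), (∀ g ∈ F, ∀ i, g i < k) → (fun _ => 0) ∈ F →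
      (pat d F).card = F.card ∧ (∀ q : ℕ, q.Prime → om f d F q < q) ∧
      c * (X * PX (om f d F) X) ≤ ((S.filter (fun n => ∀ g ∈ F, n + ∑ i, g i * d i ∈ S)).card : ℝ) := by
  classical
  obtain ⟨c, hc, B, X₁, h1⟩ := genX m k r hκ hκ1 hδ
  refine ⟨c, hc, B, max X₁ (r * k ^ m), ?_⟩
  intro X A D hX hBD hDX f hfr hf S hSA hSZ hSc
  have hAv : ∀ n ∈ S, Av κ X (Zf f) n := by
    intro n hn q hq hqX
    rw [mem_Zf_mod hq.pos]
    exact hSZ n hn q hq hqX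
  obtain ⟨G, hG1, hG2, hG3⟩ := h1 X A D ((le_max_left _ _).trans hX) hBD hDX (Zf f) (OK_Zf hf hfr 1 X) S hSA hAv
    (by rwa [PX_eq (Zf f) (fun q => (Zf f q).card) (fun _ _ => rfl)])
  refine ⟨G, hG1, hG2, fun d hd F hF h0 => ?_⟩
  obtain ⟨g1, g2, g3⟩ := hG3 d hd F hF h0
  refine ⟨g1, ?_, ?_⟩
  · intro q hq
    rw [← om_eq f d F hq.pos]
    rcases le_or_gt q X with h2 | h2
    · exact g2 q hq h2
    · have h4 := ZP_card_le (Zf f) d F hq.pos
      have h5 : (Zf f q).card ≤ r := (Zf_card_le hf hq).trans hfr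
      have h6 : F.card ≤ k ^ m := by
        have h7 : F ⊆ Fintype.piFinset (fun _ : Fin m => range k) := by
          intro g hg
          rw [Fintype.mem_piFinset]
          exact fun i => mem_range.2 (hF g hg i)
        have h8 := card_le_card h7
        rwa [Fintype.card_piFinset, prod_const, card_univ, Fintype.card_fin, card_range] at h8
      have h7 : (ZP (Zf f) d F q).card ≤ r * k ^ m := by
        refine h4.trans ?_
        rw [mul_comm r]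
        exact Nat.mul_le_mul h6 h5
      have h8 : r * k ^ m ≤ X := (le_max_right _ _).trans hX
      omega
  · rw [← PX_eq (ZP (Zf f) d F) (om f d F) (fun q hq => om_eq f d F hq.pos)]
    exact g3

open Classical in
/-- the rough values -/
noncomputable def RV (f : Polynomial ℤ) (κ : ℝ) (X A : ℕ) : Finset ℕ :=
  (Ioc A (A + X)).filter (fun n => ∀ q : ℕ, q.Prime → (q : ℝ) ≤ (X : ℝ) ^ κ → ¬ (q : ℤ) ∣ f.eval (n : ℤ))

theorem PX_nonneg {w : ℕ → ℕ} (h : ∀ q : ℕ, q.Prime → w q ≤ q) (X : ℕ) : 0 ≤ PX w X := by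
  unfold PX
  apply prod_nonneg
  intro q hq
  have hq' := (mem_filter.1 hq).2
  have hq0 : (0 : ℝ) < q := by exact_mod_cast hq'.pos
  have h1 : (w q : ℝ) / q ≤ 1 := by
    rw [div_le_one hq0]
    exact_mod_cast h q hq'
  linarith

theorem rough_poly (r : ℕ) : ∃ κ₀ : ℝ, 0 < κ₀ ∧ κ₀ ≤ 1 ∧ ∀ κ : ℝ, 0 < κ → κ ≤ κ₀ → ∃ X₀ : ℕ, ∀ X A : ℕ, X₀ ≤ X →
    ∀ f : Polynomial ℤ, f.natDegree ≤ r → NF f →
    1 / 2 * (X * PX (fun q => (Zf f q).card) X) ≤ ((RV f κ X A).card : ℝ) := by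
  classical
  obtain ⟨κ₀, h0, h1, h2⟩ := rough r
  refine ⟨κ₀, h0, h1, fun κ hκ hκ0 => ?_⟩
  obtain ⟨X₀, h3⟩ := h2 κ hκ hκ0
  refine ⟨max X₀ 1, fun X A hX f hfr hf => ?_⟩
  have hX1 : 1 ≤ X := (le_max_right _ _).trans hX
  have hX0 : (0 : ℝ) < X := by exact_mod_cast hX1
  have hX1' : (1 : ℝ) ≤ X := by exact_mod_cast hX1
  have h4 := h3 X A ((le_max_left _ _).trans hX) (Zf f) (OK_Zf hf hfr κ X)
  have h5 : (Ioc A (A + X)).filter (fun n => Av κ X (Zf f) n) = RV f κ X A := by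
    unfold RV
    apply filter_congr
    intro n _
    unfold Av
    constructor
    · intro h q hq hqX
      have := h q hq hqX
      rwa [mem_Zf_mod hq.pos] at this
    · intro h q hq hqX
      rw [mem_Zf_mod hq.pos]
      exact h q hq hqX
  rw [h5] at h4
  refine le_trans ?_ h4
  obtain ⟨Y, hY⟩ : ∃ Y : ℕ, Y = ⌊(X : ℝ) ^ κ⌋₊ := ⟨_, rfl⟩
  have hYX : Y ≤ X := by
    have h6 : (Y : ℝ) ≤ (X : ℝ) ^ κ := by rw [hY]; exact Nat.floor_le (by positivity)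
    have h7 : (X : ℝ) ^ κ ≤ X := by
      calc (X : ℝ) ^ κ ≤ (X : ℝ) ^ (1 : ℝ) := Real.rpow_le_rpow_of_exponent_le hX1' (hκ0.trans h1)
        _ = X := Real.rpow_one _
    exact_mod_cast h6.trans h7
  rw [← hY, ← PX_eq (Zf f) (fun q => (Zf f q).card) (fun _ _ => rfl), ← VV_split (Zf f) (Nat.zero_le Y) hYX]
  have h6 : VV (Zf f) Y X ≤ 1 := by
    unfold VV
    apply Finset.prod_le_one
    · intro q _
      exact one_sub_nonneg (Zf_lt f q)
    · intro q _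
      have : (0 : ℝ) ≤ ((Zf f q).card : ℝ) / q := by positivity
      linarith
  have h7 : 0 ≤ VV (Zf f) 0 Y := by
    unfold VV
    exact prod_nonneg fun q _ => one_sub_nonneg (Zf_lt f q)
  apply mul_le_mul_of_nonneg_left _ (by norm_num)
  apply mul_le_mul_of_nonneg_left _ hX0.le
  exact mul_le_of_le_one_right h7 h6

/-- the number of the prime factors of a rough number -/
theorem length_le {X : ℕ} (hX : 2 ≤ X) {κ h : ℝ} (hκ : 0 < κ) {N : ℕ} (hN : N ≠ 0) (hNX : (N : ℝ) ≤ (X : ℝ) ^ h)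
    (hp : ∀ q : ℕ, q.Prime → q ∣ N → (X : ℝ) ^ κ < q) : (N.primeFactorsList.length : ℝ) ≤ h / κ := by
  have hX1 : (1 : ℝ) < X := by exact_mod_cast hX
  have hX0 : (0 : ℝ) < X := by linarith
  have h1 : ∀ l : List ℕ, (∀ q ∈ l, (X : ℝ) ^ κ < q) → ((X : ℝ) ^ κ) ^ l.length ≤ (l.prod : ℝ) := by
    intro l
    induction l with
    | nil => simp
    | cons a l ih =>
      intro h2
      rw [List.length_cons, pow_succ', List.prod_cons, Nat.cast_mul]
      apply mul_le_mul (h2 a List.mem_cons_self).le (ih fun q hq => h2 q (List.mem_cons_of_mem _ hq))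
        (by positivity) (Nat.cast_nonneg _)
  have h2 := h1 N.primeFactorsList (fun q hq => hp q (Nat.prime_of_mem_primeFactorsList hq)
    (Nat.dvd_of_mem_primeFactorsList hq))
  have h3 : ((N.primeFactorsList.prod : ℕ) : ℝ) = N := by rw [Nat.prod_primeFactorsList hN]
  rw [h3] at h2
  have h4 := h2.trans hNX
  rw [← Real.rpow_natCast ((X : ℝ) ^ κ), ← Real.rpow_mul hX0.le, Real.rpow_le_rpow_left_iff hX1] at h4
  rw [le_div_iff₀ hκ]
  linarith

/-- `N` is a product of at most `j` primes, all larger than `X ^ (1 / j)` -/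
def Alm (j X : ℕ) (N : ℕ) : Prop :=
  N ≠ 0 ∧ N.primeFactorsList.length ≤ j ∧ ∀ q : ℕ, q.Prime → q ∣ N → (X : ℝ) ^ (1 / (j : ℝ)) < q

open Classical in
/-- **almost prime values of polynomials** -/
theorem almost (r : ℕ) (h : ℝ) : ∃ j : ℕ, 1 ≤ j ∧ ∀ m k : ℕ, ∃ c : ℝ, 0 < c ∧ ∃ B X₀ : ℕ,
    ∀ X A D : ℕ, X₀ ≤ X → Real.log X ^ B ≤ D → D ≤ X → ∀ f : Polynomial ℤ, f.natDegree ≤ r → NF f →
    (∀ n ∈ Ioc A (A + X), |((f.eval (n : ℤ) : ℤ) : ℝ)| ≤ (X : ℝ) ^ h) →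
    ∃ G ⊆ Fintype.piFinset (fun _ : Fin m => Icc 1 D), c * (D : ℝ) ^ m ≤ (G.card : ℝ) ∧ ∀ d ∈ G,
      ∀ F : Finset (Fin m → ℕ), (∀ g ∈ F, ∀ i, g i < k) → (fun _ => 0) ∈ F →
      (pat d F).card = F.card ∧ (∀ q : ℕ, q.Prime → om f d F q < q) ∧
      c * (X * PX (om f d F) X) ≤ (((Ioc A (A + X)).filter (fun n => ∀ g ∈ F, n + ∑ i, g i * d i ≤ A + X ∧
        Alm j X (f.eval (((n + ∑ i, g i * d i : ℕ)) : ℤ)).natAbs)).card : ℝ) := by
  obtain ⟨κ, hκ, hκ1, hR⟩ := rough_poly r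
  obtain ⟨X₁, hX₁⟩ := hR κ hκ le_rfl
  obtain ⟨j, hj⟩ : ∃ j : ℕ, j = ⌈h / κ⌉₊ + ⌈1 / κ⌉₊ + 1 := ⟨_, rfl⟩
  have hj1 : h / κ ≤ j := by
    have := Nat.le_ceil (h / κ)
    have h2 : (0 : ℝ) ≤ (⌈1 / κ⌉₊ : ℝ) := Nat.cast_nonneg _
    rw [hj]
    push_cast
    linarith
  have hj2 : 1 / κ ≤ j := by
    have := Nat.le_ceil (1 / κ)
    have h2 : (0 : ℝ) ≤ (⌈h / κ⌉₊ : ℝ) := Nat.cast_nonneg _
    rw [hj]
    push_cast
    linarith
  have hj0 : (0 : ℝ) < j := by exact_mod_cast (show 0 < j by omega)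
  have hj3 : 1 / (j : ℝ) ≤ κ := by
    rw [div_le_iff₀ hκ] at hj2
    rw [div_le_iff₀ hj0]
    linarith
  refine ⟨j, by omega, fun m k => ?_⟩
  obtain ⟨c, hc, B, X₂, hP⟩ := poly m k r hκ hκ1 (show (0 : ℝ) < 1 / 2 by norm_num)
  obtain ⟨X₃, hX₃⟩ := log_ge (Real.log 2 / κ)
  refine ⟨c, hc, B, max (max X₁ X₂) (max X₃ 2), ?_⟩
  intro X A D hX hBD hDX f hfr hf hfh
  have hX1 : X₁ ≤ X := (le_max_left _ _).trans ((le_max_left _ _).trans hX)
  have hX2 : X₂ ≤ X := (le_max_right _ _).trans ((le_max_left _ _).trans hX)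
  have hX3 : 2 ≤ X := (le_max_right _ _).trans ((le_max_right _ _).trans hX)
  have hX1' : (1 : ℝ) ≤ X := by exact_mod_cast (show 1 ≤ X by omega)
  have hXκ : (2 : ℝ) ≤ (X : ℝ) ^ κ := by
    have h1 := hX₃ X ((le_max_left _ _).trans ((le_max_right _ _).trans hX))
    rw [div_le_iff₀ hκ] at h1
    rw [Real.rpow_def_of_pos (by linarith), ← Real.log_le_iff_le_exp (by norm_num)]
    exact h1
  obtain ⟨G, hG1, hG2, hG3⟩ := hP X A D hX2 hBD hDX f hfr hf (RV f κ X A) (filter_subset _ _)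
    (fun n hn => (mem_filter.1 hn).2) (hX₁ X A hX1 f hfr hf)
  refine ⟨G, hG1, hG2, fun d hd F hF h0 => ?_⟩
  obtain ⟨g1, g2, g3⟩ := hG3 d hd F hF h0
  refine ⟨g1, g2, g3.trans ?_⟩
  apply Nat.cast_le.2
  apply card_le_card
  intro n hn
  rw [mem_filter] at hn ⊢
  have hn1 : n ∈ Ioc A (A + X) := (mem_filter.1 hn.1).1
  refine ⟨hn1, fun g hg => ?_⟩
  have h1 := hn.2 g hg
  obtain ⟨N, hN⟩ : ∃ N : ℕ, N = n + ∑ i, g i * d i := ⟨_, rfl⟩
  rw [← hN] at h1 ⊢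
  have h2 := (mem_filter.1 h1)
  refine ⟨(mem_Ioc.1 h2.1).2, ?_⟩
  have h3 : ∀ q : ℕ, q.Prime → q ∣ (f.eval (N : ℤ)).natAbs → (X : ℝ) ^ κ < q := by
    intro q hq hqd
    by_contra hcon
    rw [not_lt] at hcon
    exact h2.2 q hq hcon (Int.natCast_dvd.2 hqd)
  have h4 : (f.eval (N : ℤ)).natAbs ≠ 0 := by
    intro h0
    have h5 := h3 2 Nat.prime_two (by rw [h0]; exact dvd_zero _)
    push_cast at h5
    linarith
  refine ⟨h4, ?_, ?_⟩
  · have h5 := length_le hX3 hκ h4 (h := h) (by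
      have := hfh N h2.1
      rw [Nat.cast_natAbs]
      push_cast
      exact this) h3
    have h6 := h5.trans hj1
    exact_mod_cast h6
  · intro q hq hqd
    refine lt_of_le_of_lt ?_ (h3 q hq hqd)
    exact Real.rpow_le_rpow_of_exponent_le hX1' hj3

end Pool.Agent.X26.GP
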