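import Pool.Agent.X26.DP.Rs
import Pool.Agent.X26.GP.Var

/-!
# All patterns in a common generalised progression: the relative theorem

`ψ j`, `j < K`, are homomorphisms `Y → ZMod N` with `ψ j (ι s) = j s` for a homomorphism `ι : ZMod N → Y`.
-/

set_option autoImplicit false

open Finset

namespace Pool.Agent.X26.GP

open Pool.Agent.H602R3.DHJ
open Pool.Agent.Y727.PSP
open Pool.Agent.X26.DP (Lp wt Ind_wt cut_some cut_zero av_param Lp_eq cf)

variable {K N : ℕ}

/-- the linear forms condition for the shifted forms -/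
def LFb [NeZero N] (ν : ZMod N → ℝ) (b : Fin K → ZMod N) (η : ℝ) : Prop :=
  LF (wt (fun (j : Fin K) z => ν (z + b j)) (fun _ => 1)) η

theorem LFb_mono [NeZero N] {ν : ZMod N → ℝ} {b : Fin K → ZMod N} {η η' : ℝ} (h : LFb ν b η) (hη : η ≤ η') :
    LFb ν b η' := fun T hT => (h T hT).trans hη

/-- the weights outside of `F` may be replaced by `1` -/
theorem LF_sub [NeZero N] {φ : Fin K → ZMod N → ℝ} {η : ℝ} (h : LF (wt φ (fun _ => 1)) η) (F : Finset (Fin K)) :
    LF (wt (fun j => if j ∈ F then φ j else fun _ => 1) (fun _ => 1)) η := by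
  classical
  intro T hT
  have h1 := h (T.filter (fun t => ∃ j ∈ F, t.1 = some j)) (fun t ht => hT t (mem_filter.1 ht).1)
  refine le_trans (le_of_eq ?_) h1
  congr 3
  funext y
  rw [prod_filter]
  apply prod_congr rfl
  intro t _
  rcases ht : t.1 with _ | j
  · rw [if_neg (by simp)]
    rfl
  · by_cases hj : j ∈ F
    · rw [if_pos ⟨j, hj, rfl⟩]
      show (if j ∈ F then φ j else fun _ => 1) _ = φ j _
      rw [if_pos hj]
    · rw [if_neg (by simpa using hj)]
      show (if j ∈ F then φ j else fun _ => 1) _ = 1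
      rw [if_neg hj]

theorem Lp_shift (j : Fin K) (x : Option (Fin K) → ZMod N) (b : ZMod N) :
    Lp j (x + Pi.single none b) = Lp j x + b := by
  rw [Lp_eq, Lp_eq]
  simp only [Pi.add_apply, mul_add, sum_add_distrib]
  congr 1
  rw [sum_eq_single none]
  · rw [Pi.single_eq_same]
    show (1 : ZMod N) * b = b
    rw [one_mul]
  · intro i _ hi
    rw [Pi.single_eq_of_ne hi, mul_zero]
  · intro h
    exact absurd (mem_univ _) h

/-- the cut norm does not change under shifts -/
theorem cut_shift [NeZero N] {j : Fin K} {h : ZMod N → ℝ} {ε : ℝ} (b : ZMod N)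
    (hc : Cut (some j) (fun x : Option (Fin K) → ZMod N => h (Lp j x)) ε) :
    Cut (some j) (fun x : Option (Fin K) → ZMod N => h (Lp j x + b)) ε := by
  intro u hu hu1
  have h1 := hc (fun i x => u i (x - Pi.single none b)) (by
    intro i x v
    have e : Function.update x i v - Pi.single none b =
        Function.update (x - Pi.single none b) i (v - (Pi.single none b : Option (Fin K) → ZMod N) i) := by
      funext t
      by_cases ht : t = i
      · subst ht
        rw [Pi.sub_apply, Function.update_self, Function.update_self]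
      · rw [Pi.sub_apply, Function.update_of_ne ht, Function.update_of_ne ht, Pi.sub_apply]
    show u i (Function.update x i v - Pi.single none b) = _
    rw [e]
    exact hu i _ _) (fun i x => hu1 _ _)
  obtain ⟨c, hcb⟩ : ∃ c : Option (Fin K) → ZMod N, c = Pi.single none b := ⟨_, rfl⟩
  obtain ⟨H, hH⟩ : ∃ H : (Option (Fin K) → ZMod N) → ℝ,
    H = fun x => h (Lp j x) * ∏ i ∈ univ.erase (some j), u i (x - c) := ⟨_, rfl⟩
  have h1' : |av H| ≤ ε := by
    rw [hH, hcb]
    exact h1
  have h2 : av (fun x => H (x + c)) = av H := Pool.Agent.Y46.PSP.av_addRight H c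
  have h3 : (fun x => H (x + c)) = fun x => h (Lp j x + b) * ∏ i ∈ univ.erase (some j), u i x := by
    funext x
    rw [hH]
    simp only [add_sub_cancel_right]
    rw [hcb, Lp_shift]
  rw [h3] at h2
  show |av (fun x => h (Lp j x + b) * ∏ i ∈ univ.erase (some j), u i x)| ≤ ε
  rw [h2]
  exact h1'

variable {Y : Type} [AddCommGroup Y] [Fintype Y]

/-- the average over the pattern `F` -/
noncomputable def TG [NeZero N] (ψ : Fin K → Y →+ ZMod N) (f : ZMod N → ℝ) (F : Finset (Fin K)) (d : Y) : ℝ :=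
  av (fun a : ZMod N => ∏ j ∈ F, f (a + ψ j d))

theorem av_base [NeZero N] (ι : ZMod N →+ Y) (Φ : Y → ℝ) :
    av Φ = av (fun e : Y => av (fun s : ZMod N => Φ (e + ι s))) := by
  rw [av_comm]
  have h : ∀ s : ZMod N, av (fun e : Y => Φ (e + ι s)) = av Φ := fun s => av_equiv (Equiv.addRight (ι s)) Φ
  simp only [h]
  exact (av_const _).symm

theorem av_ind {Z : Type} [Fintype Z] [DecidableEq Z] (B : Finset Z) :
    av (fun d : Z => if d ∈ B then (1 : ℝ) else 0) = B.card / Fintype.card Z := by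
  unfold av
  rw [sum_boole]
  congr 3
  ext d
  simp

theorem av_param' [NeZero N] (hK : 1 ≤ K) (f : ZMod N → ℝ) (b : Fin K → ZMod N) (F : Finset (Fin K))
    (u : ZMod N → ℝ) :
    av (fun x : Option (Fin K) → ZMod N => ∏ t, wt (fun j => if j ∈ F then (fun z => f (z + b j)) else fun _ => 1) u t x) =
      av (fun s : ZMod N => u s * av (fun a : ZMod N => ∏ j ∈ F, f (a + ((j : ℕ) : ZMod N) * s + b j))) := by
  rw [av_param hK]
  congr 1
  funext d
  congr 2
  funext a
  rw [← prod_filter_mul_prod_filter_not univ (fun j => j ∈ F)]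
  have h1 : ∏ j ∈ univ.filter (fun j => ¬ j ∈ F), (if j ∈ F then (fun z => f (z + b j)) else fun _ => 1)
      (a + ((j : ℕ) : ZMod N) * d) = 1 := by
    apply prod_eq_one
    intro j hj
    rw [if_neg (mem_filter.1 hj).2]
  rw [h1, mul_one]
  have h2 : univ.filter (fun j => j ∈ F) = F := by
    ext j
    simp
  rw [h2]
  apply prod_congr rfl
  intro j hj
  rw [if_pos hj]

/-- the conclusion of the counting lemma -/
theorem count_key {K N : ℕ} [NeZero N] {ε η1 η' : ℝ} (hK : 1 ≤ K) (hη1 : 0 < η1) (hη' : η' ≤ η1)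
    (hC : ∀ (ν g h : Option (Fin K) → (Option (Fin K) → ZMod N) → ℝ),
      (∀ j, Ind j (ν j)) → (∀ j, Ind j (g j)) → (∀ j, Ind j (h j)) → LF ν η1 →
      (∀ j x, 0 ≤ g j x ∧ g j x ≤ ν j x) → (∀ j x, 0 ≤ h j x ∧ h j x ≤ 1) →
      (∀ j, Cut j (fun x => g j x - h j x) η1) →
      |av (fun x : Option (Fin K) → ZMod N => ∏ j, g j x) - av (fun x : Option (Fin K) → ZMod N => ∏ j, h j x)| ≤ ε)
    {ν f g : ZMod N → ℝ} (hf : ∀ a, 0 ≤ f a ∧ f a ≤ ν a) (hg : ∀ a, 0 ≤ g a ∧ g a ≤ 1) (b : Fin K → ZMod N)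
    (hb : LFb ν b η1)
    (hcut : ∀ j : Fin K, Cut (some j) (fun x : Option (Fin K) → ZMod N => f (Lp j x + b j) - g (Lp j x + b j)) η')
    (F : Finset (Fin K)) (u : ZMod N → ℝ) (hu : ∀ s, 0 ≤ u s ∧ u s ≤ 1) :
    |av (fun s => u s * av (fun a : ZMod N => ∏ j ∈ F, f (a + ((j : ℕ) : ZMod N) * s + b j))) -
      av (fun s => u s * av (fun a : ZMod N => ∏ j ∈ F, g (a + ((j : ℕ) : ZMod N) * s + b j)))| ≤ ε := by
  classical
  obtain ⟨mν, hmν⟩ : ∃ m : Fin K → ZMod N → ℝ, m = fun j => if j ∈ F then (fun z => ν (z + b j)) else fun _ => 1 :=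
    ⟨_, rfl⟩
  obtain ⟨mf, hmf⟩ : ∃ m : Fin K → ZMod N → ℝ, m = fun j => if j ∈ F then (fun z => f (z + b j)) else fun _ => 1 :=
    ⟨_, rfl⟩
  obtain ⟨mg, hmg⟩ : ∃ m : Fin K → ZMod N → ℝ, m = fun j => if j ∈ F then (fun z => g (z + b j)) else fun _ => 1 :=
    ⟨_, rfl⟩
  have hLF : LF (wt mν (fun _ => 1)) η1 := by
    rw [hmν]
    exact LF_sub hb F
  have e1 : ∀ j z, 0 ≤ mf j z ∧ mf j z ≤ mν j z := by
    intro j z
    rw [hmf, hmν]
    by_cases hj : j ∈ F
    · simp only [if_pos hj]
      exact hf _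
    · simp only [if_neg hj]
      exact ⟨zero_le_one, le_rfl⟩
  have e2 : ∀ j z, 0 ≤ mg j z ∧ mg j z ≤ 1 := by
    intro j z
    rw [hmg]
    by_cases hj : j ∈ F
    · simp only [if_pos hj]
      exact hg _
    · simp only [if_neg hj]
      exact ⟨zero_le_one, le_rfl⟩
  have e3 : ∀ j, Cut (some j) (fun x : Option (Fin K) → ZMod N => mf j (Lp j x) - mg j (Lp j x)) η1 := by
    intro j v hv hv1
    by_cases hj : j ∈ F
    · refine le_trans (le_of_eq ?_) ((hcut j v hv hv1).trans hη')
      rw [hmf, hmg]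
      simp only [if_pos hj]
    · have e : (fun x : Option (Fin K) → ZMod N => (mf j (Lp j x) - mg j (Lp j x)) *
          ∏ i ∈ univ.erase (some j), v i x) = fun _ => 0 := by
        funext x
        rw [hmf, hmg]
        simp only [if_neg hj, sub_self, zero_mul]
      rw [e, av_const, abs_zero]
      exact hη1.le
  have h5 := hC (wt mν (fun _ => 1)) (wt mf u) (wt mg u) (Ind_wt _ _) (Ind_wt _ _) (Ind_wt _ _) hLF
    (by
      intro j x
      rcases j with _ | j
      · exact hu _
      · exact e1 j _)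
    (by
      intro j x
      rcases j with _ | j
      · exact hu _
      · exact e2 j _)
    (by
      intro j
      rcases j with _ | j
      · intro v _ _
        have e : (fun x : Option (Fin K) → ZMod N => (wt mf u none x - wt mg u none x) *
            ∏ i ∈ univ.erase none, v i x) = fun _ => 0 := by
          funext x
          show (u _ - u _) * _ = 0
          rw [sub_self, zero_mul]
        rw [e, av_const, abs_zero]
        exact hη1.le
      · exact e3 j)
  rw [hmf, hmg, av_param' hK f _ F u, av_param' hK g _ F u] at h5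
  exact h5

open Classical in
/-- **the relative theorem** -/
theorem rsg (hSLF : S_SLF) (hCNT : S_CNT) (hDMT : S_DMT) (hPHI : S_PHI) (K : ℕ) (hK : 1 ≤ K)
    {δ : ℝ} (hδ : 0 < δ) : ∃ c η : ℝ, 0 < c ∧ 0 < η ∧ ∀ (N : ℕ) [NeZero N], N.Prime → K < N →
      ∀ (Y : Type) [AddCommGroup Y] [Fintype Y] (ψ : Fin K → Y →+ ZMod N) (ι : ZMod N →+ Y),
      (∀ j s, ψ j (ι s) = ((j : ℕ) : ZMod N) * s) →
      ∀ ν f : ZMod N → ℝ, (∀ a, 0 ≤ f a ∧ f a ≤ ν a) →
      (((univ : Finset Y).filter (fun e => ¬ LFb ν (fun j => ψ j e) η)).card : ℝ) ≤ η * Fintype.card Y →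
      δ ≤ av f →
      c * Fintype.card Y ≤ (((univ : Finset Y).filter (fun d => ∀ F : Finset (Fin K), c ≤ TG ψ f F d)).card : ℝ) := by
  obtain ⟨c1, hc1, hV⟩ := var K hK (δ / 2) (by positivity)
  obtain ⟨c0, hc0def⟩ : ∃ c0 : ℝ, c0 = min c1 1 := ⟨_, rfl⟩
  have hc0 : 0 < c0 := by rw [hc0def]; exact lt_min hc1 one_pos
  have hc01 : c0 ≤ c1 := by rw [hc0def]; exact min_le_left _ _
  have hc02 : c0 ≤ 1 := by rw [hc0def]; exact min_le_right _ _
  obtain ⟨ε, hε⟩ : ∃ ε : ℝ, ε = c0 ^ 2 / (32 * 2 ^ K) := ⟨_, rfl⟩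
  have hε0 : 0 < ε := by rw [hε]; positivity
  obtain ⟨η1, hη1, hC⟩ := hCNT (Option (Fin K)) ε hε0
  obtain ⟨ε', hε', hD⟩ := hDMT (min η1 (δ / 2)) (by positivity)
  obtain ⟨η2, hη2, hS⟩ := hSLF (Option (Fin K)) ε' hε'
  obtain ⟨η3, hη3⟩ : ∃ η3 : ℝ, η3 = c0 / (8 * 2 ^ K) := ⟨_, rfl⟩
  have hη30 : 0 < η3 := by rw [hη3]; positivity
  have h2K : (1 : ℝ) ≤ 2 ^ K := one_le_pow₀ (by norm_num)
  have hη31 : η3 < 1 := by
    rw [hη3, div_lt_one (by positivity)]
    linarith
  refine ⟨c0 / 4, min (min η1 η2) η3, by positivity, by positivity, ?_⟩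
  intro N _ hN hKN Y _ _ ψ ι hι ν f hf hgood hδf
  obtain ⟨η, hη⟩ : ∃ η : ℝ, η = min (min η1 η2) η3 := ⟨_, rfl⟩
  rw [← hη] at hgood
  have hηη1 : η ≤ η1 := by rw [hη]; exact (min_le_left _ _).trans (min_le_left _ _)
  have hηη2 : η ≤ η2 := by rw [hη]; exact (min_le_left _ _).trans (min_le_right _ _)
  have hηη3 : η ≤ η3 := by rw [hη]; exact min_le_right _ _
  have : Fact N.Prime := ⟨hN⟩
  have hN0 : (0 : ℝ) < N := by exact_mod_cast hN.pos
  have hY0 : (0 : ℝ) < Fintype.card Y := by exact_mod_cast Fintype.card_pos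
  obtain ⟨p1, p2, p3, p4, p5, p6⟩ := hPHI K N hK hN hKN
  have hν0 : ∀ a, 0 ≤ ν a := fun a => (hf a).1.trans (hf a).2
  obtain ⟨j0⟩ : Nonempty (Fin K) := ⟨⟨0, by omega⟩⟩
  -- a good base point
  obtain ⟨e0, he0⟩ : ∃ e0 : Y, LFb ν (fun j => ψ j e0) η := by
    by_contra hcon
    push Not at hcon
    have h1 : ((univ : Finset Y).filter (fun e => ¬ LFb ν (fun j => ψ j e) η)) = univ := by
      rw [filter_true_of_mem]
      intro e _
      exact hcon e
    rw [h1, card_univ] at hgood
    nlinarith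
  -- the majorant is pseudorandom
  have h1 : Cut (some j0) (fun x : Option (Fin K) → ZMod N => ν (Lp j0 x) - 1) ε' := by
    have h0 : Cut (some j0) (fun x : Option (Fin K) → ZMod N => ν (Lp j0 x + ψ j0 e0) - 1) ε' := by
      intro u hu hu1
      have h2 := hS (ZMod N) (wt (fun (j : Fin K) z => ν (z + ψ j e0)) (fun _ => 1)) (by
          intro j x
          rcases j with _ | j
          · exact zero_le_one
          · exact hν0 _) (Ind_wt _ _) (LFb_mono he0 hηη2) (some j0)
        (fun c i => if c = true then fun _ => 1 else u i) (fun _ _ => false)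
        (fun c i => by
          by_cases hc : c = true
          · rw [if_pos hc]
            intro x v
            rfl
          · rw [if_neg hc]
            exact hu i)
        (fun c i x => by
          by_cases hc : c = true
          · simp [hc]
          · simpa [hc] using hu1 i x)
      refine le_trans (le_of_eq ?_) h2
      have h3 := av_sl (J := Option (Fin K)) (V := ZMod N)
        (fun x => (ν (Lp j0 x + ψ j0 e0) - 1) * ∏ i ∈ univ.erase (some j0), u i x)
      rw [← h3]
      congr 2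
      funext y
      congr 1
      apply prod_congr rfl
      intro i _
      rw [if_neg Bool.false_ne_true, if_pos rfl, mul_one]
    have h2 := cut_shift (h := fun z => ν (z + ψ j0 e0) - 1) (j := j0) (-(ψ j0 e0)) h0
    simpa only [neg_add_cancel_right] using h2
  have h1' := cut_zero (h := fun a => ν a - 1) hKN j0 h1
  have h2 := p6 (fun a => ν a - 1) ε' h1'
  obtain ⟨g, hg, hg2⟩ := hD (ZMod N) (Phi K N) p1 p2 p3 p4 ν f hf h2
  have h3 := p5 (fun a => f a - g a) _ hg2 0
  have h4 : δ / 2 ≤ av g := by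
    have h5 := hg2 _ p2
    simp only [mul_one] at h5
    rw [av_sub] at h5
    have h6 := (abs_le.1 h5).2
    have h7 := min_le_right η1 (δ / 2)
    linarith
  -- the counting lemma
  have key : ∀ e : Y, LFb ν (fun j => ψ j e) η → ∀ (F : Finset (Fin K)) (u : ZMod N → ℝ),
      (∀ s, 0 ≤ u s ∧ u s ≤ 1) →
      |av (fun s => u s * TG ψ f F (e + ι s)) - av (fun s => u s * TG ψ g F (e + ι s))| ≤ ε := by
    intro e he F u hu
    have h5 := count_key (ε := ε) (η1 := η1) (η' := min η1 (δ / 2)) hK hη1 (min_le_left _ _) (hC (ZMod N)) hf hg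
      (fun j => ψ j e) (LFb_mono he hηη1)
      (fun j => cut_shift (h := fun a => f a - g a) (ψ j e) (cut_some (h := fun a => f a - g a) hKN j h3)) F u hu
    have h6 : ∀ (φ : ZMod N → ℝ) (s : ZMod N), TG ψ φ F (e + ι s) =
        av (fun a : ZMod N => ∏ j ∈ F, φ (a + ((j : ℕ) : ZMod N) * s + ψ j e)) := by
      intro φ s
      unfold TG
      congr 1
      funext a
      apply prod_congr rfl
      intro j _
      congr 1
      rw [map_add, hι]
      ring
    simp only [h6]
    exact h5
  -- the good differences for the model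
  have hTg1 : ∀ F d, TG ψ g F d ≤ 1 := by
    intro F d
    unfold TG
    calc av (fun a : ZMod N => ∏ j ∈ F, g (a + ψ j d)) ≤ av (fun _ : ZMod N => (1 : ℝ)) :=
          av_mono fun a => prod_le_one (fun j _ => (hg _).1) (fun j _ => (hg _).2)
      _ = 1 := av_const 1
  have hTmono : ∀ F d, TG ψ g univ d ≤ TG ψ g F d := by
    intro F d
    unfold TG
    apply av_mono
    intro a
    rw [← prod_sdiff (subset_univ F)]
    exact mul_le_of_le_one_left (prod_nonneg fun j _ => (hg _).1)
      (prod_le_one (fun j _ => (hg _).1) (fun j _ => (hg _).2))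
  set G0 := (univ : Finset Y).filter (fun d => c0 / 2 ≤ TG ψ g univ d) with hG0
  have hG0c : c0 / 2 * Fintype.card Y ≤ G0.card := by
    have h5 : c0 ≤ av (fun d : Y => TG ψ g univ d) := hc01.trans (hV N Y ψ g hg h4)
    have h7 : av (fun d : Y => TG ψ g univ d) ≤
        av (fun d : Y => (if d ∈ G0 then 1 else 0) + c0 / 2) := by
      apply av_mono
      intro d
      by_cases hd : d ∈ G0
      · rw [if_pos hd]
        have := hTg1 univ d
        linarith
      · rw [if_neg hd]
        rw [hG0, mem_filter, not_and, not_le] at hd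
        have := hd (mem_univ _)
        linarith
    rw [av_add, av_const, av_ind] at h7
    have h9 : c0 / 2 ≤ G0.card / Fintype.card Y := by linarith
    rwa [le_div_iff₀ hY0] at h9
  -- the bad differences
  have hbad : ∀ F : Finset (Fin K), ((G0.filter (fun d => TG ψ f F d < c0 / 4)).card : ℝ) ≤
      (4 * ε / c0 + η3) * Fintype.card Y := by
    intro F
    obtain ⟨Bd, hBd⟩ : ∃ Bd : Finset Y, Bd = G0.filter (fun d => TG ψ f F d < c0 / 4) := ⟨_, rfl⟩
    rw [← hBd]
    set Bad := (univ : Finset Y).filter (fun e => ¬ LFb ν (fun j => ψ j e) η) with hBad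
    have h5 : ∀ e : Y, av (fun s : ZMod N => if e + ι s ∈ Bd then (1 : ℝ) else 0) ≤
        4 * ε / c0 + if e ∈ Bad then 1 else 0 := by
      intro e
      by_cases he : e ∈ Bad
      · rw [if_pos he]
        have h6 : av (fun s : ZMod N => if e + ι s ∈ Bd then (1 : ℝ) else 0) ≤ av (fun _ : ZMod N => (1 : ℝ)) := by
          apply av_mono
          intro s
          split_ifs
          · exact le_rfl
          · exact zero_le_one
        rw [av_const] at h6
        have : 0 ≤ 4 * ε / c0 := by positivity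
        linarith
      · rw [if_neg he, add_zero]
        rw [hBad, mem_filter, not_and, not_not] at he
        have h6 := key e (he (mem_univ _)) F (fun s => if e + ι s ∈ Bd then 1 else 0) (by
          intro s
          split_ifs
          · exact ⟨zero_le_one, le_rfl⟩
          · exact ⟨le_rfl, zero_le_one⟩)
        have h7 : av (fun s => (if e + ι s ∈ Bd then (1 : ℝ) else 0) * TG ψ f F (e + ι s)) ≤
            av (fun s => c0 / 4 * (if e + ι s ∈ Bd then (1 : ℝ) else 0)) := by
          apply av_mono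
          intro s
          by_cases hd : e + ι s ∈ Bd
          · rw [if_pos hd]
            rw [hBd, mem_filter] at hd
            linarith [hd.2]
          · rw [if_neg hd, zero_mul, mul_zero]
        have h8 : av (fun s => c0 / 2 * (if e + ι s ∈ Bd then (1 : ℝ) else 0)) ≤
            av (fun s => (if e + ι s ∈ Bd then (1 : ℝ) else 0) * TG ψ g F (e + ι s)) := by
          apply av_mono
          intro s
          by_cases hd : e + ι s ∈ Bd
          · rw [if_pos hd]
            rw [hBd, mem_filter, hG0, mem_filter] at hd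
            linarith [hd.1.2, hTmono F (e + ι s)]
          · rw [if_neg hd, zero_mul, mul_zero]
        rw [av_mul] at h7 h8
        have h9 := (abs_le.1 h6).1
        have h10 : c0 / 4 * av (fun s : ZMod N => if e + ι s ∈ Bd then (1 : ℝ) else 0) ≤ ε := by linarith
        rw [le_div_iff₀ hc0]
        linarith
    have h6 := av_mono h5
    rw [← av_base ι (fun d => if d ∈ Bd then (1 : ℝ) else 0), av_add, av_const, av_ind, av_ind] at h6
    have h7 : (Bad.card : ℝ) / Fintype.card Y ≤ η3 := by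
      rw [div_le_iff₀ hY0]
      refine hgood.trans ?_
      exact mul_le_mul_of_nonneg_right hηη3 hY0.le
    have h8 : (Bd.card : ℝ) / Fintype.card Y ≤ 4 * ε / c0 + η3 := by linarith
    rwa [div_le_iff₀ hY0] at h8
  -- conclusion
  have hsub : G0 ⊆ (univ : Finset Y).filter (fun d => ∀ F : Finset (Fin K), c0 / 4 ≤ TG ψ f F d) ∪
      (univ : Finset (Finset (Fin K))).biUnion (fun F => G0.filter (fun d => TG ψ f F d < c0 / 4)) := by
    intro d hd
    rw [mem_union, mem_filter, mem_biUnion]
    by_cases h5 : ∀ F : Finset (Fin K), c0 / 4 ≤ TG ψ f F d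
    · exact Or.inl ⟨mem_univ _, h5⟩
    · push Not at h5
      obtain ⟨F, hF⟩ := h5
      exact Or.inr ⟨F, mem_univ _, mem_filter.2 ⟨hd, hF⟩⟩
  have h5 : (G0.card : ℝ) ≤ (((univ : Finset Y).filter (fun d => ∀ F : Finset (Fin K),
      c0 / 4 ≤ TG ψ f F d)).card : ℝ) + 2 ^ K * ((4 * ε / c0 + η3) * Fintype.card Y) := by
    have h6 := (card_le_card hsub).trans ((card_union_le _ _).trans (Nat.add_le_add_left card_biUnion_le _))
    have h7 : (G0.card : ℝ) ≤ (((univ : Finset Y).filter (fun d => ∀ F : Finset (Fin K),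
      c0 / 4 ≤ TG ψ f F d)).card : ℝ) + ∑ F : Finset (Fin K),
        ((G0.filter (fun d => TG ψ f F d < c0 / 4)).card : ℝ) := by exact_mod_cast h6
    refine h7.trans ?_
    gcongr
    refine (sum_le_sum fun F _ => hbad F).trans ?_
    rw [sum_const, card_univ, Fintype.card_finset, Fintype.card_fin, nsmul_eq_mul]
    push_cast
    exact le_rfl
  have h6 : (2 : ℝ) ^ K * ((4 * ε / c0 + η3) * Fintype.card Y) = c0 / 4 * Fintype.card Y := by
    rw [hε, hη3]
    field_simp
    ring
  rw [h6] at h5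
  linarith

end Pool.Agent.X26.GP
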